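import Mathlib

set_option autoImplicit false

open MeasureTheory Filter Topology Set

namespace Pool.Agent.Q174

/-- If `G` varies along `γ` at most as fast as the length element `e^{u} |dγ|`, then the length is
at least the variation of `G`. -/
theorem curve_variation {u G : ℂ → ℝ} (hu : Continuous u) (hG : Continuous G) {γ : ℝ → ℂ}
    {S : Set ℝ} (hS : S.Countable) {s t : ℝ} (hst : s ≤ t) (hcs : ContinuousOn γ (Icc s t))
    (hd : ∀ x ∈ Ioo s t \ S, ∃ g : ℝ, HasDerivAt (fun τ => G (γ τ)) g x ∧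
      |g| ≤ Real.exp (u (γ x)) * ‖deriv γ x‖) :
    ENNReal.ofReal |G (γ t) - G (γ s)| ≤
      ∫⁻ τ in Ioc s t, ENNReal.ofReal (Real.exp (u (γ τ)) * ‖deriv γ τ‖) := by
  set sp : ℝ → ℝ := fun τ => Real.exp (u (γ τ)) * ‖deriv γ τ‖ with hsp
  by_cases hfin : ∫⁻ τ in Ioc s t, ENNReal.ofReal (sp τ) = ⊤
  · rw [hfin]; exact le_top
  have hsp0 : ∀ τ, 0 ≤ sp τ := fun τ => by simp only [hsp]; positivity
  have hmeas : AEStronglyMeasurable sp (volume.restrict (Ioc s t)) := by
    refine AEStronglyMeasurable.mul ?_ (measurable_deriv γ).norm.aestronglyMeasurable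
    have : ContinuousOn (fun τ => Real.exp (u (γ τ))) (Ioc s t) :=
      (hu.comp_continuousOn (hcs.mono Ioc_subset_Icc_self)).rexp
    exact this.aestronglyMeasurable measurableSet_Ioc
  have hint : IntegrableOn sp (Ioc s t) :=
    (lintegral_ofReal_ne_top_iff_integrable hmeas (Eventually.of_forall hsp0)).1 hfin
  have hder : ∀ x ∈ Ioo s t \ S, HasDerivAt (fun τ => G (γ τ))
      (deriv (fun τ => G (γ τ)) x) x ∧ |deriv (fun τ => G (γ τ)) x| ≤ sp x := by
    intro x hx
    obtain ⟨g, hg, hg'⟩ := hd x hx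
    rw [hg.deriv]
    exact ⟨hg, hg'⟩
  have hae : ∀ᵐ τ ∂(volume.restrict (Ioc s t)), ‖deriv (fun τ => G (γ τ)) τ‖ ≤ sp τ := by
    rw [ae_restrict_iff' measurableSet_Ioc]
    have h1 : ∀ᵐ τ : ℝ, τ ∉ S := by
      have := hS.measure_zero volume
      exact compl_mem_ae_iff.2 this
    have h2 : ∀ᵐ τ : ℝ, τ ∉ ({t} : Set ℝ) := by
      exact compl_mem_ae_iff.2 (by simp)
    filter_upwards [h1, h2] with τ hτ hτ2 hτ3
    rw [Real.norm_eq_abs]
    refine (hder τ ⟨⟨hτ3.1, lt_of_le_of_ne hτ3.2 ?_⟩, hτ⟩).2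
    simpa using hτ2
  have hgint : IntegrableOn (deriv (fun τ => G (γ τ))) (Ioc s t) :=
    hint.mono' (measurable_deriv _).aestronglyMeasurable hae
  have hftc := integral_eq_of_hasDerivAt_off_countable_of_le (fun τ => G (γ τ))
    (deriv (fun τ => G (γ τ))) hst hS (hG.comp_continuousOn hcs)
    (fun x hx => (hder x hx).1)
    ((intervalIntegrable_iff_integrableOn_Ioc_of_le hst).2 hgint)
  rw [← hftc, intervalIntegral.integral_of_le hst,
    ← ofReal_integral_eq_lintegral_ofReal hint (Eventually.of_forall hsp0)]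
  apply ENNReal.ofReal_le_ofReal
  rw [← Real.norm_eq_abs]
  exact (norm_integral_le_integral_norm _).trans (integral_mono_ae hgint.norm hint hae)

end Pool.Agent.Q174
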