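import Mathlib

set_option autoImplicit false

open MeasureTheory Filter Topology Set

namespace Pool.Agent.Q174.GF

/-- `(max x 0)^2`. -/
noncomputable def P (x : ℝ) : ℝ := (max x 0) ^ 2

lemma hasDerivAt_P (x : ℝ) : HasDerivAt P (2 * max x 0) x := by
  rcases lt_trichotomy x 0 with h | h | h
  · have h1 : P =ᶠ[𝓝 x] fun _ => 0 := by
      filter_upwards [gt_mem_nhds h] with y hy
      simp [P, max_eq_right hy.le]
    rw [max_eq_right h.le, mul_zero]
    exact (hasDerivAt_const x (0 : ℝ)).congr_of_eventuallyEq h1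
  · subst h
    rw [max_self, mul_zero]
    rw [hasDerivAt_iff_isLittleO_nhds_zero]
    have : (fun h : ℝ => P (0 + h) - P 0 - h • (0 : ℝ)) = fun h => P h := by
      ext h; simp [P]
    rw [this]
    have h2 : (fun h : ℝ => P h) =O[𝓝 0] fun h : ℝ => h ^ 2 := by
      refine Asymptotics.IsBigO.of_bound 1 (Eventually.of_forall fun h => ?_)
      rw [one_mul, Real.norm_eq_abs, Real.norm_eq_abs, abs_of_nonneg (sq_nonneg h), P,
        abs_of_nonneg (sq_nonneg _)]
      rcases le_total h 0 with hh | hh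
      · rw [max_eq_right hh]; nlinarith [sq_nonneg h]
      · rw [max_eq_left hh]
    refine h2.trans_isLittleO ?_
    simpa using Asymptotics.isLittleO_pow_pow (𝕜 := ℝ) (m := 1) (n := 2) (by norm_num)
  · have h1 : P =ᶠ[𝓝 x] fun y => y ^ 2 := by
      filter_upwards [lt_mem_nhds h] with y hy
      simp [P, max_eq_left hy.le]
    rw [max_eq_left h.le]
    have := (hasDerivAt_pow 2 x).congr_of_eventuallyEq h1
    simpa using this

/-- The nonlinearity. -/
noncomputable def g (u : ℝ) : ℝ := Real.exp (u - P (u + 1)) * (1 - P (u + 1))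

/-- Its derivative. -/
noncomputable def g' (u : ℝ) : ℝ :=
  Real.exp (u - P (u + 1)) * ((1 - 2 * max (u + 1) 0) * (1 - P (u + 1)) - 2 * max (u + 1) 0)

lemma hasDerivAt_g (u : ℝ) : HasDerivAt g (g' u) u := by
  have h1 : HasDerivAt (fun u : ℝ => P (u + 1)) (2 * max (u + 1) 0) u := by
    have := (hasDerivAt_P (u + 1)).comp_add_const u 1
    simpa using this
  have h2 := (((hasDerivAt_id u).sub h1).exp).mul (h1.const_sub 1)
  refine h2.congr_deriv ?_
  simp only [g', id, Pi.sub_apply]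
  ring

lemma continuous_P : Continuous P := by unfold P; fun_prop

lemma continuous_g' : Continuous g' := by
  have := continuous_P
  unfold g'
  fun_prop

lemma deriv_g (u : ℝ) : deriv g u = g' u := (hasDerivAt_g u).deriv

lemma contDiff_g : ContDiff ℝ 1 g := by
  rw [contDiff_one_iff_deriv]
  refine ⟨fun u => (hasDerivAt_g u).differentiableAt, ?_⟩
  have : deriv g = g' := funext deriv_g
  rw [this]
  exact continuous_g'

lemma P_of_nonpos {x : ℝ} (hx : x ≤ 0) : P x = 0 := by simp [P, max_eq_right hx]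

lemma P_of_nonneg {x : ℝ} (hx : 0 ≤ x) : P x = x ^ 2 := by simp [P, max_eq_left hx]

lemma P_nonneg (x : ℝ) : 0 ≤ P x := sq_nonneg _

lemma g_of_le {u : ℝ} (h : u ≤ -1) : g u = Real.exp u := by
  simp [g, P_of_nonpos (show u + 1 ≤ 0 by linarith)]

lemma g'_of_le {u : ℝ} (h : u ≤ -1) : g' u = Real.exp u := by
  simp [g', P_of_nonpos (show u + 1 ≤ 0 by linarith), max_eq_right (show u + 1 ≤ 0 by linarith)]

lemma g_zero : g 0 = 0 := by simp [g, P]

lemma P_lt_one {u : ℝ} (h : u < 0) : P (u + 1) < 1 := by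
  rcases le_total (u + 1) 0 with h1 | h1
  · rw [P_of_nonpos h1]; norm_num
  · rw [P_of_nonneg h1]; nlinarith

lemma g_pos {u : ℝ} (h : u < 0) : 0 < g u := by
  have := P_lt_one h
  unfold g
  have h1 : 0 < 1 - P (u + 1) := by linarith
  positivity

lemma g_nonneg {u : ℝ} (h : u ≤ 0) : 0 ≤ g u := by
  rcases h.lt_or_eq with h | h
  · exact (g_pos h).le
  · rw [h, g_zero]

lemma g_le_exp {u : ℝ} (h : u ≤ 0) : g u ≤ Real.exp u := by
  have h1 := P_nonneg (u + 1)
  have h2 : 1 - P (u + 1) ≤ 1 := by linarith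
  have h3 : Real.exp (u - P (u + 1)) ≤ Real.exp u := Real.exp_le_exp.2 (by linarith)
  unfold g
  calc Real.exp (u - P (u + 1)) * (1 - P (u + 1)) ≤ Real.exp (u - P (u + 1)) * 1 :=
        mul_le_mul_of_nonneg_left h2 (Real.exp_pos _).le
    _ ≤ Real.exp u := by linarith

lemma g'_le_g {u : ℝ} (h : u ≤ 0) : g' u ≤ g u := by
  unfold g g'
  refine mul_le_mul_of_nonneg_left ?_ (Real.exp_pos _).le
  have h0 : 0 ≤ max (u + 1) 0 := le_max_right _ _
  have h1 : 0 ≤ 1 - P (u + 1) := by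
    rcases h.lt_or_eq with h | h
    · linarith [P_lt_one h]
    · rw [h]; simp [P]
  nlinarith [mul_nonneg h0 h1]

lemma g'_nonpos {u : ℝ} (h : -(1 / 2) ≤ u) (h' : u ≤ 0) : g' u ≤ 0 := by
  unfold g'
  refine mul_nonpos_of_nonneg_of_nonpos (Real.exp_pos _).le ?_
  rw [max_eq_left (show (0 : ℝ) ≤ u + 1 by linarith), P_of_nonneg (show (0 : ℝ) ≤ u + 1 by linarith)]
  nlinarith [mul_nonneg (show (0 : ℝ) ≤ u + 1 by linarith) (show (0 : ℝ) ≤ -u by linarith),
    mul_nonneg (show (0 : ℝ) ≤ (u + 1) ^ 2 by positivity) (show (0 : ℝ) ≤ u + 1 by linarith)]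

lemma bound (u : ℝ) : |g u| + |g' u| ≤ 64 := by
  set m := max (u + 1) 0 with hm
  have hm0 : 0 ≤ m := le_max_right _ _
  have hP : P (u + 1) = m ^ 2 := rfl
  have hu : u ≤ m - 1 := by have := le_max_left (u + 1) 0; linarith
  have h1 : u - m ^ 2 ≤ -(m ^ 2 / 2) := by nlinarith [sq_nonneg (m - 1)]
  have h2 : Real.exp (u - m ^ 2) ≤ Real.exp (-(m ^ 2 / 2)) := Real.exp_le_exp.2 h1
  have h3 : (1 + m ^ 2 / 4) ^ 2 ≤ Real.exp (m ^ 2 / 2) := by
    have h4 : 1 + m ^ 2 / 4 ≤ Real.exp (m ^ 2 / 4) := by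
      have := Real.add_one_le_exp (m ^ 2 / 4); linarith
    calc (1 + m ^ 2 / 4) ^ 2 ≤ (Real.exp (m ^ 2 / 4)) ^ 2 := by
          apply pow_le_pow_left₀ (by positivity) h4
      _ = Real.exp (m ^ 2 / 2) := by rw [← Real.exp_nat_mul]; congr 1; push_cast; ring
  have h5 : (1 + m ^ 2) ^ 2 * Real.exp (-(m ^ 2 / 2)) ≤ 16 := by
    rw [Real.exp_neg, ← div_eq_mul_inv, div_le_iff₀ (Real.exp_pos _)]
    nlinarith [sq_nonneg m]
  have h6 : |1 - m ^ 2| ≤ (1 + m ^ 2) ^ 2 := by
    rw [abs_le]; constructor <;> nlinarith [sq_nonneg m, sq_nonneg (m ^ 2)]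
  have h7 : |(1 - 2 * m) * (1 - m ^ 2) - 2 * m| ≤ 3 * (1 + m ^ 2) ^ 2 := by
    have e1 : 0 ≤ (m - 1) ^ 2 * m := by positivity
    have e2 : 0 ≤ m ^ 4 := by positivity
    have e3 : 0 ≤ m ^ 3 := by positivity
    have e4 : 0 ≤ (m ^ 2 - m) ^ 2 := by positivity
    rw [abs_le]; constructor <;> nlinarith [sq_nonneg m, sq_nonneg (m - 1)]
  have h8 : |g u| ≤ 16 := by
    unfold g
    rw [hP, abs_mul, abs_of_pos (Real.exp_pos _)]
    calc Real.exp (u - m ^ 2) * |1 - m ^ 2| ≤ Real.exp (-(m ^ 2 / 2)) * (1 + m ^ 2) ^ 2 :=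
          mul_le_mul h2 h6 (abs_nonneg _) (Real.exp_pos _).le
      _ ≤ 16 := by linarith
  have h9 : |g' u| ≤ 48 := by
    unfold g'
    rw [hP, abs_mul, abs_of_pos (Real.exp_pos _), ← hm]
    calc Real.exp (u - m ^ 2) * |(1 - 2 * m) * (1 - m ^ 2) - 2 * m|
        ≤ Real.exp (-(m ^ 2 / 2)) * (3 * (1 + m ^ 2) ^ 2) :=
          mul_le_mul h2 h7 (abs_nonneg _) (Real.exp_pos _).le
      _ ≤ 48 := by linarith
  linarith

lemma integrableOn_g (u : ℝ) : IntegrableOn g (Iic u) := by
  have h1 : IntegrableOn g (Iic (-1)) := by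
    refine (integrableOn_exp_Iic (-1)).congr_fun (fun x hx => (g_of_le hx).symm) measurableSet_Iic
  have h2 : IntegrableOn g (Icc (-1) u) := contDiff_g.continuous.continuousOn.integrableOn_Icc
  refine (h1.union h2).mono_set fun x hx => ?_
  rcases le_total x (-1) with h | h
  · exact Or.inl h
  · exact Or.inr ⟨h, hx⟩

lemma G0_of_le {u : ℝ} (h : u ≤ -1) : ∫ s in Iic u, g s = Real.exp u := by
  rw [← integral_exp_Iic u]
  exact setIntegral_congr_fun measurableSet_Iic fun x hx => g_of_le (le_trans hx h)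

lemma g_le_G0 {u : ℝ} (h : u < 0) : g u ≤ ∫ s in Iic u, g s := by
  rcases le_total u (-1) with h1 | h1
  · rw [G0_of_le h1, g_of_le h1]
  · have e1 : ∫ s in Iic u, g s = (∫ s in Iic (-1 : ℝ), g s) + ∫ s in (-1 : ℝ)..u, g s := by
      rw [← intervalIntegral.integral_Iic_sub_Iic (integrableOn_g _) (integrableOn_g _)]
      ring
    have e2 : ∫ s in (-1 : ℝ)..u, g' s = g u - g (-1) :=
      intervalIntegral.integral_eq_sub_of_hasDerivAt (fun x _ => hasDerivAt_g x)
        (continuous_g'.intervalIntegrable _ _)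
    have e3 : ∫ s in (-1 : ℝ)..u, g' s ≤ ∫ s in (-1 : ℝ)..u, g s := by
      refine intervalIntegral.integral_mono_on h1 (continuous_g'.intervalIntegrable _ _)
        (contDiff_g.continuous.intervalIntegrable _ _) fun x hx => g'_le_g (by linarith [hx.2])
    rw [e1, G0_of_le le_rfl]
    rw [e2, g_of_le le_rfl] at e3
    linarith

/-- `∫ e^{at} g(-Mt) dt < ∞` iff `a < M`. -/
lemma integrable_iff {a M : ℝ} (hM : 0 < M) :
    IntegrableOn (fun t : ℝ => Real.exp (a * t) * g (-M * t)) (Ioi 0) ↔ a < M := by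
  have hcont : Continuous (fun t : ℝ => Real.exp (a * t) * g (-M * t)) := by
    have := contDiff_g.continuous
    fun_prop
  have hset : IntegrableOn (fun t : ℝ => Real.exp (a * t) * g (-M * t)) (Ioi 0) ↔
      IntegrableOn (fun t : ℝ => Real.exp (a * t) * g (-M * t)) (Ioi (1 / M)) := by
    constructor
    · intro h
      exact h.mono_set (Ioi_subset_Ioi (by positivity))
    · intro h
      have h2 : IntegrableOn (fun t : ℝ => Real.exp (a * t) * g (-M * t)) (Icc 0 (1 / M)) :=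
        hcont.continuousOn.integrableOn_Icc
      refine (h2.union h).mono_set fun x hx => ?_
      rcases le_total x (1 / M) with h | h
      · exact Or.inl ⟨(mem_Ioi.1 hx).le, h⟩
      · rcases h.lt_or_eq with h | h
        · exact Or.inr h
        · exact Or.inl ⟨(mem_Ioi.1 hx).le, h.symm.le⟩
  have hcongr : IntegrableOn (fun t : ℝ => Real.exp (a * t) * g (-M * t)) (Ioi (1 / M)) ↔
      IntegrableOn (fun t : ℝ => Real.exp ((a - M) * t)) (Ioi (1 / M)) := by
    refine integrableOn_congr_fun (fun t ht => ?_) measurableSet_Ioi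
    have h1 : 1 / M < t := ht
    have h2 : 1 < M * t := by
      rw [div_lt_iff₀ hM] at h1; linarith
    rw [g_of_le (by linarith), ← Real.exp_add]
    congr 1
    ring
  rw [hset, hcongr]
  constructor
  · intro h
    by_contra hcon
    push Not at hcon
    have h1 : IntegrableOn (fun _ : ℝ => (1 : ℝ)) (Ioi (1 / M)) := by
      refine Integrable.mono' h (by fun_prop) ?_
      refine (ae_restrict_iff' measurableSet_Ioi).2 (Eventually.of_forall fun t ht => ?_)
      have h3 : 0 < 1 / M := by positivity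
      have h2 : 0 ≤ t := by have : 1 / M < t := ht; linarith
      rw [norm_one]
      exact Real.one_le_exp (mul_nonneg (by linarith) h2)
    rw [integrableOn_const_iff] at h1
    simp at h1
  · intro h
    exact integrableOn_exp_mul_Ioi (by linarith) _

end Pool.Agent.Q174.GF
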