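import Mathlib

set_option autoImplicit false

open MeasureTheory Laplacian InnerProductSpace Filter Topology Set

namespace Pool.Agent.Q174

/-- Right multiplication by `a` as a real-linear map. -/
noncomputable def Mr (a : ℂ) : ℂ →L[ℝ] ℂ := ContinuousLinearMap.mul ℝ ℂ a

@[simp] lemma Mr_apply (a v : ℂ) : Mr a v = a * v := rfl

/-- `Mr` as a linear map. -/
noncomputable def MrL : ℂ →L[ℝ] ℂ →L[ℝ] ℂ := ContinuousLinearMap.mul ℝ ℂ

@[simp] lemma MrL_apply (a : ℂ) : MrL a = Mr a := rfl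

lemma hasFDerivAt_of_hasDerivAt {F : ℂ → ℂ} {a y : ℂ} (h : HasDerivAt F a y) :
    HasFDerivAt F (Mr a) y := by
  have h1 := h.hasFDerivAt.restrictScalars ℝ
  refine h1.congr_fderiv ?_
  ext v <;> simp [mul_comm]

lemma fderiv_real_of_hasDerivAt {F : ℂ → ℂ} {a y : ℂ} (h : HasDerivAt F a y) :
    fderiv ℝ F y = Mr a := (hasFDerivAt_of_hasDerivAt h).fderiv

lemma laplacian_complex {f : ℂ → ℝ} {z : ℂ} :
    Δ f z = fderiv ℝ (fderiv ℝ f) z 1 1 + fderiv ℝ (fderiv ℝ f) z Complex.I Complex.I := by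
  rw [laplacian_eq_iteratedFDeriv_complexPlane]
  simp only [iteratedFDeriv_two_apply]
  simp

/-- The Laplacian of a function of a holomorphic function. -/
theorem laplacian_comp_hol {Φ : ℂ → ℝ} {F F' : ℂ → ℂ} {c z : ℂ}
    (hΦ : ContDiffAt ℝ 2 Φ (F z)) (hF : ∀ᶠ y in 𝓝 z, HasDerivAt F (F' y) y)
    (hF' : HasDerivAt F' c z) :
    Δ (fun y => Φ (F y)) z = ‖F' z‖ ^ 2 * Δ Φ (F z) := by
  have hFz : HasDerivAt F (F' z) z := hF.self_of_nhds
  have hFd : ∀ᶠ w in 𝓝 (F z), DifferentiableAt ℝ Φ w := by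
    have h1 : ∀ᶠ w in 𝓝 (F z), ContDiffAt ℝ 2 Φ w := hΦ.eventually (by simp)
    filter_upwards [h1] with w hw using hw.differentiableAt (by norm_num)
  have h1 : fderiv ℝ (fun y => Φ (F y)) =ᶠ[𝓝 z] fun y => (fderiv ℝ Φ (F y)).comp (Mr (F' y)) := by
    filter_upwards [hF, hFz.continuousAt.eventually hFd] with y hy hy2
    exact (hy2.hasFDerivAt.comp y (hasFDerivAt_of_hasDerivAt hy)).fderiv
  have h2 : HasFDerivAt (fun y => fderiv ℝ Φ (F y))
      ((fderiv ℝ (fderiv ℝ Φ) (F z)).comp (Mr (F' z))) z := by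
    have h3 : DifferentiableAt ℝ (fderiv ℝ Φ) (F z) :=
      (hΦ.fderiv_right (m := 1) (by norm_num)).differentiableAt (by norm_num)
    exact h3.hasFDerivAt.comp z (hasFDerivAt_of_hasDerivAt hFz)
  have h4 : HasFDerivAt (fun y => Mr (F' y)) (MrL.comp (Mr c)) z :=
    MrL.hasFDerivAt.comp z (hasFDerivAt_of_hasDerivAt hF')
  have h5 := h2.clm_comp h4
  rw [laplacian_complex, laplacian_complex, h1.fderiv_eq, h5.fderiv]
  have e1 : ∀ v : ℂ, fderiv ℝ (fderiv ℝ Φ) (F z) v =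
      v.re • fderiv ℝ (fderiv ℝ Φ) (F z) 1 + v.im • fderiv ℝ (fderiv ℝ Φ) (F z) Complex.I := by
    intro v
    rw [← map_smul, ← map_smul, ← map_add]
    congr 1
    apply Complex.ext <;> simp
  have e2 : ∀ (L : ℂ →L[ℝ] ℝ) (v : ℂ), L v = v.re * L 1 + v.im * L Complex.I := by
    intro L v
    rw [← smul_eq_mul, ← smul_eq_mul, ← map_smul, ← map_smul, ← map_add]
    congr 1
    apply Complex.ext <;> simp
  simp only [add_apply, ContinuousLinearMap.comp_apply, ContinuousLinearMap.compL_apply,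
    ContinuousLinearMap.flip_apply, MrL_apply, Mr_apply, mul_one]
  have e3 : c * Complex.I * Complex.I = -c := by rw [mul_assoc, Complex.I_mul_I]; ring
  rw [e3, map_neg, e1 (F' z), e1 (F' z * Complex.I)]
  simp only [add_apply, smul_apply, smul_eq_mul]
  rw [e2 (fderiv ℝ (fderiv ℝ Φ) (F z) 1) (F' z), e2 (fderiv ℝ (fderiv ℝ Φ) (F z) Complex.I) (F' z),
    e2 (fderiv ℝ (fderiv ℝ Φ) (F z) 1) (F' z * Complex.I),
    e2 (fderiv ℝ (fderiv ℝ Φ) (F z) Complex.I) (F' z * Complex.I)]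
  rw [← Complex.normSq_eq_norm_sq, Complex.normSq_apply]
  simp
  ring

end Pool.Agent.Q174
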