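import Mathlib
import Pool.Agent.Q174.Lap

set_option autoImplicit false

open MeasureTheory Laplacian InnerProductSpace Filter Topology Set

namespace Pool.Agent.Q174.LiouDiam

/-- The Laplacian of a function of the imaginary part. -/
lemma laplacian_im {h h' : ℝ → ℝ} {h'' : ℝ} {w : ℂ} (h1 : ∀ y, HasDerivAt h (h' y) y)
    (h2 : HasDerivAt h' h'' w.im) : Δ (fun w : ℂ => h w.im) w = h'' := by
  have e1 : fderiv ℝ (fun w : ℂ => h w.im) = fun w => h' w.im • Complex.imCLM := by
    ext1 w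
    have e0 : HasFDerivAt (fun w : ℂ => w.im) (Complex.imCLM : ℂ →L[ℝ] ℝ) w :=
      Complex.imCLM.hasFDerivAt
    have : HasFDerivAt (fun w : ℂ => h w.im) (h' w.im • (Complex.imCLM : ℂ →L[ℝ] ℝ)) w :=
      (h1 w.im).comp_hasFDerivAt w e0
    exact this.fderiv
  have e2 : HasFDerivAt (fun w : ℂ => h' w.im • (Complex.imCLM : ℂ →L[ℝ] ℝ))
      ((h'' • (Complex.imCLM : ℂ →L[ℝ] ℝ)).smulRight (Complex.imCLM : ℂ →L[ℝ] ℝ)) w := by
    have e0 : HasFDerivAt (fun w : ℂ => w.im) (Complex.imCLM : ℂ →L[ℝ] ℝ) w :=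
      Complex.imCLM.hasFDerivAt
    have : HasFDerivAt (fun w : ℂ => h' w.im) (h'' • (Complex.imCLM : ℂ →L[ℝ] ℝ)) w :=
      h2.comp_hasFDerivAt w e0
    exact this.smul_const (Complex.imCLM : ℂ →L[ℝ] ℝ)
  rw [laplacian_complex, e1, e2.fderiv]
  simp

lemma hasDerivAt_logcosh (y : ℝ) :
    HasDerivAt (fun y => Real.log (Real.cosh y)) (Real.sinh y / Real.cosh y) y :=
  (Real.hasDerivAt_cosh y).log (Real.cosh_pos y).ne'

lemma hasDerivAt_tanh' (y : ℝ) :
    HasDerivAt (fun y => Real.sinh y / Real.cosh y) (1 / Real.cosh y ^ 2) y := by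
  refine ((Real.hasDerivAt_sinh y).div (Real.hasDerivAt_cosh y) (Real.cosh_pos y).ne').congr_deriv ?_
  have := Real.cosh_sq y
  congr 1
  nlinarith

lemma one_add_le_cosh (y : ℝ) : 1 + y ^ 2 / 2 ≤ Real.cosh y := by
  have h1 := Real.cosh_two_mul (y / 2)
  have h2 := Real.cosh_sq (y / 2)
  rw [show 2 * (y / 2) = y by ring] at h1
  have h3 : |y / 2| ≤ |Real.sinh (y / 2)| := by
    rw [Real.abs_sinh]
    exact Real.self_le_sinh_iff.2 (abs_nonneg _)
  have h4 := sq_le_sq.2 h3
  nlinarith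

/-- the data: `F' = b exp(cos z)`, `F(0) = 0`, `F (2π) = π`. -/
structure Dat where
  /-- the constant -/
  b : ℝ
  /-- the developing map -/
  F : ℂ → ℂ
  hb : 0 < b
  hF : ∀ z, HasDerivAt F (b * Complex.exp (Complex.cos z)) z
  h0 : F 0 = 0
  h2 : F (2 * Real.pi) = Real.pi

lemma exists_dat : Nonempty Dat := by
  have hd : Differentiable ℂ (fun z => Complex.exp (Complex.cos z)) := by fun_prop
  obtain ⟨F₀, h00, hF₀⟩ := hd.isExactOn_univ.with_val_at 0 0
  set R : ℝ := ∫ t in (0:ℝ)..(2 * Real.pi), Real.exp (Real.cos t) with hR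
  have hRpos : 0 < R := by
    apply intervalIntegral.intervalIntegral_pos_of_pos
    · exact (by fun_prop : Continuous fun t : ℝ => Real.exp (Real.cos t)).intervalIntegrable _ _
    · intro x; positivity
    · positivity
  have hval : F₀ (2 * Real.pi) = R := by
    have h1 : ∀ t ∈ uIcc (0:ℝ) (2 * Real.pi),
        HasDerivAt (fun t : ℝ => F₀ t) (Complex.exp (Complex.cos t)) t := by
      intro t _
      exact (hF₀ t (mem_univ _)).comp_ofReal
    have h2 := intervalIntegral.integral_eq_sub_of_hasDerivAt h1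
      ((by fun_prop : Continuous fun t : ℝ => Complex.exp (Complex.cos t)).intervalIntegrable _ _)
    have h3 : ∫ t in (0:ℝ)..(2 * Real.pi), Complex.exp (Complex.cos t) = (R : ℂ) := by
      rw [hR, ← intervalIntegral.integral_ofReal]
      simp
    rw [h3] at h2
    push_cast at h2
    rw [h00, sub_zero] at h2
    exact h2.symm
  refine ⟨⟨Real.pi / R, fun z => (Real.pi / R : ℝ) * F₀ z, by positivity, ?_, ?_, ?_⟩⟩
  · intro z
    exact (hF₀ z (mem_univ _)).const_mul _
  · simp [h00]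
  · rw [hval]
    have : (R : ℂ) ≠ 0 := by exact_mod_cast hRpos.ne'
    push_cast
    field_simp

namespace Dat

variable (D : Dat)

lemma const_of_deriv_zero {f : ℂ → ℂ} (h : ∀ z, HasDerivAt f 0 z) (z w : ℂ) : f z = f w :=
  is_const_of_deriv_eq_zero (fun z => (h z).differentiableAt) (fun z => (h z).deriv) z w

lemma shift (z : ℂ) : D.F (z + 2 * Real.pi) = D.F z + Real.pi := by
  have h : ∀ z, HasDerivAt (fun z => D.F (z + 2 * Real.pi) - D.F z) 0 z := by
    intro z
    have h1 := (D.hF (z + 2 * Real.pi)).comp_add_const z (2 * Real.pi)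
    have h2 := h1.sub (D.hF z)
    refine h2.congr_deriv ?_
    rw [Complex.cos_add_two_pi, sub_self]
  have := const_of_deriv_zero h z 0
  simp only [zero_add, D.h2, D.h0, sub_zero] at this
  linear_combination this

lemma shift_nat (z : ℂ) (k : ℕ) : D.F (z + 2 * Real.pi * k) = D.F z + Real.pi * k := by
  induction k with
  | zero => simp
  | succ k ih =>
    have := D.shift (z + 2 * Real.pi * k)
    rw [ih] at this
    push_cast
    rw [show z + 2 * (Real.pi : ℂ) * (k + 1) = z + 2 * Real.pi * k + 2 * Real.pi by ring, this]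
    ring

lemma at_pi : D.F Real.pi = Real.pi / 2 := by
  have h : ∀ z, HasDerivAt (fun z => D.F (2 * Real.pi - z) + D.F z) 0 z := by
    intro z
    have h1 := HasDerivAt.comp_const_sub (2 * (Real.pi : ℂ)) z (D.hF (2 * Real.pi - z))
    have h2 := h1.add (D.hF z)
    refine h2.congr_deriv ?_
    rw [show (2 * (Real.pi : ℂ) - z) = -z + 2 * Real.pi by ring, Complex.cos_add_two_pi,
      Complex.cos_neg]
    ring
  have := const_of_deriv_zero h Real.pi 0
  simp only [sub_zero, D.h2, D.h0, add_zero] at this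
  rw [show (2 * (Real.pi : ℂ) - Real.pi) = Real.pi by ring] at this
  linear_combination this / 2

/-- On the line `Re z = π` the image stays in a compact vertical segment. -/
lemma line (y : ℝ) : (D.F (Real.pi + y * Complex.I)).re = Real.pi / 2 ∧
    |(D.F (Real.pi + y * Complex.I)).im| ≤ Real.pi * D.b := by
  have hd : ∀ y : ℝ, HasDerivAt (fun y : ℝ => D.F (Real.pi + y * Complex.I))
      ((D.b * Real.exp (-Real.cosh y) : ℝ) * Complex.I) y := by
    intro y
    have h1 : HasDerivAt (fun y : ℝ => (Real.pi + y * Complex.I : ℂ)) Complex.I y := by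
      have := ((Complex.ofRealCLM.hasDerivAt (x := y)).mul_const Complex.I).const_add (Real.pi : ℂ)
      simpa using this
    have h2 := (D.hF (Real.pi + y * Complex.I)).comp y h1
    refine h2.congr_deriv ?_
    have : Complex.cos (Real.pi + y * Complex.I) = -(Real.cosh y : ℂ) := by
      rw [add_comm, Complex.cos_add_pi, Complex.cos_mul_I]
      simp
    rw [this]
    push_cast
    ring
  have hre : ∀ y : ℝ, HasDerivAt (fun y : ℝ => (D.F (Real.pi + y * Complex.I)).re) 0 y := by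
    intro y
    have := Complex.reCLM.hasFDerivAt.comp_hasDerivAt y (hd y)
    refine this.congr_deriv ?_
    simp only [Complex.reCLM_apply, Complex.re_ofReal_mul, Complex.I_re, mul_zero]
  have him : ∀ y : ℝ, HasDerivAt (fun y : ℝ => (D.F (Real.pi + y * Complex.I)).im)
      (D.b * Real.exp (-Real.cosh y)) y := by
    intro y
    have := Complex.imCLM.hasFDerivAt.comp_hasDerivAt y (hd y)
    refine this.congr_deriv ?_
    simp only [Complex.imCLM_apply, Complex.im_ofReal_mul, Complex.I_im, mul_one]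
  constructor
  · have := is_const_of_deriv_eq_zero (fun y => (hre y).differentiableAt) (fun y => (hre y).deriv) y 0
    rw [this]
    have := D.at_pi
    simp [this]
  · have hb := D.hb
    have hexp : ∀ y : ℝ, Real.exp (-Real.cosh y) ≤ 2 * (1 / (1 + y ^ 2)) := by
      intro y
      have h1 : 1 + y ^ 2 / 2 ≤ Real.cosh y := one_add_le_cosh y
      have h2 : Real.cosh y + 1 ≤ Real.exp (Real.cosh y) := Real.add_one_le_exp _
      rw [Real.exp_neg, mul_one_div, inv_le_comm₀ (Real.exp_pos _) (by positivity), inv_div]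
      nlinarith [sq_nonneg y]
    have hmono : Monotone (fun y : ℝ => D.b * (2 * Real.arctan y) -
        (D.F (Real.pi + y * Complex.I)).im) := by
      apply monotone_of_hasDerivAt_nonneg (f' := fun y => D.b * (2 * (1 / (1 + y ^ 2))) -
        D.b * Real.exp (-Real.cosh y))
      · intro y
        exact (((Real.hasDerivAt_arctan y).const_mul 2).const_mul D.b).sub (him y)
      · intro y
        have := hexp y
        have := mul_le_mul_of_nonneg_left this hb.le
        simpa using this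
    have hmono2 : Monotone (fun y : ℝ => (D.F (Real.pi + y * Complex.I)).im) := by
      apply monotone_of_hasDerivAt_nonneg (f' := fun y => D.b * Real.exp (-Real.cosh y))
      · intro y
        exact him y
      · intro y
        simp only [Pi.zero_apply]
        positivity
    have h00 : (D.F (Real.pi + (0:ℝ) * Complex.I)).im = 0 := by
      have := D.at_pi
      simp [this]
    have ha := Real.arctan_lt_pi_div_two y
    have ha' := Real.neg_pi_div_two_lt_arctan y
    rcases le_total 0 y with hy | hy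
    · have h1 := hmono hy
      have h2 := hmono2 hy
      simp only [h00] at h1 h2
      rw [abs_of_nonneg h2]
      simp only [Real.arctan_zero] at h1
      nlinarith
    · have h1 := hmono hy
      have h2 := hmono2 hy
      simp only [h00] at h1 h2
      rw [abs_of_nonpos h2]
      simp only [Real.arctan_zero] at h1
      nlinarith

/-- The solution. -/
noncomputable def u (z : ℂ) : ℝ :=
  Real.log D.b + ((Complex.cos z).re - Real.log (Real.cosh (D.F z).im))

lemma exp_u (z : ℂ) :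
    Real.exp (D.u z) = ‖(D.b : ℂ) * Complex.exp (Complex.cos z)‖ / Real.cosh (D.F z).im := by
  rw [u, Real.exp_add, Real.exp_sub, Real.exp_log D.hb, Real.exp_log (Real.cosh_pos _), norm_mul,
    Complex.norm_exp, Complex.norm_real, Real.norm_of_nonneg D.hb.le, mul_div_assoc]

lemma contDiff_F : ContDiff ℝ 2 D.F := by
  have h : Differentiable ℂ D.F := fun z => (D.hF z).differentiableAt
  exact (h.contDiff (n := 2)).restrict_scalars ℝ

lemma contDiff_u : ContDiff ℝ 2 D.u := by
  have h1 : ContDiff ℝ 2 (fun z : ℂ => (Complex.cos z).re) := by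
    have : ContDiff ℝ 2 (fun z : ℂ => Complex.cos z) :=
      (Complex.differentiable_cos.contDiff (n := 2)).restrict_scalars ℝ
    exact Complex.reCLM.contDiff.comp this
  have h2 : ContDiff ℝ 2 (fun z : ℂ => (D.F z).im) := Complex.imCLM.contDiff.comp D.contDiff_F
  have h3 : ContDiff ℝ 2 (fun z : ℂ => Real.log (Real.cosh (D.F z).im)) :=
    (h2.cosh).log fun z => (Real.cosh_pos _).ne'
  exact contDiff_const.add (h1.sub h3)

lemma laplacian_u (z : ℂ) : Δ D.u z + Real.exp (2 * D.u z) = 0 := by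
  have hF' : HasDerivAt (fun z => (D.b : ℂ) * Complex.exp (Complex.cos z))
      (deriv (fun z => (D.b : ℂ) * Complex.exp (Complex.cos z)) z) z := by
    have : Differentiable ℂ (fun z => (D.b : ℂ) * Complex.exp (Complex.cos z)) := by fun_prop
    exact (this z).hasDerivAt
  have hc : HasDerivAt (fun z => - Complex.sin z) (-Complex.cos z) z :=
    (Complex.hasDerivAt_sin z).neg
  have e1 : Δ (fun y : ℂ => (Complex.cos y).re) z = 0 := by
    have h := laplacian_comp_hol (Φ := fun w : ℂ => w.re) (F := Complex.cos)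
      (F' := fun z => - Complex.sin z) (c := -Complex.cos z) (z := z)
      (Complex.reCLM.contDiff.contDiffAt)
      (Eventually.of_forall fun y => Complex.hasDerivAt_cos y) hc
    rw [h]
    have : Δ (fun w : ℂ => w.re) (Complex.cos z) = 0 := by
      have e1 : fderiv ℝ (fun w : ℂ => w.re) = fun _ => (Complex.reCLM : ℂ →L[ℝ] ℝ) := by
        ext1 w
        exact (Complex.reCLM : ℂ →L[ℝ] ℝ).hasFDerivAt.fderiv
      rw [laplacian_complex, e1]
      simp
    rw [this, mul_zero]
  have hΦ : ContDiff ℝ 2 (fun w : ℂ => Real.log (Real.cosh w.im)) :=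
    (Complex.imCLM.contDiff.cosh).log fun z => (Real.cosh_pos _).ne'
  have e2 : Δ (fun y : ℂ => Real.log (Real.cosh (D.F y).im)) z =
      ‖(D.b : ℂ) * Complex.exp (Complex.cos z)‖ ^ 2 * (1 / Real.cosh (D.F z).im ^ 2) := by
    have h := laplacian_comp_hol (Φ := fun w : ℂ => Real.log (Real.cosh w.im)) (F := D.F)
      (z := z) hΦ.contDiffAt (Eventually.of_forall D.hF) hF'
    rw [h, laplacian_im (fun y => hasDerivAt_logcosh y) (hasDerivAt_tanh' _)]
  have h2F : ContDiff ℝ 2 (fun z : ℂ => Real.log (Real.cosh (D.F z).im)) :=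
    ((Complex.imCLM.contDiff.comp D.contDiff_F).cosh).log fun z => (Real.cosh_pos _).ne'
  have h1F : ContDiff ℝ 2 (fun z : ℂ => (Complex.cos z).re) := by
    have : ContDiff ℝ 2 (fun z : ℂ => Complex.cos z) :=
      (Complex.differentiable_cos.contDiff (n := 2)).restrict_scalars ℝ
    exact Complex.reCLM.contDiff.comp this
  have e3 : Δ D.u z = Δ (fun y : ℂ => (Complex.cos y).re) z -
      Δ (fun y : ℂ => Real.log (Real.cosh (D.F y).im)) z := by
    have : D.u = (fun _ => Real.log D.b) + ((fun y : ℂ => (Complex.cos y).re) -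
      (fun y : ℂ => Real.log (Real.cosh (D.F y).im))) := rfl
    rw [this]
    have c1 : ContDiffAt ℝ 2 (fun y : ℂ => (Complex.cos y).re) z := h1F.contDiffAt
    have c2 : ContDiffAt ℝ 2 (fun y : ℂ => Real.log (Real.cosh (D.F y).im)) z := h2F.contDiffAt
    have c3 : ContDiffAt ℝ 2 ((fun y : ℂ => (Complex.cos y).re) -
      (fun y : ℂ => Real.log (Real.cosh (D.F y).im))) z := c1.sub c2
    have c4 : ContDiffAt ℝ 2 (fun _ : ℂ => Real.log D.b) z := contDiffAt_const
    rw [ContDiffAt.laplacian_add c4 c3, c1.laplacian_sub c2]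
    simp
  rw [e3, e1, e2, two_mul, Real.exp_add, exp_u]
  have := (Real.cosh_pos (D.F z).im).ne'
  field_simp
  ring

/-- The test function. -/
noncomputable def G (z : ℂ) : ℝ := Real.sin (D.F z).re / Real.cosh (D.F z).im

lemma G_deriv {γ : ℝ → ℂ} {v : ℂ} {t : ℝ} (h : HasDerivAt γ v t) :
    ∃ g : ℝ, HasDerivAt (fun t => D.G (γ t)) g t ∧ |g| ≤ Real.exp (D.u (γ t)) * ‖v‖ := by
  set w : ℂ := D.b * Complex.exp (Complex.cos (γ t)) * v with hw
  have h1 : HasDerivAt (fun t => D.F (γ t)) w t := (D.hF (γ t)).comp t h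
  have h2 : HasDerivAt (fun t => (D.F (γ t)).re) w.re t :=
    Complex.reCLM.hasFDerivAt.comp_hasDerivAt t h1
  have h3 : HasDerivAt (fun t => (D.F (γ t)).im) w.im t :=
    Complex.imCLM.hasFDerivAt.comp_hasDerivAt t h1
  have hc := Real.cosh_pos (D.F (γ t)).im
  refine ⟨_, h2.sin.div h3.cosh hc.ne', ?_⟩
  have hn : Real.exp (D.u (γ t)) * ‖v‖ = ‖w‖ / Real.cosh (D.F (γ t)).im := by
    rw [exp_u, hw]
    simp only [norm_mul]
    ring
  rw [hn, abs_div, abs_of_pos (pow_pos hc 2), div_le_div_iff₀ (pow_pos hc 2) hc]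
  set X := (D.F (γ t)).re
  set Y := (D.F (γ t)).im
  have key : |Real.cos X * w.re * Real.cosh Y - Real.sin X * (Real.sinh Y * w.im)| ≤
      ‖w‖ * Real.cosh Y := by
    apply abs_le_of_sq_le_sq _ (by positivity)
    have e1 : ‖w‖ ^ 2 = w.re ^ 2 + w.im ^ 2 := by
      rw [← Complex.normSq_eq_norm_sq, Complex.normSq_apply]; ring
    rw [mul_pow, e1]
    have e2 := Real.cosh_sq Y
    have e3 := Real.sin_sq_add_cos_sq X
    have e4 : (Real.cos X * w.re * Real.cosh Y - Real.sin X * (Real.sinh Y * w.im)) ^ 2 +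
        (Real.sin X * w.re * Real.cosh Y + Real.cos X * (Real.sinh Y * w.im)) ^ 2 =
        w.re ^ 2 * Real.cosh Y ^ 2 + Real.sinh Y ^ 2 * w.im ^ 2 := by
      linear_combination (w.re ^ 2 * Real.cosh Y ^ 2 + Real.sinh Y ^ 2 * w.im ^ 2) * e3
    have e5 : Real.sinh Y ^ 2 * w.im ^ 2 ≤ Real.cosh Y ^ 2 * w.im ^ 2 := by
      rw [e2]; nlinarith [sq_nonneg w.im]
    nlinarith [sq_nonneg (Real.sin X * w.re * Real.cosh Y + Real.cos X * (Real.sinh Y * w.im))]
  calc |Real.cos X * w.re * Real.cosh Y - Real.sin X * (Real.sinh Y * w.im)| * Real.cosh Y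
      ≤ ‖w‖ * Real.cosh Y * Real.cosh Y := mul_le_mul_of_nonneg_right key hc.le
    _ = ‖w‖ * Real.cosh Y ^ 2 := by ring

/-- On the `k`-th line, the value of `G`. -/
lemma G_line (k : ℕ) {z : ℂ} (hz : z.re = Real.pi + 2 * Real.pi * k) :
    ∃ s : ℝ, D.G z = (-1) ^ k * s ∧ 1 / Real.cosh (Real.pi * D.b) ≤ s := by
  have h1 : z = (Real.pi + z.im * Complex.I) + 2 * Real.pi * k := by
    apply Complex.ext <;> simp [hz]
  obtain ⟨e1, e2⟩ := D.line z.im
  have h2 := D.shift_nat (Real.pi + z.im * Complex.I) k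
  rw [← h1] at h2
  refine ⟨1 / Real.cosh (D.F z).im, ?_, ?_⟩
  · have hre : (D.F z).re = Real.pi / 2 + k * Real.pi := by
      rw [h2, Complex.add_re, e1]
      simp [mul_comm]
    rw [G, hre, Real.sin_add_nat_mul_pi, Real.sin_pi_div_two]
    ring
  · have him : (D.F z).im = (D.F (Real.pi + z.im * Complex.I)).im := by
      rw [h2, Complex.add_im]
      simp
    rw [him]
    apply one_div_le_one_div_of_le (Real.cosh_pos _)
    rw [Real.cosh_le_cosh, abs_of_pos (mul_pos Real.pi_pos D.hb)]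
    exact e2

/-- the cost of one passage -/
noncomputable def δ : ℝ := 2 / Real.cosh (Real.pi * D.b)

lemma δ_pos : 0 < D.δ := by
  have := Real.cosh_pos (Real.pi * D.b)
  unfold δ; positivity

lemma G_gap (k : ℕ) {z w : ℂ} (hz : z.re = Real.pi + 2 * Real.pi * k)
    (hw : w.re = Real.pi + 2 * Real.pi * (k + 1 : ℕ)) : D.δ ≤ |D.G w - D.G z| := by
  obtain ⟨s, hs, hs'⟩ := D.G_line k hz
  obtain ⟨r, hr, hr'⟩ := D.G_line (k + 1) hw
  have hpos : 0 < 1 / Real.cosh (Real.pi * D.b) := by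
    have := Real.cosh_pos (Real.pi * D.b); positivity
  have : |D.G w - D.G z| = s + r := by
    rw [hs, hr, pow_succ]
    have : (-1 : ℝ) ^ k * -1 * r - (-1) ^ k * s = (-1) ^ (k + 1) * (s + r) := by ring
    rw [this, abs_mul, abs_pow, abs_neg, abs_one, one_pow, one_mul, abs_of_pos (by linarith)]
  rw [this, δ]
  have : 2 / Real.cosh (Real.pi * D.b) = 1 / Real.cosh (Real.pi * D.b) +
    1 / Real.cosh (Real.pi * D.b) := by ring
  linarith

/-- The speed in the metric. -/
noncomputable def sp (γ : ℝ → ℂ) (t : ℝ) : ℝ := Real.exp (D.u (γ t)) * ‖deriv γ t‖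

lemma variation {γ : ℝ → ℂ} (hc : ContinuousOn γ (Icc 0 1)) {S : Set ℝ} (hS : S.Countable)
    (hd : ∀ x ∈ Ioo (0:ℝ) 1 \ S, DifferentiableAt ℝ γ x) {s t : ℝ} (hs : 0 ≤ s) (hst : s ≤ t)
    (ht : t ≤ 1) : ENNReal.ofReal |D.G (γ t) - D.G (γ s)| ≤
      ∫⁻ τ in Ioc s t, ENNReal.ofReal (D.sp γ τ) := by
  by_cases hfin : ∫⁻ τ in Ioc s t, ENNReal.ofReal (D.sp γ τ) = ⊤
  · rw [hfin]; exact le_top
  have hcs : ContinuousOn γ (Icc s t) := hc.mono (Icc_subset_Icc hs ht)
  have hsp0 : ∀ τ, 0 ≤ D.sp γ τ := fun τ => by unfold sp; positivity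
  have hmeas : AEStronglyMeasurable (D.sp γ) (volume.restrict (Ioc s t)) := by
    refine AEStronglyMeasurable.mul ?_ (measurable_deriv γ).norm.aestronglyMeasurable
    have : ContinuousOn (fun τ => Real.exp (D.u (γ τ))) (Ioc s t) :=
      (D.contDiff_u.continuous.comp_continuousOn (hcs.mono Ioc_subset_Icc_self)).rexp
    exact this.aestronglyMeasurable measurableSet_Ioc
  have hint : IntegrableOn (D.sp γ) (Ioc s t) :=
    (lintegral_ofReal_ne_top_iff_integrable hmeas (Eventually.of_forall hsp0)).1 hfin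
  have hGc : Continuous D.G := by
    have h1 := D.contDiff_F.continuous
    unfold G
    exact (Real.continuous_sin.comp (Complex.continuous_re.comp h1)).div
      (Real.continuous_cosh.comp (Complex.continuous_im.comp h1)) fun z => (Real.cosh_pos _).ne'
  have hder : ∀ x ∈ Ioo (0:ℝ) 1 \ S, HasDerivAt (fun τ => D.G (γ τ))
      (deriv (fun τ => D.G (γ τ)) x) x ∧ |deriv (fun τ => D.G (γ τ)) x| ≤ D.sp γ x := by
    intro x hx
    obtain ⟨g, hg, hg'⟩ := D.G_deriv (hd x hx).hasDerivAt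
    rw [hg.deriv]
    exact ⟨hg, hg'⟩
  have hae : ∀ᵐ τ ∂(volume.restrict (Ioc s t)), ‖deriv (fun τ => D.G (γ τ)) τ‖ ≤ D.sp γ τ := by
    rw [ae_restrict_iff' measurableSet_Ioc]
    have h1 : ∀ᵐ τ : ℝ, τ ∉ S := by
      have := hS.measure_zero volume
      exact compl_mem_ae_iff.2 this
    have h2 : ∀ᵐ τ : ℝ, τ ∉ ({1} : Set ℝ) := by
      exact compl_mem_ae_iff.2 (by simp)
    filter_upwards [h1, h2] with τ hτ hτ2 hτ3
    rw [Real.norm_eq_abs]
    refine (hder τ ⟨⟨lt_of_le_of_lt hs hτ3.1, lt_of_le_of_ne (hτ3.2.trans ht) ?_⟩, hτ⟩).2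
    simpa using hτ2
  have hgint : IntegrableOn (deriv (fun τ => D.G (γ τ))) (Ioc s t) :=
    hint.mono' (measurable_deriv _).aestronglyMeasurable hae
  have hftc := integral_eq_of_hasDerivAt_off_countable_of_le (fun τ => D.G (γ τ))
    (deriv (fun τ => D.G (γ τ))) hst hS (hGc.comp_continuousOn hcs)
    (fun x hx => (hder x ⟨⟨lt_of_le_of_lt hs hx.1.1, lt_of_lt_of_le hx.1.2 ht⟩, hx.2⟩).1)
    ((intervalIntegrable_iff_integrableOn_Ioc_of_le hst).2 hgint)
  rw [← hftc, intervalIntegral.integral_of_le hst,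
    ← ofReal_integral_eq_lintegral_ofReal hint (Eventually.of_forall hsp0)]
  apply ENNReal.ofReal_le_ofReal
  rw [← Real.norm_eq_abs]
  exact (norm_integral_le_integral_norm _).trans (integral_mono_ae hgint.norm hint hae)

lemma passage {γ : ℝ → ℂ} (hc : ContinuousOn γ (Icc 0 1)) {S : Set ℝ} (hS : S.Countable)
    (hd : ∀ x ∈ Ioo (0:ℝ) 1 \ S, DifferentiableAt ℝ γ x) (k : ℕ)
    (h0 : (γ 0).re = Real.pi) (h1 : (γ 1).re = Real.pi + 2 * Real.pi * k) (j : ℕ) (hj : j ≤ k) :
    ∃ t ∈ Icc (0:ℝ) 1, (γ t).re = Real.pi + 2 * Real.pi * j ∧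
      (j : ENNReal) * ENNReal.ofReal D.δ ≤ ∫⁻ τ in Ioc 0 t, ENNReal.ofReal (D.sp γ τ) := by
  induction j with
  | zero => exact ⟨0, by simp, by simp [h0], by simp⟩
  | succ j ih =>
    obtain ⟨t, ht, hre, hle⟩ := ih (by omega)
    have hcre : ContinuousOn (fun t => (γ t).re) (Icc t 1) :=
      Complex.continuous_re.comp_continuousOn (hc.mono (Icc_subset_Icc_left ht.1))
    have hmem : Real.pi + 2 * Real.pi * (j + 1 : ℕ) ∈ Icc (γ t).re (γ 1).re := by
      have hjk : ((j + 1 : ℕ) : ℝ) ≤ k := by exact_mod_cast hj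
      have hpi := Real.pi_pos
      rw [hre, h1]
      constructor
      · push_cast; nlinarith
      · nlinarith
    obtain ⟨t', ht', hre'⟩ := intermediate_value_Icc ht.2 hcre hmem
    simp only at hre'
    refine ⟨t', ⟨ht.1.trans ht'.1, ht'.2⟩, hre', ?_⟩
    have hunion : Ioc 0 t' = Ioc 0 t ∪ Ioc t t' := (Ioc_union_Ioc_eq_Ioc ht.1 ht'.1).symm
    rw [hunion, lintegral_union measurableSet_Ioc (by
      rw [Set.disjoint_left]; intro x hx hx'; exact absurd hx.2 (not_le.2 hx'.1))]
    push_cast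
    rw [add_mul, one_mul]
    refine add_le_add hle ?_
    refine le_trans ?_ (D.variation hc hS hd ht.1 ht'.1 ht'.2)
    exact ENNReal.ofReal_le_ofReal (D.G_gap j hre hre')

end Dat

/-- A piecewise `C¹` curve on `[0, 1]`. -/
def PiecewiseC1 (γ : ℝ → ℂ) : Prop :=
  ContinuousOn γ (Icc 0 1) ∧ ∃ (n : ℕ) (t : ℕ → ℝ), Monotone t ∧ t 0 = 0 ∧ t n = 1 ∧
    ∀ i < n, ContDiffOn ℝ 1 γ (Icc (t i) (t (i + 1)))

lemma PiecewiseC1.diff {γ : ℝ → ℂ} (h : PiecewiseC1 γ) : ∃ S : Set ℝ, S.Countable ∧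
    ∀ x ∈ Ioo (0:ℝ) 1 \ S, DifferentiableAt ℝ γ x := by
  obtain ⟨_, n, t, hmono, h0, hn, hC⟩ := h
  refine ⟨range t, countable_range t, ?_⟩
  rintro x ⟨hx, hxS⟩
  classical
  have hex : ∃ i, x < t i := ⟨n, by rw [hn]; exact hx.2⟩
  have hi := Nat.find_spec hex
  have hmin := fun j => @Nat.find_min _ _ hex j
  set i := Nat.find hex with hidef
  have hi0 : i ≠ 0 := by
    intro h
    rw [h, h0] at hi
    exact absurd hx.1 (not_lt.2 hi.le)
  obtain ⟨j, hj⟩ := Nat.exists_eq_succ_of_ne_zero hi0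
  have hjn : j < n := by
    by_contra hcon
    have : i ≤ n := Nat.find_min' hex (by rw [hn]; exact hx.2)
    omega
  have h1 : t j ≤ x := not_lt.1 (hmin j (by omega))
  have h2 : t j < x := lt_of_le_of_ne h1 fun h => hxS ⟨j, h⟩
  have h3 : x < t (j + 1) := by rw [hj] at hi; exact hi
  exact ((hC j hjn).differentiableOn one_ne_zero).differentiableAt (Icc_mem_nhds h2 h3)

end Pool.Agent.Q174.LiouDiam
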