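import Mathlib

/-!
# Radial solutions of `Δ^m u = -e^u` in `ℝ^{2m}`: definitions
-/

set_option autoImplicit false

open MeasureTheory Filter Topology Set

namespace Pool.Agent.Q174.Poly

/-- The Laplacian of `ℝ^N` on radial functions: `Δ f = r^{1-N} (r^{N-1} f')'`. -/
noncomputable def lapR (N : ℕ) (f : ℝ → ℝ) (r : ℝ) : ℝ :=
  deriv (fun s => s ^ (N - 1) * deriv f s) r / r ^ (N - 1)

/-- `u` is the radial solution of `Δ^m u = -e^u` in `ℝ^{2m}` with `u^{(2i+1)}(0) = 0` and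
`Δ^i u (0) = a_i` for `0 ≤ i ≤ m - 1`; `u` is `C^{2m}` on the line (a profile on `[0, ∞)`, extended
evenly), the equation holds for `r > 0` and `Δ^i u (0)` is the limit of `Δ^i u (r)` as `r → 0+`. -/
def IsSolution (m : ℕ) (a : Fin m → ℝ) (u : ℝ → ℝ) : Prop :=
  ContDiff ℝ (2 * m : ℕ) u ∧ (∀ i < m, iteratedDeriv (2 * i + 1) u 0 = 0) ∧
  (∀ i : Fin m, Tendsto ((lapR (2 * m))^[i] u) (𝓝[>] 0) (𝓝 (a i))) ∧
  ∀ r, 0 < r → (lapR (2 * m))^[m] u r = - Real.exp (u r)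

/-- The volume `V = ∫_{ℝ^{2m}} e^{u(|x|)} dx ∈ [0, ∞]`. -/
noncomputable def V (m : ℕ) (u : ℝ → ℝ) : ENNReal :=
  ∫⁻ x : EuclideanSpace ℝ (Fin (2 * m)), ENNReal.ofReal (Real.exp (u ‖x‖))

end Pool.Agent.Q174.Poly
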