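import Mathlib
import Pool.Agent.Q174.PolyDefs

set_option autoImplicit false

open MeasureTheory Filter Topology Set

namespace Pool.Agent.Q174.Poly

/-! ### Monotonicity helpers on the half line -/

lemma mono_Ioi {f f' : ℝ → ℝ} (hf : ∀ r, 0 < r → HasDerivAt f (f' r) r)
    (hf' : ∀ r, 0 < r → 0 ≤ f' r) : MonotoneOn f (Ioi 0) := by
  apply monotoneOn_of_deriv_nonneg (convex_Ioi 0)
  · exact fun r hr => (hf r hr).continuousAt.continuousWithinAt
  · rw [interior_Ioi]
    exact fun r hr => (hf r hr).differentiableAt.differentiableWithinAt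
  · rw [interior_Ioi]
    intro r hr
    rw [(hf r hr).deriv]
    exact hf' r hr

lemma strictMono_Ioi {f f' : ℝ → ℝ} (hf : ∀ r, 0 < r → HasDerivAt f (f' r) r)
    (hf' : ∀ r, 0 < r → 0 < f' r) : StrictMonoOn f (Ioi 0) := by
  apply strictMonoOn_of_deriv_pos (convex_Ioi 0)
  · exact fun r hr => (hf r hr).continuousAt.continuousWithinAt
  · rw [interior_Ioi]
    intro r hr
    rw [(hf r hr).deriv]
    exact hf' r hr

/-- A function with nonnegative derivative on `(0, ∞)` stays above its limit at `0`. -/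
lemma ge_lim {f f' : ℝ → ℝ} {l : ℝ} (hf : ∀ r, 0 < r → HasDerivAt f (f' r) r)
    (hf' : ∀ r, 0 < r → 0 ≤ f' r) (hl : Tendsto f (𝓝[>] 0) (𝓝 l)) {r : ℝ} (hr : 0 < r) :
    l ≤ f r := by
  refine le_of_tendsto hl ?_
  filter_upwards [Ioo_mem_nhdsGT hr] with s hs
  exact mono_Ioi hf hf' hs.1 hr hs.2.le

lemma gt_lim {f f' : ℝ → ℝ} {l : ℝ} (hf : ∀ r, 0 < r → HasDerivAt f (f' r) r)
    (hf' : ∀ r, 0 < r → 0 < f' r) (hl : Tendsto f (𝓝[>] 0) (𝓝 l)) {r : ℝ} (hr : 0 < r) :
    l < f r := by
  have h1 := ge_lim hf (fun r hr => (hf' r hr).le) hl (half_pos hr)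
  have h2 := strictMono_Ioi hf hf' (mem_Ioi.2 (half_pos hr)) (mem_Ioi.2 hr) (half_lt_self hr)
  linarith

/-- `(r^{N-1} F')' = r^{N-1} H`, with zero flux at the origin. -/
structure IsRad (N : ℕ) (F F1 H : ℝ → ℝ) : Prop where
  hF : ∀ r, 0 < r → HasDerivAt F (F1 r) r
  hG : ∀ r, 0 < r → HasDerivAt (fun s => s ^ (N - 1) * F1 s) (r ^ (N - 1) * H r) r
  h0 : Tendsto (fun s => s ^ (N - 1) * F1 s) (𝓝[>] 0) (𝓝 0)

lemma IsRad.neg {N : ℕ} {F F1 H : ℝ → ℝ} (h : IsRad N F F1 H) :
    IsRad N (fun r => - F r) (fun r => - F1 r) (fun r => - H r) := by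
  refine ⟨fun r hr => (h.hF r hr).neg, fun r hr => ?_, ?_⟩
  · have e : (fun s => s ^ (N - 1) * -F1 s) = fun s => -(s ^ (N - 1) * F1 s) := by
      ext s; ring
    rw [e]
    refine (h.hG r hr).neg.congr_deriv (by ring)
  · have := h.h0.neg
    rw [neg_zero] at this
    refine this.congr fun s => ?_
    ring

lemma IsRad.sub {N : ℕ} {F F1 H K K1 L : ℝ → ℝ} (h : IsRad N F F1 H) (k : IsRad N K K1 L) :
    IsRad N (fun r => F r - K r) (fun r => F1 r - K1 r) (fun r => H r - L r) := by
  refine ⟨fun r hr => (h.hF r hr).sub (k.hF r hr), fun r hr => ?_, ?_⟩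
  · have e : (fun s => s ^ (N - 1) * (F1 s - K1 s)) =
        fun s => (s ^ (N - 1) * F1 s) - (s ^ (N - 1) * K1 s) := by
      ext s; ring
    rw [e]
    refine ((h.hG r hr).sub (k.hG r hr)).congr_deriv (by ring)
  · have := h.h0.sub k.h0
    rw [sub_zero] at this
    refine this.congr fun s => ?_
    ring

lemma IsRad.congr {N : ℕ} {F F1 H H' : ℝ → ℝ} (h : IsRad N F F1 H)
    (hH : ∀ r, 0 < r → H r = H' r) : IsRad N F F1 H' := by
  refine ⟨h.hF, fun r hr => ?_, h.h0⟩
  rw [← hH r hr]; exact h.hG r hr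

/-- The derivative is nonnegative when the right-hand side is. -/
lemma IsRad.deriv_nonneg {N : ℕ} {F F1 H : ℝ → ℝ} (h : IsRad N F F1 H)
    (hH : ∀ r, 0 < r → 0 ≤ H r) {r : ℝ} (hr : 0 < r) : 0 ≤ F1 r := by
  have := ge_lim h.hG (fun r hr => mul_nonneg (pow_nonneg hr.le _) (hH r hr)) h.h0 hr
  exact nonneg_of_mul_nonneg_right this (pow_pos hr _)

lemma IsRad.deriv_pos {N : ℕ} {F F1 H : ℝ → ℝ} (h : IsRad N F F1 H)
    (hH : ∀ r, 0 < r → 0 < H r) {r : ℝ} (hr : 0 < r) : 0 < F1 r := by
  have := gt_lim h.hG (fun r hr => mul_pos (pow_pos hr _) (hH r hr)) h.h0 hr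
  exact (mul_pos_iff_of_pos_left (pow_pos hr _)).1 this

lemma IsRad.strictMono {N : ℕ} {F F1 H : ℝ → ℝ} (h : IsRad N F F1 H)
    (hH : ∀ r, 0 < r → 0 < H r) : StrictMonoOn F (Ioi 0) :=
  strictMono_Ioi h.hF fun _ hr => h.deriv_pos hH hr

/-- Comparison. -/
lemma IsRad.ge {N : ℕ} {F F1 H : ℝ → ℝ} {l : ℝ} (h : IsRad N F F1 H)
    (hH : ∀ r, 0 < r → 0 ≤ H r) (hl : Tendsto F (𝓝[>] 0) (𝓝 l)) {r : ℝ} (hr : 0 < r) : l ≤ F r :=
  ge_lim h.hF (fun _ hr => h.deriv_nonneg hH hr) hl hr

/-- Powers: `Δ r^{2j+2} = (2j+2)(2j+N) r^{2j}`. -/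
lemma isRad_pow (N j : ℕ) (hN : 1 ≤ N) (c : ℝ) :
    IsRad N (fun r => c * r ^ (2 * j + 2)) (fun r => c * ((2 * j + 2 : ℕ) * r ^ (2 * j + 1)))
      (fun r => c * ((2 * j + 2 : ℕ) * (2 * j + N : ℕ)) * r ^ (2 * j)) := by
  refine ⟨fun r _ => ?_, fun r _ => ?_, ?_⟩
  · have := (hasDerivAt_pow (2 * j + 2) r).const_mul c
    simpa using this
  · have e : (fun s : ℝ => s ^ (N - 1) * (c * ((2 * j + 2 : ℕ) * s ^ (2 * j + 1)))) =
        fun s => c * (2 * j + 2 : ℕ) * s ^ (2 * j + N) := by
      ext s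
      have : 2 * j + N = (N - 1) + (2 * j + 1) := by omega
      rw [this, pow_add]
      ring
    rw [e]
    refine ((hasDerivAt_pow (2 * j + N) r).const_mul _).congr_deriv ?_
    have : 2 * j + N - 1 = (N - 1) + 2 * j := by omega
    rw [this, pow_add]
    ring
  · have e : (fun s : ℝ => s ^ (N - 1) * (c * ((2 * j + 2 : ℕ) * s ^ (2 * j + 1)))) =
        fun s => c * (2 * j + 2 : ℕ) * s ^ (2 * j + N) := by
      ext s
      have : 2 * j + N = (N - 1) + (2 * j + 1) := by omega
      rw [this, pow_add]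
      ring
    rw [e]
    have hc : Continuous fun s : ℝ => c * (2 * j + 2 : ℕ) * s ^ (2 * j + N) := by fun_prop
    have := hc.tendsto 0
    rw [zero_pow (by omega), mul_zero] at this
    exact this.mono_left nhdsWithin_le_nhds

/-- Quadratic decay when the right-hand side is eventually below a negative constant. -/
lemma IsRad.drop {N : ℕ} (hN : 1 ≤ N) {F F1 H : ℝ → ℝ} (h : IsRad N F F1 H)
    (hH : ∃ c : ℝ, 0 < c ∧ ∀ᶠ r in atTop, H r ≤ -c) :
    ∃ c C : ℝ, 0 < c ∧ ∀ᶠ r in atTop, F r ≤ C - c * r ^ 2 := by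
  obtain ⟨c, hc, hev⟩ := hH
  obtain ⟨R₀, hR₀⟩ := eventually_atTop.1 hev
  set R := max R₀ 1 with hR
  have hR1 : 1 ≤ R := le_max_right _ _
  have hRH : ∀ r, R ≤ r → H r ≤ -c := fun r hr => hR₀ r ((le_max_left _ _).trans hr)
  have hNr : (0:ℝ) < N := by exact_mod_cast hN
  -- the flux
  have hflux : ∀ r, R ≤ r → r ^ (N - 1) * F1 r + c / N * r ^ N ≤
      R ^ (N - 1) * F1 R + c / N * R ^ N := by
    have hanti : AntitoneOn (fun r => r ^ (N - 1) * F1 r + c / N * r ^ N) (Ici R) := by
      have hd : ∀ r, R ≤ r → HasDerivAt (fun r => r ^ (N - 1) * F1 r + c / N * r ^ N)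
          (r ^ (N - 1) * H r + c / N * (N * r ^ (N - 1))) r := fun r hr =>
        (h.hG r (by linarith)).add ((hasDerivAt_pow N r).const_mul _)
      apply antitoneOn_of_deriv_nonpos (convex_Ici R)
      · exact fun r hr => (hd r hr).continuousAt.continuousWithinAt
      · exact fun r hr => (hd r (interior_subset hr)).differentiableAt.differentiableWithinAt
      · intro r hr
        have hr' : R ≤ r := interior_subset hr
        rw [(hd r hr').deriv]
        have h1 := hRH r hr'
        have h2 : 0 < r ^ (N - 1) := pow_pos (by linarith) _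
        have h3 : c / N * (N * r ^ (N - 1)) = c * r ^ (N - 1) := by field_simp
        rw [h3]
        nlinarith
    intro r hr
    exact hanti (mem_Ici.2 le_rfl) (mem_Ici.2 hr) hr
  set B := |R ^ (N - 1) * F1 R + c / N * R ^ N| with hB
  have hB0 : 0 ≤ B := abs_nonneg _
  have hF1 : ∀ r, R ≤ r → F1 r ≤ B - c / N * r := by
    intro r hr
    have h1 := hflux r hr
    have hr1 : 1 ≤ r := hR1.trans hr
    have hp : 1 ≤ r ^ (N - 1) := one_le_pow₀ hr1
    have hp0 : 0 < r ^ (N - 1) := by linarith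
    have h2 : r ^ N = r ^ (N - 1) * r := by
      rw [← pow_succ]; congr 1; omega
    have h3 : R ^ (N - 1) * F1 R + c / N * R ^ N ≤ B := le_abs_self _
    have h4 : r ^ (N - 1) * F1 r ≤ r ^ (N - 1) * (B - c / N * r) := by
      have : B ≤ r ^ (N - 1) * B := by nlinarith
      rw [h2] at h1
      nlinarith
    exact le_of_mul_le_mul_left h4 hp0
  have hF : ∀ r, R ≤ r → F r - B * r + c / (2 * N) * r ^ 2 ≤
      F R - B * R + c / (2 * N) * R ^ 2 := by
    have hanti : AntitoneOn (fun r => F r - B * r + c / (2 * N) * r ^ 2) (Ici R) := by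
      have hd : ∀ r, R ≤ r → HasDerivAt (fun r => F r - B * r + c / (2 * N) * r ^ 2)
          (F1 r - B * 1 + c / (2 * N) * (2 * r)) r := fun r hr => by
        have := ((h.hF r (by linarith)).sub ((hasDerivAt_id r).const_mul B)).add
          ((hasDerivAt_pow 2 r).const_mul (c / (2 * N)))
        refine this.congr_deriv ?_
        push_cast
        ring
      apply antitoneOn_of_deriv_nonpos (convex_Ici R)
      · exact fun r hr => (hd r hr).continuousAt.continuousWithinAt
      · exact fun r hr => (hd r (interior_subset hr)).differentiableAt.differentiableWithinAt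
      · intro r hr
        have hr' : R ≤ r := interior_subset hr
        rw [(hd r hr').deriv]
        have h1 := hF1 r hr'
        have h3 : c / (2 * N) * (2 * r) = c / N * r := by field_simp
        rw [h3]
        linarith
    intro r hr
    exact hanti (mem_Ici.2 le_rfl) (mem_Ici.2 hr) hr
  refine ⟨c / (4 * N), F R - B * R + c / (2 * N) * R ^ 2 + B ^ 2 * N / c, by positivity, ?_⟩
  filter_upwards [eventually_ge_atTop R] with r hr
  have h1 := hF r hr
  have h2 : B * r ≤ c / (4 * N) * r ^ 2 + B ^ 2 * N / c := by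
    have : 0 ≤ (c / (2 * N) * r - B) ^ 2 * (N / c) := by positivity
    have e : (c / (2 * N) * r - B) ^ 2 * (N / c) = c / (4 * N) * r ^ 2 + B ^ 2 * N / c - B * r := by
      field_simp
      ring
    linarith
  have h3 : c / (2 * N) * r ^ 2 = c / (4 * N) * r ^ 2 + c / (4 * N) * r ^ 2 := by
    field_simp; ring
  linarith

lemma IsRad.drop' {N : ℕ} (hN : 1 ≤ N) {F F1 H : ℝ → ℝ} (h : IsRad N F F1 H)
    (hH : ∃ c : ℝ, 0 < c ∧ ∀ᶠ r in atTop, H r ≤ -c) :
    ∃ c : ℝ, 0 < c ∧ ∀ᶠ r in atTop, F r ≤ -c := by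
  obtain ⟨c, C, hc, hev⟩ := h.drop hN hH
  refine ⟨1, one_pos, ?_⟩
  have : Tendsto (fun r : ℝ => C - c * r ^ 2) atTop atBot := by
    apply tendsto_atBot_add_const_left
    apply tendsto_neg_atTop_atBot.comp
    exact (tendsto_pow_atTop (by norm_num)).const_mul_atTop hc
  filter_upwards [hev, this.eventually (eventually_le_atBot (-1))] with r h1 h2
  exact h1.trans h2

/-- The flux at the origin vanishes when `F` has a limit and `H` is bounded there. -/
lemma flux_zero {N : ℕ} (hN : 2 ≤ N) {F F1 H : ℝ → ℝ}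
    (hF : ∀ r, 0 < r → HasDerivAt F (F1 r) r)
    (hG : ∀ r, 0 < r → HasDerivAt (fun s => s ^ (N - 1) * F1 s) (r ^ (N - 1) * H r) r)
    {a b : ℝ} (ha : Tendsto F (𝓝[>] 0) (𝓝 a)) (hb : Tendsto H (𝓝[>] 0) (𝓝 b)) :
    Tendsto (fun s => s ^ (N - 1) * F1 s) (𝓝[>] 0) (𝓝 0) := by
  set C := |b| + 1 with hC
  have hC0 : 0 < C := by positivity
  have hbd : ∀ᶠ r in 𝓝[>] (0:ℝ), |H r| ≤ C := by
    have := hb.abs.eventually (gt_mem_nhds (show |b| < C by simp only [hC]; linarith))
    filter_upwards [this] with r hr using hr.le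
  obtain ⟨δ, hδ, hδ'⟩ := mem_nhdsGT_iff_exists_Ioo_subset.1 hbd
  have hδ0 : (0:ℝ) < δ := hδ
  set r0 := min δ 1 with hr0
  have hr00 : 0 < r0 := lt_min hδ0 one_pos
  have hHb : ∀ r, 0 < r → r < r0 → |H r| ≤ C := fun r h1 h2 =>
    hδ' ⟨h1, h2.trans_le (min_le_left _ _)⟩
  -- one-sided estimate
  have one : ∀ (K K1 L : ℝ → ℝ) (k : ℝ), (∀ r, 0 < r → HasDerivAt K (K1 r) r) →
      (∀ r, 0 < r → HasDerivAt (fun s => s ^ (N - 1) * K1 s) (r ^ (N - 1) * L r) r) →
      Tendsto K (𝓝[>] 0) (𝓝 k) → (∀ r, 0 < r → r < r0 → |L r| ≤ C) →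
      ∀ r, 0 < r → r < r0 → r ^ (N - 1) * K1 r ≤ C * r := by
    intro K K1 L k hK hKG hk hLb r hr hrr
    by_contra hcon
    have hcon := not_le.1 hcon
    set η := r ^ (N - 1) * K1 r - C * r with hη
    have hη0 : 0 < η := by simp only [hη]; linarith
    have hr1 : r < 1 := hrr.trans_le (min_le_right _ _)
    have hlow : ∀ s, 0 < s → s ≤ r → η ≤ s ^ (N - 1) * K1 s := by
      intro s hs hsr
      have hmono : AntitoneOn (fun t => s ^ (N - 1) * K1 s * 0 + (C * t - t ^ (N - 1) * K1 t) * (-1))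
          (Icc s r) := by
        have hd : ∀ t ∈ Icc s r, HasDerivAt
            (fun t => s ^ (N - 1) * K1 s * 0 + (C * t - t ^ (N - 1) * K1 t) * (-1))
            ((C * 1 - t ^ (N - 1) * L t) * (-1)) t := fun t ht =>
          ((((hasDerivAt_id t).const_mul C).sub (hKG t (hs.trans_le ht.1))).mul_const (-1)).const_add _
        apply antitoneOn_of_deriv_nonpos (convex_Icc s r)
        · exact fun t ht => (hd t ht).continuousAt.continuousWithinAt
        · exact fun t ht => (hd t (interior_subset ht)).differentiableAt.differentiableWithinAt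
        · intro t ht
          have ht' := interior_subset ht
          rw [(hd t ht').deriv]
          have ht0 : 0 < t := hs.trans_le ht'.1
          have h1 := hLb t ht0 (ht'.2.trans_lt hrr)
          have h2 : t ^ (N - 1) ≤ 1 := pow_le_one₀ ht0.le (ht'.2.trans hr1.le)
          have h3 : 0 ≤ t ^ (N - 1) := pow_nonneg ht0.le _
          have h4 := (abs_le.1 h1).2
          nlinarith
      have := hmono (left_mem_Icc.2 hsr) (right_mem_Icc.2 hsr) hsr
      simp only at this
      have hCs : 0 < C * s := by positivity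
      simp only [hη]
      linarith
    -- logarithmic blow-up
    have hlog : ∀ s, 0 < s → s ≤ r → K s ≤ K r + η * Real.log s - η * Real.log r := by
      intro s hs hsr
      have hmono : MonotoneOn (fun t => K t - η * Real.log t) (Icc s r) := by
        have hd : ∀ t ∈ Icc s r, HasDerivAt (fun t => K t - η * Real.log t) (K1 t - η * t⁻¹) t :=
          fun t ht => (hK t (hs.trans_le ht.1)).sub
            ((Real.hasDerivAt_log (hs.trans_le ht.1).ne').const_mul η)
        apply monotoneOn_of_deriv_nonneg (convex_Icc s r)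
        · exact fun t ht => (hd t ht).continuousAt.continuousWithinAt
        · exact fun t ht => (hd t (interior_subset ht)).differentiableAt.differentiableWithinAt
        · intro t ht
          have ht' := interior_subset ht
          have ht0 : 0 < t := hs.trans_le ht'.1
          rw [(hd t ht').deriv]
          have h1 := hlow t ht0 ht'.2
          have h2 : t ^ (N - 1) ≤ t := by
            have := pow_le_pow_of_le_one ht0.le (ht'.2.trans hr1.le) (show 1 ≤ N - 1 by omega)
            simpa using this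
          have hK1 : 0 < K1 t := by
            have := hη0.trans_le h1
            exact (mul_pos_iff_of_pos_left (pow_pos ht0 _)).1 this
          have h3 : η ≤ t * K1 t := h1.trans (mul_le_mul_of_nonneg_right h2 hK1.le)
          rw [sub_nonneg, ← div_eq_mul_inv, div_le_iff₀ ht0]
          linarith
      have := hmono (left_mem_Icc.2 hsr) (right_mem_Icc.2 hsr) hsr
      simp only at this
      linarith
    have hbot : Tendsto (fun s => K r + η * Real.log s - η * Real.log r) (𝓝[>] 0) atBot := by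
      have h1 : Tendsto (fun s => η * Real.log s) (𝓝[>] 0) atBot :=
        Real.tendsto_log_nhdsGT_zero.const_mul_atBot hη0
      have h2 := (tendsto_atBot_add_const_left (𝓝[>] 0) (K r) h1)
      exact tendsto_atBot_add_const_right _ _ h2
    have hKbot : Tendsto K (𝓝[>] 0) atBot := by
      refine tendsto_atBot_mono' _ ?_ hbot
      filter_upwards [Ioo_mem_nhdsGT hr] with s hs
      exact hlog s hs.1 hs.2.le
    exact not_tendsto_nhds_of_tendsto_atBot hKbot k hk
  have up := one F F1 H a hF hG ha hHb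
  have dn := one (fun r => -F r) (fun r => -F1 r) (fun r => -H r) (-a) (fun r hr => (hF r hr).neg)
    (fun r hr => by
      have e : (fun s => s ^ (N - 1) * -F1 s) = fun s => -(s ^ (N - 1) * F1 s) := by
        ext s; ring
      rw [e]
      exact (hG r hr).neg.congr_deriv (by ring)) ha.neg
    (fun r h1 h2 => by rw [abs_neg]; exact hHb r h1 h2)
  have hlim : Tendsto (fun s : ℝ => C * s) (𝓝[>] 0) (𝓝 0) := by
    have : Continuous fun s : ℝ => C * s := by fun_prop
    have := this.tendsto 0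
    rw [mul_zero] at this
    exact this.mono_left nhdsWithin_le_nhds
  have hlim2 : Tendsto (fun s : ℝ => -(C * s)) (𝓝[>] 0) (𝓝 0) := by
    have := hlim.neg
    rwa [neg_zero] at this
  refine tendsto_of_tendsto_of_tendsto_of_le_of_le' hlim2 hlim ?_ ?_
  · filter_upwards [Ioo_mem_nhdsGT hr00] with s hs
    have := dn s hs.1 hs.2
    linarith
  · filter_upwards [Ioo_mem_nhdsGT hr00] with s hs
    exact up s hs.1 hs.2

end Pool.Agent.Q174.Poly
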