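import Mathlib
import Pool.Agent.Q174.PolyRad

set_option autoImplicit false

open MeasureTheory Filter Topology Set

namespace Pool.Agent.Q174.Poly

lemma contDiffOn_lapR {N k : ℕ} {f : ℝ → ℝ} (hf : ContDiffOn ℝ ((k + 2 : ℕ) : WithTop ℕ∞) f (Ioi 0)) :
    ContDiffOn ℝ (k : WithTop ℕ∞) (lapR N f) (Ioi 0) := by
  have h1 : ContDiffOn ℝ ((k + 1 : ℕ) : WithTop ℕ∞) (deriv f) (Ioi 0) :=
    hf.deriv_of_isOpen isOpen_Ioi (by norm_cast)
  have h2 : ContDiffOn ℝ ((k + 1 : ℕ) : WithTop ℕ∞) (fun s => s ^ (N - 1) * deriv f s) (Ioi 0) :=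
    (contDiffOn_id.pow (N - 1)).mul h1
  have h3 : ContDiffOn ℝ (k : WithTop ℕ∞) (deriv fun s => s ^ (N - 1) * deriv f s) (Ioi 0) :=
    h2.deriv_of_isOpen isOpen_Ioi (by norm_cast)
  exact h3.div (contDiffOn_id.pow (N - 1)) fun x hx => pow_ne_zero _ (ne_of_gt hx)

variable {m : ℕ} {a : Fin m → ℝ} {u : ℝ → ℝ}

/-- The iterated Laplacians. -/
noncomputable def fk (m : ℕ) (u : ℝ → ℝ) (k : ℕ) : ℝ → ℝ := (lapR (2 * m))^[k] u

lemma fk_zero : fk m u 0 = u := rfl

lemma fk_succ (k : ℕ) : fk m u (k + 1) = lapR (2 * m) (fk m u k) := by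
  rw [fk, Function.iterate_succ_apply', fk]

lemma contDiffOn_fk (h : IsSolution m a u) (k : ℕ) (hk : k ≤ m) :
    ContDiffOn ℝ ((2 * (m - k) : ℕ) : WithTop ℕ∞) (fk m u k) (Ioi 0) := by
  induction k with
  | zero => exact h.1.contDiffOn
  | succ k ih =>
    have h1 := ih (by omega)
    rw [fk_succ]
    apply contDiffOn_lapR
    have : 2 * (m - (k + 1)) + 2 = 2 * (m - k) := by omega
    rw [this]; exact h1

lemma isRad_chain (h : IsSolution m a u) (i : ℕ) (hi : i < m) :
    IsRad (2 * m) (fk m u i) (deriv (fk m u i)) (fk m u (i + 1)) := by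
  have hc := contDiffOn_fk h i hi.le
  have hc2 : ContDiffOn ℝ ((0 + 2 : ℕ) : WithTop ℕ∞) (fk m u i) (Ioi 0) :=
    hc.of_le (by norm_cast; omega)
  have hF : ∀ r, 0 < r → HasDerivAt (fk m u i) (deriv (fk m u i) r) r := fun r hr =>
    ((hc2.differentiableOn (by norm_num)).differentiableAt (Ioi_mem_nhds hr)).hasDerivAt
  have h1 : ContDiffOn ℝ ((1 : ℕ) : WithTop ℕ∞) (deriv (fk m u i)) (Ioi 0) :=
    hc2.deriv_of_isOpen isOpen_Ioi (by norm_cast)
  have h2 : ContDiffOn ℝ ((1 : ℕ) : WithTop ℕ∞) (fun s => s ^ (2 * m - 1) * deriv (fk m u i) s)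
    (Ioi 0) := (contDiffOn_id.pow _).mul h1
  have hG : ∀ r, 0 < r → HasDerivAt (fun s => s ^ (2 * m - 1) * deriv (fk m u i) s)
      (r ^ (2 * m - 1) * fk m u (i + 1) r) r := by
    intro r hr
    have h3 := ((h2.differentiableOn (by norm_num)).differentiableAt (Ioi_mem_nhds hr)).hasDerivAt
    refine h3.congr_deriv ?_
    rw [fk_succ, lapR]
    have : r ^ (2 * m - 1) ≠ 0 := pow_ne_zero _ hr.ne'
    field_simp
  refine ⟨hF, hG, ?_⟩
  have hlim : ∃ b, Tendsto (fk m u (i + 1)) (𝓝[>] 0) (𝓝 b) := by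
    by_cases hi' : i + 1 < m
    · exact ⟨_, h.2.2.1 ⟨i + 1, hi'⟩⟩
    · have him : i + 1 = m := by omega
      refine ⟨-Real.exp (u 0), ?_⟩
      have hcu : Continuous u := h.1.continuous
      have h4 : Tendsto (fun r => -Real.exp (u r)) (𝓝[>] 0) (𝓝 (-Real.exp (u 0))) :=
        ((Real.continuous_exp.comp hcu).neg.tendsto 0).mono_left nhdsWithin_le_nhds
      refine h4.congr' ?_
      filter_upwards [self_mem_nhdsWithin] with r hr
      rw [him, fk, h.2.2.2 r hr]
  obtain ⟨b, hb⟩ := hlim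
  exact flux_zero (by omega) hF hG (h.2.2.1 ⟨i, hi⟩) hb

lemma fk_m (h : IsSolution m a u) {r : ℝ} (hr : 0 < r) : fk m u m r = -Real.exp (u r) :=
  h.2.2.2 r hr

/-- `f_k` is eventually below a negative constant. -/
def Dn (m : ℕ) (u : ℝ → ℝ) (k : ℕ) : Prop := ∃ c : ℝ, 0 < c ∧ ∀ᶠ r in atTop, fk m u k r ≤ -c

/-- `f_k` is eventually above a positive constant. -/
def Up (m : ℕ) (u : ℝ → ℝ) (k : ℕ) : Prop := ∃ c : ℝ, 0 < c ∧ ∀ᶠ r in atTop, c ≤ fk m u k r

lemma Dn.one (h : IsSolution m a u) {k : ℕ} (hk1 : 1 ≤ k) (hkm : k ≤ m) (hd : Dn m u k) :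
    Dn m u 1 := by
  induction k, hk1 using Nat.le_induction with
  | base => exact hd
  | succ k hk ih =>
    exact ih (by omega) ((isRad_chain h k (by omega)).drop' (by omega) hd)

lemma Dn.quad (h : IsSolution m a u) {k : ℕ} (hk1 : 1 ≤ k) (hkm : k ≤ m) (hd : Dn m u k) :
    ∃ c C : ℝ, 0 < c ∧ ∀ᶠ r in atTop, u r ≤ C - c * r ^ 2 :=
  (isRad_chain h 0 (by omega)).drop (by omega) (hd.one h hk1 hkm)

lemma Up.one (h : IsSolution m a u) {k : ℕ} (hk1 : 1 ≤ k) (hkm : k ≤ m) (hd : Up m u k) :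
    Up m u 1 := by
  induction k, hk1 using Nat.le_induction with
  | base => exact hd
  | succ k hk ih =>
    obtain ⟨c, hc, hev⟩ := hd
    obtain ⟨c', hc', hev'⟩ := (isRad_chain h k (by omega)).neg.drop' (by omega) ⟨c, hc, by
      filter_upwards [hev] with r hr using neg_le_neg hr⟩
    refine ih (by omega) ⟨c', hc', ?_⟩
    filter_upwards [hev'] with r hr
    linarith

lemma Up.quad (h : IsSolution m a u) {k : ℕ} (hk1 : 1 ≤ k) (hkm : k ≤ m) (hd : Up m u k) :
    ∃ c C : ℝ, 0 < c ∧ ∀ᶠ r in atTop, c * r ^ 2 - C ≤ u r := by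
  obtain ⟨c, hc, hev⟩ := hd.one h hk1 hkm
  obtain ⟨c', C', hc', hev'⟩ := (isRad_chain h 0 (by omega)).neg.drop (by omega) ⟨c, hc, by
    filter_upwards [hev] with r hr using neg_le_neg hr⟩
  refine ⟨c', C', hc', ?_⟩
  filter_upwards [hev'] with r hr
  have : fk m u 0 r = u r := rfl
  linarith

lemma tendsto_quad_top {c C : ℝ} (hc : 0 < c) : Tendsto (fun r : ℝ => c * r ^ 2 - C) atTop atTop := by
  apply tendsto_atTop_add_const_right
  exact (tendsto_pow_atTop (by norm_num)).const_mul_atTop hc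

lemma Up.false (h : IsSolution m a u) {k : ℕ} (hk1 : 1 ≤ k) (hkm : k ≤ m) (hd : Up m u k) :
    False := by
  obtain ⟨c, C, hc, hev⟩ := hd.quad h hk1 hkm
  have h1 : ∀ᶠ r in atTop, 0 ≤ u r := by
    filter_upwards [hev, (tendsto_quad_top (C := C) hc).eventually (eventually_ge_atTop 0)] with r h1 h2
    linarith
  have h2 : Dn m u m := by
    refine ⟨1, one_pos, ?_⟩
    filter_upwards [h1, eventually_gt_atTop 0] with r hr hr0
    rw [fk_m h hr0]
    have := Real.one_le_exp hr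
    linarith
  obtain ⟨c', C', hc', hev'⟩ := h2.quad h (hk1.trans hkm) le_rfl
  have h3 : ∀ᶠ r in atTop, u r ≤ -1 := by
    filter_upwards [hev', (tendsto_quad_top (C := C') hc').eventually (eventually_ge_atTop 1)] with r h1 h2
    linarith
  obtain ⟨r, hr1, hr2⟩ := (h1.and h3).exists
  linarith

/-- The radial integrability criterion. -/
lemma integrableOn_of_log {N : ℕ} (hN : 1 ≤ N) (hu : Continuous u)
    (hd : ∃ C : ℝ, ∀ᶠ r in atTop, u r + (N + 1) * Real.log r ≤ C) :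
    IntegrableOn (fun y => y ^ (N - 1) * Real.exp (u y)) (Ioi 0) := by
  obtain ⟨C, hC⟩ := hd
  obtain ⟨R₀, hR₀⟩ := eventually_atTop.1 hC
  set R := max R₀ 1 with hR
  have hR1 : 1 ≤ R := le_max_right _ _
  have hcont : Continuous (fun y => y ^ (N - 1) * Real.exp (u y)) := by fun_prop
  have hsplit : Ioi (0:ℝ) = Ioc 0 R ∪ Ioi R := (Ioc_union_Ioi_eq_Ioi (by linarith)).symm
  rw [hsplit]
  refine IntegrableOn.union ?_ ?_
  · exact (hcont.integrableOn_Icc (a := 0) (b := R)).mono_set Ioc_subset_Icc_self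
  · have h1 : IntegrableOn (fun y : ℝ => Real.exp C * y ^ (-2 : ℝ)) (Ioi R) :=
      (integrableOn_Ioi_rpow_of_lt (by norm_num) (by linarith)).const_mul _
    refine h1.mono' hcont.aestronglyMeasurable ?_
    rw [ae_restrict_iff' measurableSet_Ioi]
    refine Eventually.of_forall fun y hy => ?_
    have hy' : R < y := hy
    have hy0 : 0 < y := by linarith
    have h2 := hR₀ y ((le_max_left _ _).trans hy'.le)
    rw [Real.norm_of_nonneg (by positivity)]
    have h3 : Real.exp (u y) ≤ Real.exp C * Real.exp (-((N + 1) * Real.log y)) := by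
      rw [← Real.exp_add]
      apply Real.exp_le_exp.2
      linarith
    have h4 : Real.exp (-((N + 1) * Real.log y)) = y ^ (-2 : ℝ) / y ^ (N - 1) := by
      have e1 : -((N + 1) * Real.log y) = Real.log y * (-((N:ℝ) + 1)) := by ring
      rw [e1, ← Real.rpow_def_of_pos hy0, eq_div_iff (pow_ne_zero _ hy0.ne'), ← Real.rpow_natCast,
        ← Real.rpow_add hy0]
      congr 1
      rw [Nat.cast_sub hN]
      push_cast
      ring
    rw [h4] at h3
    calc y ^ (N - 1) * Real.exp (u y) ≤ y ^ (N - 1) * (Real.exp C * (y ^ (-2 : ℝ) / y ^ (N - 1))) :=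
          mul_le_mul_of_nonneg_left h3 (by positivity)
      _ = _ := by
        have := pow_ne_zero (N - 1) hy0.ne'
        field_simp

lemma log_of_quad {N : ℕ} (hd : ∃ c C : ℝ, 0 < c ∧ ∀ᶠ r in atTop, u r ≤ C - c * r ^ 2) :
    ∃ C : ℝ, ∀ᶠ r in atTop, u r + (N + 1) * Real.log r ≤ C := by
  obtain ⟨c, C, hc, hev⟩ := hd
  refine ⟨C + ((N:ℝ) + 1) ^ 2 / (4 * c), ?_⟩
  filter_upwards [hev, eventually_gt_atTop 0] with r hr hr0
  have h1 : Real.log r ≤ r := (Real.log_le_sub_one_of_pos hr0).trans (by linarith)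
  have h2 : ((N:ℝ) + 1) * Real.log r ≤ (N + 1) * r := mul_le_mul_of_nonneg_left h1 (by positivity)
  have h3 : ((N:ℝ) + 1) * r ≤ c * r ^ 2 + ((N:ℝ) + 1) ^ 2 / (4 * c) := by
    have : 0 ≤ (2 * c * r - (N + 1)) ^ 2 / (4 * c) := by positivity
    have e : (2 * c * r - (N + 1)) ^ 2 / (4 * c) = c * r ^ 2 + ((N:ℝ) + 1) ^ 2 / (4 * c) - (N + 1) * r := by
      field_simp
      ring
    linarith
  linarith

lemma V_lt_top_iff (hm : 1 ≤ m) (hu : Continuous u) :
    V m u < ⊤ ↔ IntegrableOn (fun y => y ^ (2 * m - 1) * Real.exp (u y)) (Ioi 0) := by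
  have : Nonempty (Fin (2 * m)) := ⟨⟨0, by omega⟩⟩
  have h1 := integrable_fun_norm_addHaar (volume : Measure (EuclideanSpace ℝ (Fin (2 * m))))
    (f := fun t => Real.exp (u t))
  simp only [finrank_euclideanSpace, Fintype.card_fin, smul_eq_mul] at h1
  rw [← h1, V]
  have hmeas : AEStronglyMeasurable (fun x : EuclideanSpace ℝ (Fin (2 * m)) => Real.exp (u ‖x‖)) volume :=
    (by fun_prop : Continuous fun x : EuclideanSpace ℝ (Fin (2 * m)) => Real.exp (u ‖x‖)).aestronglyMeasurable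
  rw [← lintegral_ofReal_ne_top_iff_integrable hmeas (Eventually.of_forall fun x => (Real.exp_pos _).le),
    lt_top_iff_ne_top]

/-- If the volume is infinite then no `f_k`, `1 ≤ k ≤ m`, is eventually negative. -/
lemma not_Dn (h : IsSolution m a u) (hm : 1 ≤ m) (hV : ¬ V m u < ⊤) {k : ℕ} (hk1 : 1 ≤ k)
    (hkm : k ≤ m) : ¬ Dn m u k := fun hd =>
  hV ((V_lt_top_iff hm h.1.continuous).2
    (integrableOn_of_log (by omega) h.1.continuous (log_of_quad (hd.quad h hk1 hkm))))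

lemma neg_or_up {N : ℕ} {F F1 H : ℝ → ℝ} (h : IsRad N F F1 H) (hH : ∀ r, 0 < r → 0 < H r) :
    (∀ r, 0 < r → F r < 0) ∨ ∃ c : ℝ, 0 < c ∧ ∀ᶠ r in atTop, c ≤ F r := by
  by_cases hcase : ∀ r, 0 < r → F r < 0
  · exact Or.inl hcase
  · right
    push Not at hcase
    obtain ⟨r0, hr0, hF⟩ := hcase
    have hmono := h.strictMono hH
    have h1 : F r0 < F (r0 + 1) := hmono (mem_Ioi.2 hr0) (mem_Ioi.2 (by linarith)) (by linarith)
    refine ⟨F (r0 + 1), by linarith, ?_⟩
    filter_upwards [eventually_ge_atTop (r0 + 1)] with r hr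
    exact hmono.monotoneOn (mem_Ioi.2 (by linarith)) (mem_Ioi.2 (by linarith)) hr

lemma signs (h : IsSolution m a u) (hm : 1 ≤ m) (hV : ¬ V m u < ⊤) (j : ℕ) (hj1 : 1 ≤ j)
    (hjm : j < m) : ∀ r, 0 < r → 0 < (-1) ^ (j - 1) * fk m u (m - j) r := by
  induction j, hj1 using Nat.le_induction with
  | base =>
    have hR := (isRad_chain h (m - 1) (by omega)).neg
    rw [show m - 1 + 1 = m by omega] at hR
    rcases neg_or_up hR (fun r hr => by rw [fk_m h hr, neg_neg]; exact Real.exp_pos _) with h1 | h1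
    · intro r hr
      have := h1 r hr
      simp only [Nat.sub_self, pow_zero, one_mul]
      linarith
    · exfalso
      obtain ⟨c, hc, hev⟩ := h1
      refine not_Dn h hm hV (k := m - 1) (by omega) (by omega) ⟨c, hc, ?_⟩
      filter_upwards [hev] with r hr
      linarith
  | succ j hj ih =>
    have ih := ih (by omega)
    have hR := isRad_chain h (m - (j + 1)) (by omega)
    rw [show m - (j + 1) + 1 = m - j by omega] at hR
    rcases neg_one_pow_eq_or ℝ (j - 1) with hs | hs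
    · have hs' : (-1 : ℝ) ^ (j + 1 - 1) = -1 := by
        rw [show j + 1 - 1 = (j - 1) + 1 by omega, pow_succ, hs]; norm_num
      rw [hs] at ih
      rw [hs']
      rcases neg_or_up hR (fun r hr => by have := ih r hr; linarith) with h1 | h1
      · intro r hr
        have := h1 r hr
        linarith
      · exact absurd h1 (fun hu => Up.false h (k := m - (j + 1)) (by omega) (by omega) hu)
    · have hs' : (-1 : ℝ) ^ (j + 1 - 1) = 1 := by
        rw [show j + 1 - 1 = (j - 1) + 1 by omega, pow_succ, hs]; norm_num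
      rw [hs] at ih
      rw [hs']
      rcases neg_or_up hR.neg (fun r hr => by have := ih r hr; linarith) with h1 | h1
      · intro r hr
        have := h1 r hr
        linarith
      · exfalso
        obtain ⟨c, hc, hev⟩ := h1
        refine not_Dn h hm hV (k := m - (j + 1)) (by omega) (by omega) ⟨c, hc, ?_⟩
        filter_upwards [hev] with r hr
        linarith

end Pool.Agent.Q174.Poly
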