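import Mathlib
import Pool.Agent.Q174.PolySol

set_option autoImplicit false

open MeasureTheory Filter Topology Set

namespace Pool.Agent.Q174.Poly

/-- From a lower bound of `h` to one of the flux. -/
lemma flux_lower {N k : ℕ} (hN : 1 ≤ N) {P h : ℝ → ℝ}
    (hP : ∀ r, 0 < r → HasDerivAt P (r ^ (N - 1) * h r) r) (hP0 : ∀ r, 0 < r → 0 ≤ P r)
    (LB : ∀ A : ℝ, ∀ᶠ r in atTop, A ≤ h r * r ^ k) :
    ∀ A : ℝ, ∀ᶠ r in atTop, A * r ^ N ≤ P r * r ^ k := by
  intro A
  obtain ⟨R₀, hR₀⟩ := eventually_atTop.1 (LB (max A 0 * 2 ^ N))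
  set B := max A 0 with hB
  have hB0 : 0 ≤ B := le_max_right _ _
  filter_upwards [eventually_ge_atTop (2 * max R₀ 1)] with r hr
  have hR1 : R₀ ≤ r / 2 := by have := le_max_left R₀ 1; linarith
  have hr1 : 1 ≤ r / 2 := by have := le_max_right R₀ 1; linarith
  have hr0 : 0 < r := by linarith
  have hh : 0 < r / 2 := by linarith
  -- lower bound for the derivative on `[r/2, r]`
  have hder : ∀ s ∈ Icc (r / 2) r, (r / 2) ^ (N - 1) * (B * 2 ^ N / r ^ k) ≤ s ^ (N - 1) * h s := by
    intro s hs
    have hs0 : 0 < s := hh.trans_le hs.1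
    have h1 : B * 2 ^ N ≤ h s * s ^ k := hR₀ s (hR1.trans hs.1)
    have h2 : B * 2 ^ N / r ^ k ≤ h s := by
      have h3 : B * 2 ^ N / r ^ k ≤ B * 2 ^ N / s ^ k :=
        div_le_div_of_nonneg_left (by positivity) (pow_pos hs0 k) (pow_le_pow_left₀ hs0.le hs.2 k)
      refine h3.trans ?_
      rw [div_le_iff₀ (pow_pos hs0 k)]
      exact h1
    have h4 : (r / 2) ^ (N - 1) ≤ s ^ (N - 1) := pow_le_pow_left₀ hh.le hs.1 _
    exact mul_le_mul h4 h2 (by positivity) (by positivity)
  have hmono : MonotoneOn (fun s => P s - (r / 2) ^ (N - 1) * (B * 2 ^ N / r ^ k) * s) (Icc (r / 2) r) := by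
    have hd : ∀ s ∈ Icc (r / 2) r, HasDerivAt
        (fun s => P s - (r / 2) ^ (N - 1) * (B * 2 ^ N / r ^ k) * s)
        (s ^ (N - 1) * h s - (r / 2) ^ (N - 1) * (B * 2 ^ N / r ^ k) * 1) s := fun s hs =>
      (hP s (hh.trans_le hs.1)).sub ((hasDerivAt_id s).const_mul _)
    apply monotoneOn_of_deriv_nonneg (convex_Icc _ _)
    · exact fun t ht => (hd t ht).continuousAt.continuousWithinAt
    · exact fun t ht => (hd t (interior_subset ht)).differentiableAt.differentiableWithinAt
    · intro t ht
      have ht' := interior_subset ht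
      rw [(hd t ht').deriv]
      have := hder t ht'
      linarith
  have h5 := hmono (left_mem_Icc.2 (by linarith)) (right_mem_Icc.2 (by linarith : r / 2 ≤ r)) (by linarith)
  simp only at h5
  have h6 := hP0 (r / 2) hh
  have h7 : (r / 2) ^ (N - 1) * (B * 2 ^ N / r ^ k) * (r / 2) = B * r ^ N / r ^ k := by
    have e : (r / 2) ^ (N - 1) * (r / 2) = r ^ N / 2 ^ N := by
      rw [← pow_succ, show N - 1 + 1 = N by omega, div_pow]
    calc (r / 2) ^ (N - 1) * (B * 2 ^ N / r ^ k) * (r / 2) =
        ((r / 2) ^ (N - 1) * (r / 2)) * (B * 2 ^ N / r ^ k) := by ring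
      _ = _ := by rw [e]; field_simp
  have h8 : B * r ^ N / r ^ k ≤ P r := by
    have e : (r / 2) ^ (N - 1) * (B * 2 ^ N / r ^ k) * r - (r / 2) ^ (N - 1) * (B * 2 ^ N / r ^ k) * (r / 2)
        = (r / 2) ^ (N - 1) * (B * 2 ^ N / r ^ k) * (r / 2) := by ring
    linarith
  rw [div_le_iff₀ (pow_pos hr0 k)] at h8
  have h9 : A * r ^ N ≤ B * r ^ N := mul_le_mul_of_nonneg_right (le_max_left _ _) (by positivity)
  linarith

/-- From a lower bound of the flux to one of the function. -/
lemma fun_lower {N k : ℕ} (hN : 1 ≤ N) {g g1 : ℝ → ℝ}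
    (hg : ∀ r, 0 < r → HasDerivAt g (g1 r) r) (hg0 : ∀ r, 0 < r → 0 < g r)
    (LB : ∀ A : ℝ, ∀ᶠ r in atTop, A * r ^ N ≤ (r ^ (N - 1) * -(g1 r)) * r ^ (2 * (k + 1))) :
    ∀ A : ℝ, ∀ᶠ r in atTop, A ≤ g r * r ^ (2 * k) := by
  intro A
  set B := max A 0 with hB
  have hB0 : 0 ≤ B := le_max_right _ _
  obtain ⟨R₀, hR₀⟩ := eventually_atTop.1 (LB (B * 2 ^ (2 * k + 1)))
  filter_upwards [eventually_ge_atTop (max R₀ 1)] with r hr
  have hR1 : R₀ ≤ r := (le_max_left R₀ 1).trans hr
  have hr1 : 1 ≤ r := (le_max_right R₀ 1).trans hr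
  have hr0 : 0 < r := by linarith
  have hder : ∀ s ∈ Icc r (2 * r), g1 s ≤ -(B / r ^ (2 * k + 1)) := by
    intro s hs
    have hs0 : 0 < s := hr0.trans_le hs.1
    have h1 := hR₀ s (hR1.trans hs.1)
    have h2 : B * 2 ^ (2 * k + 1) / s ^ (2 * k + 1) ≤ - g1 s := by
      rw [div_le_iff₀ (pow_pos hs0 _)]
      have e1 : s ^ N = s ^ (N - 1) * s := by rw [← pow_succ, show N - 1 + 1 = N by omega]
      have e2 : s ^ (2 * (k + 1)) = s ^ (2 * k + 1) * s := by
        rw [← pow_succ]; congr 1
      rw [e1, e2] at h1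
      have hp : 0 < s ^ (N - 1) * s := by positivity
      have h3 : (s ^ (N - 1) * s) * (B * 2 ^ (2 * k + 1)) ≤
          (s ^ (N - 1) * s) * (-g1 s * s ^ (2 * k + 1)) := by
        calc _ = B * 2 ^ (2 * k + 1) * (s ^ (N - 1) * s) := by ring
          _ ≤ _ := h1
          _ = _ := by ring
      exact le_of_mul_le_mul_left h3 hp
    have h4 : B / r ^ (2 * k + 1) ≤ B * 2 ^ (2 * k + 1) / s ^ (2 * k + 1) := by
      rw [div_le_div_iff₀ (pow_pos hr0 _) (pow_pos hs0 _)]
      have : s ^ (2 * k + 1) ≤ (2 * r) ^ (2 * k + 1) := pow_le_pow_left₀ hs0.le hs.2 _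
      rw [mul_pow] at this
      have := mul_le_mul_of_nonneg_left this hB0
      linarith
    linarith
  have hanti : AntitoneOn (fun s => g s + B / r ^ (2 * k + 1) * s) (Icc r (2 * r)) := by
    have hd : ∀ s ∈ Icc r (2 * r), HasDerivAt (fun s => g s + B / r ^ (2 * k + 1) * s)
        (g1 s + B / r ^ (2 * k + 1) * 1) s := fun s hs =>
      (hg s (hr0.trans_le hs.1)).add ((hasDerivAt_id s).const_mul _)
    apply antitoneOn_of_deriv_nonpos (convex_Icc _ _)
    · exact fun t ht => (hd t ht).continuousAt.continuousWithinAt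
    · exact fun t ht => (hd t (interior_subset ht)).differentiableAt.differentiableWithinAt
    · intro t ht
      have ht' := interior_subset ht
      rw [(hd t ht').deriv]
      have := hder t ht'
      linarith
  have h5 := hanti (left_mem_Icc.2 (by linarith)) (right_mem_Icc.2 (by linarith : r ≤ 2 * r)) (by linarith)
  simp only at h5
  have h6 := hg0 (2 * r) (by linarith)
  have h7 : B / r ^ (2 * k + 1) * r = B / r ^ (2 * k) := by
    rw [pow_succ]; field_simp
  have h8 : B / r ^ (2 * k) ≤ g r := by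
    have e : B / r ^ (2 * k + 1) * (2 * r) = B / r ^ (2 * k + 1) * r + B / r ^ (2 * k + 1) * r := by ring
    linarith
  rw [div_le_iff₀ (pow_pos hr0 _)] at h8
  exact (le_max_left A 0).trans h8

/-- Partial integrals of a nonnegative nonintegrable function are unbounded. -/
lemma integral_unbounded {g : ℝ → ℝ} (hg : Continuous g) (hg0 : ∀ r, 0 ≤ r → 0 ≤ g r)
    (hni : ¬ IntegrableOn g (Ioi 0)) (K : ℝ) : ∀ᶠ r in atTop, K ≤ ∫ s in (0:ℝ)..r, g s := by
  have hmono : ∀ r s, 0 ≤ r → r ≤ s → (∫ x in (0:ℝ)..r, g x) ≤ ∫ x in (0:ℝ)..s, g x := by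
    intro r s hr hrs
    have h1 := intervalIntegral.integral_add_adjacent_intervals (hg.intervalIntegrable 0 r)
      (hg.intervalIntegrable r s) (μ := volume)
    have h2 : 0 ≤ ∫ x in r..s, g x :=
      intervalIntegral.integral_nonneg hrs fun x hx => hg0 x (hr.trans hx.1)
    linarith
  by_contra hcon
  apply hni
  have hK : ∀ r : ℝ, 0 ≤ r → ∫ s in (0:ℝ)..r, g s ≤ K := by
    intro r hr
    by_contra hlt
    apply hcon
    filter_upwards [eventually_ge_atTop r] with s hs
    exact (not_le.1 hlt).le.trans (hmono r s hr hs)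
  refine integrableOn_Ioi_of_intervalIntegral_norm_bounded K 0 (l := atTop) (b := fun i : ℝ => i)
    (fun i => (hg.integrableOn_Icc (a := 0) (b := i)).mono_set Ioc_subset_Icc_self) tendsto_id ?_
  filter_upwards [eventually_ge_atTop 0] with r hr
  have : ∫ x in (0:ℝ)..r, ‖g x‖ = ∫ x in (0:ℝ)..r, g x := by
    apply intervalIntegral.integral_congr
    intro x hx
    rw [uIcc_of_le hr] at hx
    exact Real.norm_of_nonneg (hg0 x hx.1)
  rw [this]
  exact hK r hr

variable {m : ℕ} {a : Fin m → ℝ} {u : ℝ → ℝ}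

/-- The volume is finite. -/
theorem V_finite (hm : 2 ≤ m) (h : IsSolution m a u) : V m u < ⊤ := by
  by_contra hV
  have hu : Continuous u := h.1.continuous
  have hS := signs h (by omega) hV
  rcases Nat.even_or_odd m with hev | hodd
  · -- `m` even: `u` is increasing
    have h1 := hS (m - 1) (by omega) (by omega)
    rw [show m - (m - 1) = 1 by omega, show m - 1 - 1 = m - 2 by omega] at h1
    have hsgn : (-1 : ℝ) ^ (m - 2) = 1 := by
      apply Even.neg_one_pow
      rw [Nat.even_sub (by omega)]
      simp [hev]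
    rw [hsgn] at h1
    have hR := isRad_chain h 0 (by omega)
    have hge : ∀ r, 0 < r → a ⟨0, by omega⟩ ≤ u r := fun r hr =>
      hR.ge (fun r hr => by have := h1 r hr; simp only [zero_add]; linarith)
        (h.2.2.1 ⟨0, by omega⟩) hr
    refine not_Dn h (by omega) hV (k := m) (by omega) le_rfl ⟨Real.exp (a ⟨0, by omega⟩),
      Real.exp_pos _, ?_⟩
    filter_upwards [eventually_gt_atTop 0] with r hr
    rw [fk_m h hr]
    have := Real.exp_le_exp.2 (hge r hr)
    linarith
  · -- `m` odd
    set N := 2 * m with hN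
    have hpar : Even (m - 1) := by
      obtain ⟨q, hq⟩ := hodd
      exact ⟨q, by omega⟩
    set hh : ℕ → ℝ → ℝ := fun k r => (-1) ^ k * fk m u k r with hhh
    have hpos : ∀ k, 1 ≤ k → k ≤ m → ∀ r, 0 < r → 0 < hh k r := by
      intro k hk1 hkm r hr
      rcases eq_or_lt_of_le hkm with rfl | hlt
      · simp only [hhh]
        rw [fk_m h hr, hodd.neg_one_pow]
        have := Real.exp_pos (u r)
        linarith
      · have := hS (m - k) (by omega) (by omega) r hr
        rw [show m - (m - k) = k by omega] at this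
        have e : (-1 : ℝ) ^ (m - k - 1) = (-1) ^ k := by
          have h1 : (-1 : ℝ) ^ (m - k - 1) * (-1) ^ k = 1 := by
            rw [← pow_add, show m - k - 1 + k = m - 1 by omega, hpar.neg_one_pow]
          rcases neg_one_pow_eq_or ℝ k with hs | hs <;> rw [hs] at h1 ⊢ <;> linarith
        rw [e] at this
        exact this
    -- the chain for `hh`
    have hchain : ∀ k, k < m → IsRad N (fun r => -hh k r) (fun r => -((-1) ^ k * deriv (fk m u k) r))
        (hh (k + 1)) := by
      intro k hk
      have hR := isRad_chain h k hk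
      refine ⟨fun r hr => ?_, fun r hr => ?_, ?_⟩
      · simp only [hhh]
        exact ((hR.hF r hr).const_mul _).neg
      · have e : (fun s => s ^ (N - 1) * -((-1) ^ k * deriv (fk m u k) s)) =
            fun s => (-(-1) ^ k) * (s ^ (N - 1) * deriv (fk m u k) s) := by
          ext s; ring
        rw [e]
        refine ((hR.hG r hr).const_mul _).congr_deriv ?_
        simp only [hhh, pow_succ]
        ring
      · have := hR.h0.const_mul (-(-1 : ℝ) ^ k)
        rw [mul_zero] at this
        refine this.congr fun s => ?_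
        ring
    have hPpos : ∀ k, k < m → ∀ r, 0 < r → 0 ≤ r ^ (N - 1) * -((-1) ^ k * deriv (fk m u k) r) := by
      intro k hk r hr
      exact ge_lim (hchain k hk).hG (fun r hr => (mul_pos (pow_pos hr _)
        (hpos (k + 1) (by omega) (by omega) r hr)).le) (hchain k hk).h0 hr
    -- the top flux tends to infinity
    have htop : ∀ A : ℝ, ∀ᶠ r in atTop, A * r ^ N ≤
        (r ^ (N - 1) * -((-1) ^ (m - 1) * deriv (fk m u (m - 1)) r)) * r ^ (2 * (m - 1 + 1)) := by
      intro A
      set g : ℝ → ℝ := fun y => y ^ (N - 1) * Real.exp (u y) with hg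
      have hgc : Continuous g := by simp only [hg]; fun_prop
      have hni : ¬ IntegrableOn g (Ioi 0) := fun hi => hV ((V_lt_top_iff (by omega) hu).2 hi)
      have hI := integral_unbounded hgc (fun r hr => by simp only [hg]; positivity) hni
      set P : ℝ → ℝ := fun r => r ^ (N - 1) * -((-1) ^ (m - 1) * deriv (fk m u (m - 1)) r) with hPdef
      have hPd : ∀ r, 0 < r → HasDerivAt P (g r) r := by
        intro r hr
        have := (hchain (m - 1) (by omega)).hG r hr
        refine this.congr_deriv ?_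
        simp only [hhh, hg]
        rw [show m - 1 + 1 = m by omega, fk_m h hr, hodd.neg_one_pow]
        ring
      have hId : ∀ r, HasDerivAt (fun r => ∫ s in (0:ℝ)..r, g s) (g r) r := fun r =>
        intervalIntegral.integral_hasDerivAt_right (hgc.intervalIntegrable _ _)
          (hgc.stronglyMeasurableAtFilter _ _) hgc.continuousAt
      have hconst : ∀ r, 1 ≤ r → P r - ∫ s in (0:ℝ)..r, g s = P 1 - ∫ s in (0:ℝ)..1, g s := by
        intro r hr
        have hd : ∀ s ∈ Icc (1:ℝ) r, HasDerivAt (fun r => P r - ∫ s in (0:ℝ)..r, g s) 0 s := fun s hs =>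
          ((hPd s (by linarith [hs.1])).sub (hId s)).congr_deriv (by ring)
        have hdiff : DifferentiableOn ℝ (fun r => P r - ∫ s in (0:ℝ)..r, g s) (Icc 1 r) := fun s hs =>
          (hd s hs).differentiableAt.differentiableWithinAt
        have := constant_of_derivWithin_zero hdiff (fun s hs => by
          rw [((hd s (Ico_subset_Icc_self hs)).hasDerivWithinAt).derivWithin]
          exact (uniqueDiffOn_Icc (hs.1.trans_lt hs.2)) s (Ico_subset_Icc_self hs))
        exact this r (right_mem_Icc.2 hr)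
      filter_upwards [hI (A - (P 1 - ∫ s in (0:ℝ)..1, g s)), eventually_ge_atTop 1] with r hr hr1
      have h1 := hconst r hr1
      have h2 : A ≤ P r := by linarith
      have h3 : r ^ N = r ^ (2 * (m - 1 + 1)) := by congr 1; omega
      rw [h3]
      exact mul_le_mul_of_nonneg_right h2 (by positivity)
    -- descend
    have hdesc : ∀ j, j < m → ∀ A : ℝ, ∀ᶠ r in atTop, A * r ^ N ≤
        (r ^ (N - 1) * -((-1) ^ (m - 1 - j) * deriv (fk m u (m - 1 - j)) r)) *
          r ^ (2 * (m - 1 - j + 1)) := by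
      intro j
      induction j with
      | zero => intro _; simpa using htop
      | succ j ih =>
        intro hj
        have ih := ih (by omega)
        set k := m - 1 - (j + 1) with hk
        have hk1 : m - 1 - j = k + 1 := by omega
        rw [hk1] at ih
        have hg : ∀ r, 0 < r → HasDerivAt (hh (k + 1)) ((-1) ^ (k + 1) * deriv (fk m u (k + 1)) r) r := by
          intro r hr
          exact ((isRad_chain h (k + 1) (by omega)).hF r hr).const_mul _
        have LB := fun_lower (k := k + 1) (N := N) (by omega) hg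
          (hpos (k + 1) (by omega) (by omega)) ih
        exact flux_lower (k := 2 * (k + 1)) (by omega) (hchain k (by omega)).hG
          (hPpos k (by omega)) LB
    have hfin := hdesc (m - 1) (by omega)
    rw [show m - 1 - (m - 1) = 0 by omega] at hfin
    -- conclude
    apply hV
    rw [V_lt_top_iff (by omega) hu]
    apply integrableOn_of_log (N := N) (by omega) hu
    obtain ⟨R₀, hR₀⟩ := eventually_atTop.1 (hfin ((N:ℝ) + 1))
    set R := max R₀ 1 with hR
    have hR1 : 1 ≤ R := le_max_right _ _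
    have hu1 : ∀ r, R ≤ r → deriv u r ≤ -((N + 1) / r) := by
      intro r hr
      have hr0 : 0 < r := by linarith
      have h1 := hR₀ r ((le_max_left _ _).trans hr)
      have e0 : fk m u 0 = u := rfl
      simp only [pow_zero, one_mul, zero_add, mul_one, e0] at h1
      have e1 : r ^ N = r ^ (N - 1) * r := by rw [← pow_succ, show N - 1 + 1 = N by omega]
      rw [e1] at h1
      have hp : 0 < r ^ (N - 1) * r := by positivity
      have h3 : (r ^ (N - 1) * r) * (N + 1) ≤ (r ^ (N - 1) * r) * (-deriv u r * r) := by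
        calc _ = ((N:ℝ) + 1) * (r ^ (N - 1) * r) := by ring
          _ ≤ _ := h1
          _ = _ := by ring
      have h4 := le_of_mul_le_mul_left h3 hp
      have h5 : (N + 1) / r ≤ -deriv u r := by rw [div_le_iff₀ hr0]; exact h4
      linarith
    have hanti : AntitoneOn (fun r => u r + (N + 1) * Real.log r) (Ici R) := by
      have hd : ∀ r, R ≤ r → HasDerivAt (fun r => u r + (N + 1) * Real.log r)
          (deriv u r + (N + 1) * r⁻¹) r := fun r hr =>
        ((isRad_chain h 0 (by omega)).hF r (by linarith)).add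
          ((Real.hasDerivAt_log (by linarith : r ≠ 0)).const_mul _)
      apply antitoneOn_of_deriv_nonpos (convex_Ici R)
      · exact fun r hr => (hd r hr).continuousAt.continuousWithinAt
      · exact fun r hr => (hd r (interior_subset hr)).differentiableAt.differentiableWithinAt
      · intro r hr
        have hr' : R ≤ r := interior_subset hr
        rw [(hd r hr').deriv, ← div_eq_mul_inv]
        have := hu1 r hr'
        linarith
    refine ⟨u R + (N + 1) * Real.log R, ?_⟩
    filter_upwards [eventually_ge_atTop R] with r hr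
    exact hanti (mem_Ici.2 le_rfl) (mem_Ici.2 hr) hr

end Pool.Agent.Q174.Poly
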