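import Mathlib
import Pool.Agent.Q174.PolyFin

set_option autoImplicit false

open MeasureTheory Filter Topology Set

namespace Pool.Agent.Q174.Poly

variable {m : ℕ} {a : Fin m → ℝ} {u : ℝ → ℝ}

/-- The radial integral. -/
noncomputable def J (m : ℕ) (u : ℝ → ℝ) : ℝ := ∫ y in Ioi (0 : ℝ), y ^ (2 * m - 1) * Real.exp (u y)

/-- The constant `N vol(B_1)`. -/
noncomputable def kap (m : ℕ) : ℝ :=
  (2 * m : ℕ) * (volume : Measure (EuclideanSpace ℝ (Fin (2 * m)))).real (Metric.ball 0 1)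

lemma kap_pos (hm : 1 ≤ m) : 0 < kap m := by
  have h1 : 0 < (volume : Measure (EuclideanSpace ℝ (Fin (2 * m)))).real (Metric.ball 0 1) := by
    rw [measureReal_def, ENNReal.toReal_pos_iff]
    exact ⟨Metric.measure_ball_pos _ _ one_pos, measure_ball_lt_top⟩
  have h2 : (0:ℝ) < (2 * m : ℕ) := by exact_mod_cast (by omega : 0 < 2 * m)
  exact mul_pos h2 h1

lemma toReal_V (hm : 1 ≤ m) (hu : Continuous u) : (V m u).toReal = kap m * J m u := by
  have : Nonempty (Fin (2 * m)) := ⟨⟨0, by omega⟩⟩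
  have h1 := integral_fun_norm_addHaar (volume : Measure (EuclideanSpace ℝ (Fin (2 * m))))
    (fun t => Real.exp (u t))
  simp only [finrank_euclideanSpace, Fintype.card_fin, smul_eq_mul, nsmul_eq_mul] at h1
  have hc : Continuous fun x : EuclideanSpace ℝ (Fin (2 * m)) => Real.exp (u ‖x‖) := by fun_prop
  rw [integral_eq_lintegral_of_nonneg_ae (Eventually.of_forall fun x => (Real.exp_pos _).le)
    hc.aestronglyMeasurable] at h1
  rw [V, h1, kap, J]
  ring

/-- The first barrier: `W = (1/2)(1 - 1/(1+r^2))`. -/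
lemma isRad_W (N : ℕ) (hN : 1 ≤ N) (c : ℝ) :
    IsRad N (fun r => c * (1 - 1 / (1 + r ^ 2))) (fun r => c * (2 * r / (1 + r ^ 2) ^ 2))
      (fun r => c * ((2 * N + (2 * N - 8) * r ^ 2) / (1 + r ^ 2) ^ 3)) := by
  have hne : ∀ r : ℝ, (1 + r ^ 2) ≠ 0 := fun r => by positivity
  refine ⟨fun r _ => ?_, fun r _ => ?_, ?_⟩
  · have h1 : HasDerivAt (fun r : ℝ => 1 + r ^ 2) (2 * r) r := by
      have := (hasDerivAt_pow 2 r).const_add 1
      simpa using this
    have h2 := (((hasDerivAt_const r (1:ℝ)).div h1 (hne r)).const_sub 1).const_mul c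
    refine h2.congr_deriv ?_
    field_simp
    ring
  · have h1 : HasDerivAt (fun r : ℝ => 1 + r ^ 2) (2 * r) r := by
      have := (hasDerivAt_pow 2 r).const_add 1
      simpa using this
    have h3 : HasDerivAt (fun r : ℝ => (1 + r ^ 2) ^ 2) (2 * (1 + r ^ 2) * (2 * r)) r := by
      have := h1.pow 2
      refine this.congr_deriv ?_
      push_cast; ring
    have h4 : HasDerivAt (fun r : ℝ => 2 * r ^ N * c) (2 * (N * r ^ (N - 1)) * c) r :=
      ((hasDerivAt_pow N r).const_mul 2).mul_const c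
    have h5 := h4.div h3 (pow_ne_zero 2 (hne r))
    have e : (fun s : ℝ => s ^ (N - 1) * (c * (2 * s / (1 + s ^ 2) ^ 2))) =
        fun s => 2 * s ^ N * c / (1 + s ^ 2) ^ 2 := by
      ext s
      have : s ^ N = s ^ (N - 1) * s := by rw [← pow_succ, show N - 1 + 1 = N by omega]
      rw [this]; ring
    rw [e]
    refine h5.congr_deriv ?_
    have : r ^ N = r ^ (N - 1) * r := by rw [← pow_succ, show N - 1 + 1 = N by omega]
    rw [this]
    have := hne r
    field_simp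
    ring
  · have hc : Continuous fun s : ℝ => s ^ (N - 1) * (c * (2 * s / (1 + s ^ 2) ^ 2)) := by
      have : ∀ s : ℝ, (1 + s ^ 2) ^ 2 ≠ 0 := fun s => pow_ne_zero 2 (hne s)
      fun_prop (disch := assumption)
    have := hc.tendsto 0
    simp only [mul_zero, zero_div] at this
    exact this.mono_left nhdsWithin_le_nhds

lemma lim_W (c : ℝ) : Tendsto (fun r : ℝ => c * (1 - 1 / (1 + r ^ 2))) (𝓝[>] 0) (𝓝 0) := by
  have hne : ∀ r : ℝ, (1 + r ^ 2) ≠ 0 := fun r => by positivity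
  have hc : Continuous fun s : ℝ => c * (1 - 1 / (1 + s ^ 2)) := by
    fun_prop (disch := assumption)
  have := hc.tendsto 0
  simp only [ne_eq, OfNat.ofNat_ne_zero, not_false_eq_true, zero_pow, add_zero, div_one, sub_self,
    mul_zero] at this
  exact this.mono_left nhdsWithin_le_nhds

lemma W_le {c : ℝ} (hc : 0 ≤ c) (r : ℝ) : c * (1 - 1 / (1 + r ^ 2)) ≤ c := by
  have : 0 ≤ 1 / (1 + r ^ 2) := by positivity
  nlinarith

/-- The flux of `f_{m-1}` is bounded below by `-J`. -/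
lemma flux_ge (hm : 2 ≤ m) (h : IsSolution m a u) {r : ℝ} (hr : 0 < r) :
    - J m u ≤ r ^ (2 * m - 1) * deriv (fk m u (m - 1)) r := by
  set g : ℝ → ℝ := fun y => y ^ (2 * m - 1) * Real.exp (u y) with hg
  have hgc : Continuous g := by
    have := h.1.continuous
    simp only [hg]; fun_prop
  have hR := isRad_chain h (m - 1) (by omega)
  rw [show m - 1 + 1 = m by omega] at hR
  have hId : ∀ r, HasDerivAt (fun r => ∫ s in (0:ℝ)..r, g s) (g r) r := fun r =>
    intervalIntegral.integral_hasDerivAt_right (hgc.intervalIntegrable _ _)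
      (hgc.stronglyMeasurableAtFilter _ _) hgc.continuousAt
  have hlimI : Tendsto (fun r => ∫ s in (0:ℝ)..r, g s) (𝓝[>] 0) (𝓝 0) := by
    have := (hId 0).continuousAt.tendsto
    rw [intervalIntegral.integral_same] at this
    exact this.mono_left nhdsWithin_le_nhds
  have h1 : 0 ≤ r ^ (2 * m - 1) * deriv (fk m u (m - 1)) r + ∫ s in (0:ℝ)..r, g s := by
    refine ge_lim (f := fun r => r ^ (2 * m - 1) * deriv (fk m u (m - 1)) r + ∫ s in (0:ℝ)..r, g s)
      (f' := fun r => r ^ (2 * m - 1) * fk m u m r + g r)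
      (fun r hr => (hR.hG r hr).add (hId r)) (fun r hr => ?_) ?_ hr
    · rw [fk_m h hr]
      simp only [hg]
      linarith
    · have := hR.h0.add hlimI
      rwa [add_zero] at this
  have hint : IntegrableOn g (Ioi 0) := (V_lt_top_iff (by omega) h.1.continuous).1 (V_finite hm h)
  have h2 : ∫ s in (0:ℝ)..r, g s ≤ J m u := by
    rw [intervalIntegral.integral_of_le hr.le, J]
    refine setIntegral_mono_set hint ?_ Ioc_subset_Ioi_self.eventuallyLE
    rw [EventuallyLE, ae_restrict_iff' measurableSet_Ioi]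
    exact Eventually.of_forall fun y hy => by
      have : 0 < y := hy
      simp only [Pi.zero_apply, hg]; positivity
  linarith

/-- If `J ≤ 1` then `f_{m-1} ≤ r^{2-N}/(N-2)`. -/
lemma top_le (hm : 3 ≤ m) (h : IsSolution m a u) (hJ : J m u ≤ 1) {r : ℝ} (hr : 0 < r) :
    fk m u (m - 1) r ≤ 1 / ((2 * m - 2) * r ^ (2 * m - 2)) := by
  set K : ℝ := 2 * m - 2 with hK
  have hm' : (3:ℝ) ≤ m := by exact_mod_cast hm
  have hK0 : 0 < K := by simp only [hK]; linarith
  have hR := isRad_chain h (m - 1) (by omega)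
  -- `φ`
  set φ : ℝ → ℝ := fun r => fk m u (m - 1) r - 1 / (K * r ^ (2 * m - 2)) with hφ
  have hφd : ∀ r, 0 < r → HasDerivAt φ (deriv (fk m u (m - 1)) r + 1 / r ^ (2 * m - 1)) r := by
    intro r hr
    have h1 : HasDerivAt (fun r : ℝ => K * r ^ (2 * m - 2)) (K * ((2 * m - 2 : ℕ) * r ^ (2 * m - 2 - 1))) r :=
      (hasDerivAt_pow (2 * m - 2) r).const_mul K
    have hp : r ^ (2 * m - 2) ≠ 0 := pow_ne_zero _ hr.ne'
    have h2 := (hR.hF r hr).sub ((hasDerivAt_const r (1:ℝ)).div h1 (mul_ne_zero hK0.ne' hp))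
    refine h2.congr_deriv ?_
    have e1 : ((2 * m - 2 : ℕ) : ℝ) = K := by
      rw [Nat.cast_sub (by omega)]; push_cast; rfl
    rw [e1]
    have e2 : r ^ (2 * m - 2) = r ^ (2 * m - 2 - 1) * r := by
      rw [← pow_succ]; congr 1; omega
    have e3 : r ^ (2 * m - 1) = r ^ (2 * m - 2 - 1) * r * r := by
      rw [← pow_succ, ← pow_succ]; congr 1; omega
    rw [e2, e3]
    have hp' : r ^ (2 * m - 2 - 1) ≠ 0 := pow_ne_zero _ hr.ne'
    have hr' := hr.ne'
    have hK' := hK0.ne'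
    field_simp
    ring
  have hmono : MonotoneOn φ (Ioi 0) := by
    refine mono_Ioi hφd fun r hr => ?_
    have h1 := flux_ge (by omega) h hr
    have hp : 0 < r ^ (2 * m - 1) := pow_pos hr _
    have h2 : 0 ≤ r ^ (2 * m - 1) * (deriv (fk m u (m - 1)) r + 1 / r ^ (2 * m - 1)) := by
      have : r ^ (2 * m - 1) * (deriv (fk m u (m - 1)) r + 1 / r ^ (2 * m - 1)) =
        r ^ (2 * m - 1) * deriv (fk m u (m - 1)) r + 1 := by
        field_simp
      rw [this]; linarith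
    exact nonneg_of_mul_nonneg_right h2 hp
  by_contra hcon
  have hcon := not_le.1 hcon
  have hφr : 0 < φ r := by simp only [hφ]; linarith
  refine Up.false h (k := m - 1) (by omega) (by omega) ⟨φ r, hφr, ?_⟩
  filter_upwards [eventually_ge_atTop r] with s hs
  have hs0 : 0 < s := hr.trans_le hs
  have h1 := hmono (mem_Ioi.2 hr) (mem_Ioi.2 hs0) hs
  have h2 : 0 ≤ 1 / (K * s ^ (2 * m - 2)) := by positivity
  have h3 : φ s = fk m u (m - 1) s - 1 / (K * s ^ (2 * m - 2)) := rfl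
  linarith

lemma top_le_init (hm : 1 ≤ m) (h : IsSolution m a u) {r : ℝ} (hr : 0 < r) :
    fk m u (m - 1) r ≤ a ⟨m - 1, by omega⟩ := by
  have hR := (isRad_chain h (m - 1) (by omega)).neg
  rw [show m - 1 + 1 = m by omega] at hR
  have := hR.ge (fun r hr => by rw [fk_m h hr, neg_neg]; exact (Real.exp_pos _).le)
    (h.2.2.1 ⟨m - 1, by omega⟩).neg hr
  linarith

/-- The bound on `f_{m-2}`. -/
lemma sub_le (hm : 3 ≤ m) (h : IsSolution m a u) (hJ : J m u ≤ 1)
    (ha1 : a ⟨m - 1, by omega⟩ ≤ 1) (ha2 : a ⟨m - 2, by omega⟩ = -1) {r : ℝ} (hr : 0 < r) :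
    fk m u (m - 2) r ≤ -(1 / 2) := by
  have hR := isRad_chain h (m - 2) (by omega)
  rw [show m - 2 + 1 = m - 1 by omega] at hR
  have hW := isRad_W (2 * m) (by omega) (1 / 2)
  have hm' : (3:ℝ) ≤ m := by exact_mod_cast hm
  have hpos : ∀ r, 0 < r → 0 ≤ 1 / 2 * ((2 * (2 * m : ℕ) + (2 * (2 * m : ℕ) - 8) * r ^ 2) /
      (1 + r ^ 2) ^ 3) - fk m u (m - 1) r := by
    intro r hr
    have hden : 0 < (1 + r ^ 2) ^ 3 := by positivity
    have hge : (6 + 2 * r ^ 2) / (1 + r ^ 2) ^ 3 ≤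
        1 / 2 * ((2 * (2 * m : ℕ) + (2 * (2 * m : ℕ) - 8) * r ^ 2) / (1 + r ^ 2) ^ 3) := by
      rw [← mul_div_assoc, div_le_div_iff_of_pos_right hden]
      push_cast
      nlinarith [sq_nonneg r]
    rcases le_total r 1 with hr1 | hr1
    · have h1 := (top_le_init (by omega) h hr).trans ha1
      have h2 : 1 ≤ (6 + 2 * r ^ 2) / (1 + r ^ 2) ^ 3 := by
        rw [one_le_div hden]
        have h3 : r ^ 2 ≤ 1 := pow_le_one₀ hr.le hr1
        have h4 : 0 ≤ r ^ 2 := sq_nonneg r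
        nlinarith [mul_nonneg h4 (sub_nonneg.2 h3), mul_nonneg (mul_nonneg h4 h4) (sub_nonneg.2 h3)]
      linarith
    · have h1 := top_le hm h hJ hr
      have h2 : 1 / ((2 * m - 2) * r ^ (2 * m - 2)) ≤ 1 / (4 * r ^ 4) := by
        apply one_div_le_one_div_of_le (by positivity)
        have h3 : r ^ 4 ≤ r ^ (2 * m - 2) := pow_le_pow_right₀ hr1 (by omega)
        have h4 : (4:ℝ) ≤ 2 * m - 2 := by linarith
        exact mul_le_mul h4 h3 (by positivity) (by linarith)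
      have h5 : 1 / (4 * r ^ 4) ≤ (6 + 2 * r ^ 2) / (1 + r ^ 2) ^ 3 := by
        rw [div_le_div_iff₀ (by positivity) hden]
        have h3 : 1 ≤ r ^ 2 := one_le_pow₀ hr1
        nlinarith [mul_nonneg (sub_nonneg.2 h3) (sub_nonneg.2 h3), sq_nonneg r,
          mul_nonneg (mul_nonneg (sub_nonneg.2 h3) (sub_nonneg.2 h3)) (sq_nonneg r)]
      linarith
  have hlim : Tendsto (fun r : ℝ => 1 / 2 * (1 - 1 / (1 + r ^ 2)) - fk m u (m - 2) r) (𝓝[>] 0)
      (𝓝 (0 - a ⟨m - 2, by omega⟩)) := (lim_W (1 / 2)).sub (h.2.2.1 ⟨m - 2, by omega⟩)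
  have := (hW.sub hR).ge hpos hlim hr
  rw [ha2] at this
  have h6 := W_le (by norm_num : (0:ℝ) ≤ 1 / 2) r
  linarith

/-- The constants in the descent from `f_{m-2}` to `u`. -/
noncomputable def cj (m : ℕ) : ℕ → ℝ
  | 0 => 1 / 2
  | j + 1 => cj m j / ((2 * j + 2 : ℕ) * (2 * j + 2 * m : ℕ))

lemma cj_pos (hm : 1 ≤ m) (j : ℕ) : 0 < cj m j := by
  induction j with
  | zero => norm_num [cj]
  | succ j ih =>
    rw [cj]
    have h1 : (0:ℝ) < (2 * j + 2 : ℕ) := by exact_mod_cast (by omega : 0 < 2 * j + 2)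
    have h2 : (0:ℝ) < (2 * j + 2 * m : ℕ) := by exact_mod_cast (by omega : 0 < 2 * j + 2 * m)
    positivity

lemma descend (hm : 3 ≤ m) (h : IsSolution m a u)
    (hs : ∀ r, 0 < r → fk m u (m - 2) r ≤ -(1 / 2))
    (ha : ∀ i : Fin m, 1 ≤ (i : ℕ) → (i : ℕ) < m - 2 → a i = 0) (j : ℕ) (hj : j < m - 2) :
    ∀ r, 0 < r → fk m u (m - 2 - j) r ≤ -(cj m j * r ^ (2 * j)) := by
  induction j with
  | zero =>
    intro r hr
    have := hs r hr
    simpa [cj] using this
  | succ j ih =>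
    have ih := ih (by omega)
    intro r hr
    have hR := isRad_chain h (m - 2 - (j + 1)) (by omega)
    rw [show m - 2 - (j + 1) + 1 = m - 2 - j by omega] at hR
    have hP := (isRad_pow (2 * m) j (by omega) (cj m (j + 1))).neg
    have hcc : cj m (j + 1) * ((2 * j + 2 : ℕ) * (2 * j + 2 * m : ℕ)) = cj m j := by
      rw [cj]
      have h1 : ((2 * j + 2 : ℕ) : ℝ) ≠ 0 := by exact_mod_cast (by omega : 2 * j + 2 ≠ 0)
      have h2 : ((2 * j + 2 * m : ℕ) : ℝ) ≠ 0 := by exact_mod_cast (by omega : 2 * j + 2 * m ≠ 0)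
      field_simp
    have hlim0 : Tendsto (fun r : ℝ => -(cj m (j + 1) * r ^ (2 * j + 2))) (𝓝[>] 0) (𝓝 0) := by
      have hc : Continuous fun r : ℝ => -(cj m (j + 1) * r ^ (2 * j + 2)) := by fun_prop
      have := hc.tendsto 0
      simp only [ne_eq, Nat.add_eq_zero_iff, mul_eq_zero, OfNat.ofNat_ne_zero, false_or, and_false,
        not_false_eq_true, zero_pow, mul_zero, neg_zero] at this
      exact this.mono_left nhdsWithin_le_nhds
    have h1 := (hP.sub hR).ge (fun r hr => by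
      have := ih r hr
      simp only [hcc]
      linarith) (hlim0.sub (h.2.2.1 ⟨m - 2 - (j + 1), by omega⟩)) hr
    rw [ha ⟨m - 2 - (j + 1), by omega⟩ (by simp only; omega) (by simp only; omega)] at h1
    have e : 2 * (j + 1) = 2 * j + 2 := by ring
    rw [e]
    linarith

lemma u_le (hm : 3 ≤ m) (h : IsSolution m a u)
    (hs : ∀ r, 0 < r → fk m u (m - 2) r ≤ -(1 / 2))
    (ha : ∀ i : Fin m, 1 ≤ (i : ℕ) → (i : ℕ) < m - 2 → a i = 0) :
    ∀ r, 0 < r → u r ≤ a ⟨0, by omega⟩ - cj m (m - 2) * r ^ (2 * (m - 2)) := by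
  intro r hr
  obtain ⟨j, hj⟩ : ∃ j, m - 2 = j + 1 := ⟨m - 3, by omega⟩
  have hd := descend hm h hs ha j (by omega)
  rw [show m - 2 - j = 1 by omega] at hd
  have hR := isRad_chain h 0 (by omega)
  rw [zero_add] at hR
  have hP := (isRad_pow (2 * m) j (by omega) (cj m (j + 1))).neg
  have hcc : cj m (j + 1) * ((2 * j + 2 : ℕ) * (2 * j + 2 * m : ℕ)) = cj m j := by
    rw [cj]
    have h1 : ((2 * j + 2 : ℕ) : ℝ) ≠ 0 := by exact_mod_cast (by omega : 2 * j + 2 ≠ 0)
    have h2 : ((2 * j + 2 * m : ℕ) : ℝ) ≠ 0 := by exact_mod_cast (by omega : 2 * j + 2 * m ≠ 0)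
    field_simp
  have hlim0 : Tendsto (fun r : ℝ => -(cj m (j + 1) * r ^ (2 * j + 2))) (𝓝[>] 0) (𝓝 0) := by
    have hc : Continuous fun r : ℝ => -(cj m (j + 1) * r ^ (2 * j + 2)) := by fun_prop
    have := hc.tendsto 0
    simp only [ne_eq, Nat.add_eq_zero_iff, mul_eq_zero, OfNat.ofNat_ne_zero, false_or, and_false,
      not_false_eq_true, zero_pow, mul_zero, neg_zero] at this
    exact this.mono_left nhdsWithin_le_nhds
  have h1 := (hP.sub hR).ge (fun r hr => by
    have := hd r hr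
    simp only [hcc]
    linarith) (hlim0.sub (h.2.2.1 ⟨0, by omega⟩)) hr
  have e0 : fk m u 0 r = u r := rfl
  rw [e0] at h1
  rw [hj, show 2 * (j + 1) = 2 * j + 2 by ring]
  linarith

/-- The Gaussian-type integral bounding `J`. -/
noncomputable def Cst (m : ℕ) : ℝ :=
  ∫ y in Ioi (0 : ℝ), y ^ (2 * m - 1) * Real.exp (-(cj m (m - 2) * y ^ (2 * (m - 2))))

lemma intC (hm : 3 ≤ m) : IntegrableOn (fun y : ℝ => y ^ (2 * m - 1) *
    Real.exp (-(cj m (m - 2) * y ^ (2 * (m - 2))))) (Ioi 0) := by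
  have hc := cj_pos (m := m) (by omega) (m - 2)
  apply integrableOn_of_log (u := fun y => -(cj m (m - 2) * y ^ (2 * (m - 2)))) (by omega)
    (by fun_prop)
  apply log_of_quad
  refine ⟨cj m (m - 2), 0, hc, ?_⟩
  filter_upwards [eventually_ge_atTop 1] with r hr
  have h1 : r ^ 2 ≤ r ^ (2 * (m - 2)) := pow_le_pow_right₀ hr (by omega)
  nlinarith

lemma J_le (hm : 3 ≤ m) (h : IsSolution m a u)
    (hs : ∀ r, 0 < r → fk m u (m - 2) r ≤ -(1 / 2))
    (ha : ∀ i : Fin m, 1 ≤ (i : ℕ) → (i : ℕ) < m - 2 → a i = 0) :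
    J m u ≤ Real.exp (a ⟨0, by omega⟩) * Cst m := by
  have hint : IntegrableOn (fun y => y ^ (2 * m - 1) * Real.exp (u y)) (Ioi 0) :=
    (V_lt_top_iff (by omega) h.1.continuous).1 (V_finite (by omega) h)
  rw [J, Cst, ← integral_const_mul]
  refine setIntegral_mono_on hint ((intC hm).const_mul _) measurableSet_Ioi fun y hy => ?_
  have hy0 : 0 < y := hy
  have h1 := u_le hm h hs ha y hy0
  have h2 : Real.exp (u y) ≤ Real.exp (a ⟨0, by omega⟩) *
      Real.exp (-(cj m (m - 2) * y ^ (2 * (m - 2)))) := by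
    rw [← Real.exp_add]
    apply Real.exp_le_exp.2
    linarith
  calc y ^ (2 * m - 1) * Real.exp (u y) ≤ y ^ (2 * m - 1) * (Real.exp (a ⟨0, by omega⟩) *
      Real.exp (-(cj m (m - 2) * y ^ (2 * (m - 2))))) := mul_le_mul_of_nonneg_left h2 (by positivity)
    _ = _ := by ring

/-- The constant `K = sup (1+r^2)^3 e^{-c r^{2(m-2)}}`. -/
lemma exists_K (hm : 3 ≤ m) : ∃ K : ℝ, 0 < K ∧ ∀ r : ℝ, 0 < r →
    Real.exp (-(cj m (m - 2) * r ^ (2 * (m - 2)))) ≤ K / (1 + r ^ 2) ^ 3 := by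
  set c := cj m (m - 2) with hc
  have hc0 : 0 < c := cj_pos (by omega) _
  -- for `r ≤ 1`, the right side is `≥ 1` if `K ≥ 8`; for `r ≥ 1`, `exp(-c r^2) ≤ ...`
  have key : ∀ x : ℝ, 0 ≤ x → x ^ 3 / 6 ≤ Real.exp x := by
    intro x hx
    have := Real.pow_div_factorial_le_exp x hx 3
    simpa [Nat.factorial] using this
  refine ⟨8 + 48 / c ^ 3, by positivity, fun r hr => ?_⟩
  have hden : 0 < (1 + r ^ 2) ^ 3 := by positivity
  rw [le_div_iff₀ hden]
  rcases le_total r 1 with hr1 | hr1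
  · have h1 : Real.exp (-(c * r ^ (2 * (m - 2)))) ≤ 1 := by
      apply Real.exp_le_one_iff.2
      have : 0 ≤ c * r ^ (2 * (m - 2)) := by positivity
      linarith
    have h2 : (1 + r ^ 2) ^ 3 ≤ 8 := by
      have : r ^ 2 ≤ 1 := pow_le_one₀ hr.le hr1
      calc (1 + r ^ 2) ^ 3 ≤ (2:ℝ) ^ 3 := pow_le_pow_left₀ (by positivity) (by linarith) 3
        _ = 8 := by norm_num
    have h3 : 0 ≤ 48 / c ^ 3 := by positivity
    calc Real.exp (-(c * r ^ (2 * (m - 2)))) * (1 + r ^ 2) ^ 3 ≤ 1 * 8 :=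
        mul_le_mul h1 h2 (by positivity) (by norm_num)
      _ ≤ _ := by linarith
  · have h0 : r ^ 2 ≤ r ^ (2 * (m - 2)) := pow_le_pow_right₀ hr1 (by omega)
    have h1 : Real.exp (-(c * r ^ (2 * (m - 2)))) ≤ Real.exp (-(c * r ^ 2)) := by
      apply Real.exp_le_exp.2
      nlinarith
    have h2 : (1 + r ^ 2) ^ 3 ≤ 8 * (r ^ 2) ^ 3 := by
      have h3 : 1 ≤ r ^ 2 := one_le_pow₀ hr1
      calc (1 + r ^ 2) ^ 3 ≤ (2 * r ^ 2) ^ 3 := pow_le_pow_left₀ (by positivity) (by linarith) 3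
        _ = 8 * (r ^ 2) ^ 3 := by ring
    have h3 := key (c * r ^ 2) (by positivity)
    have h4 : (r ^ 2) ^ 3 ≤ 6 / c ^ 3 * Real.exp (c * r ^ 2) := by
      have : (r ^ 2) ^ 3 = 6 / c ^ 3 * ((c * r ^ 2) ^ 3 / 6) := by field_simp
      rw [this]
      exact mul_le_mul_of_nonneg_left h3 (by positivity)
    have h5 : Real.exp (-(c * r ^ 2)) * Real.exp (c * r ^ 2) = 1 := by
      rw [← Real.exp_add]; simp
    calc Real.exp (-(c * r ^ (2 * (m - 2)))) * (1 + r ^ 2) ^ 3 ≤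
        Real.exp (-(c * r ^ 2)) * (8 * (6 / c ^ 3 * Real.exp (c * r ^ 2))) :=
          mul_le_mul h1 (h2.trans (mul_le_mul_of_nonneg_left h4 (by norm_num))) (by positivity)
            (Real.exp_pos _).le
      _ = 48 / c ^ 3 * (Real.exp (-(c * r ^ 2)) * Real.exp (c * r ^ 2)) := by ring
      _ = 48 / c ^ 3 := by rw [h5, mul_one]
      _ ≤ _ := by linarith

/-- At the end `η = 1` the volume is not small. -/
lemma J_gt (hm : 3 ≤ m) (h : IsSolution m a u) (ha1 : a ⟨m - 1, by omega⟩ = 1)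
    (ha2 : a ⟨m - 2, by omega⟩ = -1)
    (ha : ∀ i : Fin m, 1 ≤ (i : ℕ) → (i : ℕ) < m - 2 → a i = 0) {K : ℝ}
    (hK : ∀ r : ℝ, 0 < r → Real.exp (-(cj m (m - 2) * r ^ (2 * (m - 2)))) ≤ K / (1 + r ^ 2) ^ 3)
    (hA : Real.exp (a ⟨0, by omega⟩) * K ≤ 1 / 2) : 1 < J m u := by
  by_contra hcon
  have hJ := not_lt.1 hcon
  have hs : ∀ r, 0 < r → fk m u (m - 2) r ≤ -(1 / 2) := fun r hr =>
    sub_le hm h hJ ha1.le ha2 hr
  have hul := u_le hm h hs ha
  have hm' : (3:ℝ) ≤ m := by exact_mod_cast hm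
  have hR := isRad_chain h (m - 1) (by omega)
  rw [show m - 1 + 1 = m by omega] at hR
  have hW := (isRad_W (2 * m) (by omega) (1 / 2)).neg
  have hpos : ∀ r, 0 < r → 0 ≤ fk m u m r - -(1 / 2 * ((2 * (2 * m : ℕ) +
      (2 * (2 * m : ℕ) - 8) * r ^ 2) / (1 + r ^ 2) ^ 3)) := by
    intro r hr
    rw [fk_m h hr]
    have hden : 0 < (1 + r ^ 2) ^ 3 := by positivity
    have h1 : Real.exp (u r) ≤ Real.exp (a ⟨0, by omega⟩) *
        Real.exp (-(cj m (m - 2) * r ^ (2 * (m - 2)))) := by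
      rw [← Real.exp_add]
      apply Real.exp_le_exp.2
      linarith [hul r hr]
    have h2 : Real.exp (u r) ≤ (1 / 2) / (1 + r ^ 2) ^ 3 := by
      refine h1.trans ((mul_le_mul_of_nonneg_left (hK r hr) (Real.exp_pos _).le).trans ?_)
      rw [← mul_div_assoc, div_le_div_iff_of_pos_right hden]
      exact hA
    have h3 : (1 / 2) / (1 + r ^ 2) ^ 3 ≤ 1 / 2 * ((2 * (2 * m : ℕ) + (2 * (2 * m : ℕ) - 8) * r ^ 2) /
        (1 + r ^ 2) ^ 3) := by
      rw [← mul_div_assoc, div_le_div_iff_of_pos_right hden]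
      push_cast
      nlinarith [sq_nonneg r]
    linarith
  have hlim : Tendsto (fun r : ℝ => fk m u (m - 1) r - -(1 / 2 * (1 - 1 / (1 + r ^ 2)))) (𝓝[>] 0)
      (𝓝 (a ⟨m - 1, by omega⟩ - -0)) := (h.2.2.1 ⟨m - 1, by omega⟩).sub (lim_W (1 / 2)).neg
  refine Up.false h (k := m - 1) (by omega) (by omega) ⟨1 / 2, by norm_num, ?_⟩
  filter_upwards [eventually_gt_atTop 0] with r hr
  have h1 := (hR.sub hW).ge hpos hlim hr
  rw [ha1] at h1
  have h2 := W_le (by norm_num : (0:ℝ) ≤ 1 / 2) r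
  linarith

/-- The segment of initial data. -/
noncomputable def seg (m : ℕ) (A η : ℝ) : Fin m → ℝ := fun i =>
  if (i : ℕ) = m - 1 then η else if (i : ℕ) = m - 2 then -1 else if (i : ℕ) = 0 then -A else 0

lemma continuous_seg (m : ℕ) (A : ℝ) : Continuous (seg m A) := by
  refine continuous_pi fun i => ?_
  simp only [seg]
  split_ifs <;> fun_prop

theorem not_continuous (hm : 3 ≤ m) (U : (Fin m → ℝ) → ℝ → ℝ) (hU : ∀ a, IsSolution m a (U a)) :
    ¬ Continuous fun a => (V m (U a)).toReal := by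
  intro hcont
  obtain ⟨K, hK0, hK⟩ := exists_K hm
  -- choose `A`
  obtain ⟨A, hA1, hA2⟩ : ∃ A : ℝ, Real.exp (-A) * Cst m ≤ 1 / 2 ∧ Real.exp (-A) * K ≤ 1 / 2 := by
    have h1 : Tendsto (fun A : ℝ => Real.exp (-A) * Cst m) atTop (𝓝 (0 * Cst m)) :=
      (Real.tendsto_exp_atBot.comp tendsto_neg_atTop_atBot).mul_const _
    have h2 : Tendsto (fun A : ℝ => Real.exp (-A) * K) atTop (𝓝 (0 * K)) :=
      (Real.tendsto_exp_atBot.comp tendsto_neg_atTop_atBot).mul_const _
    rw [zero_mul] at h1 h2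
    exact ((h1.eventually (ge_mem_nhds (by norm_num : (0:ℝ) < 1 / 2))).and
      (h2.eventually (ge_mem_nhds (by norm_num : (0:ℝ) < 1 / 2)))).exists
  set F : ℝ → ℝ := fun η => J m (U (seg m A η)) with hF
  have hFc : Continuous F := by
    have h1 : Continuous fun η => (V m (U (seg m A η))).toReal := hcont.comp (continuous_seg m A)
    have h2 : F = fun η => (kap m)⁻¹ * (V m (U (seg m A η))).toReal := by
      ext η
      rw [toReal_V (by omega) (hU _).1.continuous]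
      have := (kap_pos (m := m) (by omega)).ne'
      field_simp
      rfl
    rw [h2]
    exact h1.const_mul _
  have e1 : ∀ η, seg m A η ⟨m - 1, by omega⟩ = η := fun η => by simp [seg]
  have e2 : ∀ η, seg m A η ⟨m - 2, by omega⟩ = -1 := fun η => by
    simp only [seg]
    rw [if_neg (by omega), if_pos trivial]
  have e0 : ∀ η, seg m A η ⟨0, by omega⟩ = -A := fun η => by
    simp only [seg]
    rw [if_neg (by omega), if_neg (by omega), if_pos trivial]
  have ea : ∀ η, ∀ i : Fin m, 1 ≤ (i : ℕ) → (i : ℕ) < m - 2 → seg m A η i = 0 := fun η i h1 h2 => by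
    simp only [seg]
    rw [if_neg (by omega), if_neg (by omega), if_neg (by omega)]
  -- small values of `J` are `≤ 1/2`
  have hsmall : ∀ η, η ≤ 1 → F η ≤ 1 → F η ≤ 1 / 2 := by
    intro η hη hJ
    have h := hU (seg m A η)
    have hs : ∀ r, 0 < r → fk m (U (seg m A η)) (m - 2) r ≤ -(1 / 2) := fun r hr =>
      sub_le hm h hJ (by rw [e1]; exact hη) (e2 η) hr
    have := J_le hm h hs (ea η)
    rw [e0] at this
    exact this.trans hA1
  have hF0 : F 0 ≤ 1 / 2 := by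
    have h := hU (seg m A 0)
    have hs : ∀ r, 0 < r → fk m (U (seg m A 0)) (m - 2) r ≤ -(1 / 2) := by
      intro r hr
      have hR := (isRad_chain h (m - 2) (by omega)).neg
      rw [show m - 2 + 1 = m - 1 by omega] at hR
      have := hR.ge (fun r hr => by
        have := top_le_init (by omega) h hr
        rw [e1] at this
        linarith) (h.2.2.1 ⟨m - 2, by omega⟩).neg hr
      rw [e2] at this
      linarith
    have := J_le hm h hs (ea 0)
    rw [e0] at this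
    exact this.trans hA1
  have hF1 : 1 < F 1 := J_gt hm (hU (seg m A 1)) (e1 1) (e2 1) (ea 1) hK (by rw [e0]; exact hA2)
  have hivt := intermediate_value_Icc (by norm_num : (0:ℝ) ≤ 1) hFc.continuousOn
  obtain ⟨η, hη, hFη⟩ := hivt (show (3/4 : ℝ) ∈ Icc (F 0) (F 1) from ⟨by linarith, by linarith⟩)
  have := hsmall η hη.2 (by rw [hFη]; norm_num)
  rw [hFη] at this
  norm_num at this

end Pool.Agent.Q174.Poly
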