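import Mathlib

set_option autoImplicit false

open MeasureTheory Filter Topology Set

namespace Pool.Agent.Q174.RadVol

/-- The radial Laplacian in dimension four. -/
noncomputable def lap (u : ℝ → ℝ) (r : ℝ) : ℝ := iteratedDeriv 2 u r + 3 / r * deriv u r

/-- `u` is a global radial solution with parameter `a` (extended evenly to the whole line). -/
def IsRadialSolution (a : ℝ) (u : ℝ → ℝ) : Prop :=
  ContDiff ℝ 4 u ∧ u 0 = 0 ∧ deriv u 0 = 0 ∧ iteratedDeriv 2 u 0 = a ∧ iteratedDeriv 3 u 0 = 0 ∧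
    ∀ r : ℝ, 0 < r → lap (lap u) r = -6 * Real.exp (4 * u r)

section
variable {a : ℝ} {u : ℝ → ℝ}

lemma mono_Ici {f f' : ℝ → ℝ} (hc : Continuous f) (hf : ∀ r, 0 < r → HasDerivAt f (f' r) r)
    (hf' : ∀ r, 0 < r → 0 ≤ f' r) {r : ℝ} (hr : 0 ≤ r) : f 0 ≤ f r := by
  have : MonotoneOn f (Ici 0) := by
    apply monotoneOn_of_deriv_nonneg (convex_Ici 0) hc.continuousOn
    · rw [interior_Ici]
      exact fun r hr => (hf r hr).differentiableAt.differentiableWithinAt
    · rw [interior_Ici]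
      intro r hr
      rw [(hf r hr).deriv]
      exact hf' r hr
  exact this (mem_Ici.2 le_rfl) (mem_Ici.2 hr) hr

lemma hd (h : ContDiff ℝ 4 u) (k : ℕ) (hk : k < 4) (r : ℝ) :
    HasDerivAt (iteratedDeriv k u) (iteratedDeriv (k + 1) u r) r := by
  rw [iteratedDeriv_succ]
  have : DifferentiableAt ℝ (iteratedDeriv k u) r :=
    (h.differentiable_iteratedDeriv k (by exact_mod_cast hk)) r
  exact this.hasDerivAt

lemma hc (h : ContDiff ℝ 4 u) (k : ℕ) (hk : k ≤ 4) : Continuous (iteratedDeriv k u) :=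
  h.continuous_iteratedDeriv k (by exact_mod_cast hk)

/-- derivative of the radial Laplacian -/
noncomputable def lap1 (u : ℝ → ℝ) (r : ℝ) : ℝ :=
  iteratedDeriv 3 u r + 3 / r * iteratedDeriv 2 u r - 3 / r ^ 2 * deriv u r

lemma hasDerivAt_lap (h : ContDiff ℝ 4 u) {r : ℝ} (hr : r ≠ 0) :
    HasDerivAt (lap u) (lap1 u r) r := by
  have h1 := hd h 1 (by norm_num) r
  have h2 := hd h 2 (by norm_num) r
  rw [iteratedDeriv_one] at h1
  have h3 : HasDerivAt (fun r : ℝ => 3 / r) (-3 / r ^ 2) r := by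
    have := (hasDerivAt_const r (3:ℝ)).div (hasDerivAt_id r) hr
    refine this.congr_deriv ?_
    simp
  refine (h2.add (h3.mul h1)).congr_deriv ?_
  unfold lap1
  ring

lemma hasDerivAt_lap1 (h : ContDiff ℝ 4 u) {r : ℝ} (hr : r ≠ 0) :
    HasDerivAt (lap1 u) (iteratedDeriv 2 (lap u) r) r := by
  have h1 := hd h 1 (by norm_num) r
  have h2 := hd h 2 (by norm_num) r
  have h3 := hd h 3 (by norm_num) r
  rw [iteratedDeriv_one] at h1
  have h4 : DifferentiableAt ℝ (lap1 u) r := by
    unfold lap1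
    refine ((h3.differentiableAt).add (DifferentiableAt.mul ?_ h2.differentiableAt)).sub
      (DifferentiableAt.mul ?_ h1.differentiableAt)
    · exact (differentiableAt_const _).div differentiableAt_id hr
    · exact (differentiableAt_const _).div (by fun_prop) (pow_ne_zero 2 hr)
  have h5 : deriv (lap u) =ᶠ[𝓝 r] lap1 u := by
    filter_upwards [isOpen_ne.mem_nhds hr] with s hs
    exact (hasDerivAt_lap h hs).deriv
  rw [iteratedDeriv_succ, iteratedDeriv_one, h5.deriv_eq]
  exact h4.hasDerivAt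

/-- the mass function -/
noncomputable def m (u : ℝ → ℝ) (r : ℝ) : ℝ := ∫ s in (0 : ℝ)..r, s ^ 3 * Real.exp (4 * u s)

lemma cont_int (h : ContDiff ℝ 4 u) : Continuous (fun s : ℝ => s ^ 3 * Real.exp (4 * u s)) := by
  have := h.continuous
  fun_prop

lemma hasDerivAt_m (h : ContDiff ℝ 4 u) (r : ℝ) :
    HasDerivAt (m u) (r ^ 3 * Real.exp (4 * u r)) r :=
  intervalIntegral.integral_hasDerivAt_right ((cont_int h).intervalIntegrable _ _)
    ((cont_int h).stronglyMeasurableAtFilter _ _) (cont_int h).continuousAt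

lemma m_nonneg (_h : ContDiff ℝ 4 u) {r : ℝ} (hr : 0 ≤ r) : 0 ≤ m u r :=
  intervalIntegral.integral_nonneg hr fun s hs => by have := hs.1; positivity

lemma lap1_eq (hs : IsRadialSolution a u) {r : ℝ} (hr : 0 < r) : lap1 u r = -6 * m u r / r ^ 3 := by
  obtain ⟨h, h0, h1, h2, h3, hode⟩ := hs
  set G : ℝ → ℝ := fun r => r ^ 3 * iteratedDeriv 3 u r + 3 * r ^ 2 * iteratedDeriv 2 u r
    - 3 * r * deriv u r + 6 * m u r with hG
  have hGd : ∀ s, 0 < s → HasDerivAt G 0 s := by
    intro s hs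
    have e1 : G =ᶠ[𝓝 s] fun r => r ^ 3 * lap1 u r + 6 * m u r := by
      filter_upwards [lt_mem_nhds hs] with t ht
      have ht' : t ≠ 0 := ht.ne'
      simp only [hG, lap1]
      field_simp
    have e2 := ((hasDerivAt_pow 3 s).mul (hasDerivAt_lap1 h hs.ne')).add
      ((hasDerivAt_m h s).const_mul 6)
    have e3 := hode s hs
    have e4 : deriv (lap u) s = lap1 u s := (hasDerivAt_lap h hs.ne').deriv
    rw [lap, e4] at e3
    have e5 : iteratedDeriv 2 (lap u) s = -6 * Real.exp (4 * u s) - 3 / s * lap1 u s := by linarith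
    refine (e2.congr_of_eventuallyEq e1).congr_deriv ?_
    rw [e5]
    have hs' : s ≠ 0 := hs.ne'
    push_cast
    field_simp
    ring
  have hGc : Continuous G := by
    have c1 := hc h 3 (by norm_num)
    have c2 := hc h 2 (by norm_num)
    have c3 := hc h 1 (by norm_num)
    rw [iteratedDeriv_one] at c3
    have c4 : Continuous (m u) := continuous_iff_continuousAt.2 fun s => (hasDerivAt_m h s).continuousAt
    simp only [hG]
    fun_prop
  have hG0 : G 0 = 0 := by simp [hG, m]
  have hconst : G r = G 0 := by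
    have hdiff : DifferentiableOn ℝ G (interior (Icc 0 r)) := by
      intro s hs
      rw [interior_Icc] at hs
      exact (hGd s hs.1).differentiableAt.differentiableWithinAt
    have hder : ∀ s ∈ interior (Icc 0 r), deriv G s = 0 := by
      intro s hs
      rw [interior_Icc] at hs
      exact (hGd s hs.1).deriv
    have m1 := monotoneOn_of_deriv_nonneg (convex_Icc 0 r) hGc.continuousOn hdiff
      (fun s hs => (hder s hs).ge)
    have m2 := antitoneOn_of_deriv_nonpos (convex_Icc 0 r) hGc.continuousOn hdiff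
      (fun s hs => (hder s hs).le)
    have z0 : (0:ℝ) ∈ Icc 0 r := left_mem_Icc.2 hr.le
    have z1 : r ∈ Icc 0 r := right_mem_Icc.2 hr.le
    exact le_antisymm (m2 z0 z1 hr.le) (m1 z0 z1 hr.le)
  rw [hG0] at hconst
  have hr' : r ≠ 0 := hr.ne'
  simp only [hG] at hconst
  rw [lap1]
  field_simp
  linarith

lemma tendsto_lap (hs : IsRadialSolution a u) : Tendsto (lap u) (𝓝[>] 0) (𝓝 (4 * a)) := by
  obtain ⟨h, h0, h1, h2, h3, hode⟩ := hs
  have t1 : Tendsto (iteratedDeriv 2 u) (𝓝[>] 0) (𝓝 a) := by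
    have := (hc h 2 (by norm_num)).tendsto 0
    rw [h2] at this
    exact this.mono_left nhdsWithin_le_nhds
  have t2 : Tendsto (fun r => 3 / r * deriv u r) (𝓝[>] 0) (𝓝 (3 * a)) := by
    have e1 := hd h 1 (by norm_num) 0
    rw [iteratedDeriv_one, show (1:ℕ) + 1 = 2 from rfl, h2, hasDerivAt_iff_tendsto_slope] at e1
    have e2 := (e1.mono_left (nhdsWithin_mono 0 (fun x (hx : 0 < x) => (ne_of_gt hx : x ≠ 0)))).const_mul 3
    refine e2.congr' ?_
    filter_upwards [self_mem_nhdsWithin] with r hr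
    rw [slope_def_field, h1]
    have : r ≠ 0 := ne_of_gt hr
    field_simp
    ring
  have := t1.add t2
  rw [show a + 3 * a = 4 * a by ring] at this
  exact this

lemma hasDerivAt_lap' (hs : IsRadialSolution a u) {r : ℝ} (hr : 0 < r) :
    HasDerivAt (lap u) (-6 * m u r / r ^ 3) r := by
  rw [← lap1_eq hs hr]
  exact hasDerivAt_lap hs.1 hr.ne'

/-- Monotonicity from nonnegativity of the derivative on the open half line. -/
lemma mono_Ioi {f f' : ℝ → ℝ} (hf : ∀ r, 0 < r → HasDerivAt f (f' r) r)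
    (hf' : ∀ r, 0 < r → 0 ≤ f' r) : MonotoneOn f (Ioi 0) := by
  apply monotoneOn_of_deriv_nonneg (convex_Ioi 0)
  · exact fun r hr => (hf r hr).continuousAt.continuousWithinAt
  · rw [interior_Ioi]
    exact fun r hr => (hf r hr).differentiableAt.differentiableWithinAt
  · rw [interior_Ioi]
    intro r hr
    rw [(hf r hr).deriv]
    exact hf' r hr

lemma anti_lap (hs : IsRadialSolution a u) : AntitoneOn (lap u) (Ioi 0) := by
  have := mono_Ioi (f := fun r => - lap u r) (f' := fun r => -(-6 * m u r / r ^ 3))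
    (fun r hr => (hasDerivAt_lap' hs hr).neg)
    (fun r hr => by
      have := m_nonneg hs.1 hr.le
      have : 0 ≤ 6 * m u r / r ^ 3 := by positivity
      have e : -(-6 * m u r / r ^ 3) = 6 * m u r / r ^ 3 := by ring
      rw [e]; exact this)
  intro x hx y hy hxy
  have := this hx hy hxy
  simp only at this
  linarith

lemma lap_le (hs : IsRadialSolution a u) {r : ℝ} (hr : 0 < r) : lap u r ≤ 4 * a := by
  refine ge_of_tendsto (tendsto_lap hs) ?_
  filter_upwards [Ioo_mem_nhdsGT hr] with s hs'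
  exact anti_lap hs hs'.1 hr hs'.2.le

lemma hasDerivAt_A (h : ContDiff ℝ 4 u) {r : ℝ} (hr : 0 < r) :
    HasDerivAt (fun r => r ^ 3 * deriv u r) (r ^ 3 * lap u r) r := by
  have h1 := hd h 1 (by norm_num) r
  rw [iteratedDeriv_one] at h1
  refine ((hasDerivAt_pow 3 r).mul h1).congr_deriv ?_
  have : r ≠ 0 := hr.ne'
  rw [lap]
  push_cast
  field_simp
  ring

lemma cont_deriv (h : ContDiff ℝ 4 u) : Continuous (deriv u) := by
  have := hc h 1 (by norm_num)
  rwa [iteratedDeriv_one] at this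

lemma deriv_le (hs : IsRadialSolution a u) {r : ℝ} (hr : 0 < r) : deriv u r ≤ a * r := by
  have h := hs.1
  have hc1 := cont_deriv h
  have := mono_Ici (f := fun r => a * r ^ 4 - r ^ 3 * deriv u r) (by fun_prop)
    (fun s hs' => ((hasDerivAt_pow 4 s).const_mul a).sub (hasDerivAt_A h hs')) (fun s hs' => by
      have e := lap_le hs hs'
      have e3 : 0 < s ^ 3 := pow_pos hs' 3
      push_cast
      nlinarith) hr.le
  norm_num at this
  have e3 : 0 < r ^ 3 := pow_pos hr 3
  have : r ^ 3 * deriv u r ≤ r ^ 3 * (a * r) := by nlinarith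
  exact le_of_mul_le_mul_left this e3

lemma u_le (hs : IsRadialSolution a u) {r : ℝ} (hr : 0 ≤ r) : u r ≤ a * r ^ 2 / 2 := by
  have h := hs.1
  have h0 := hs.2.1
  have hdu : ∀ s, HasDerivAt u (deriv u s) s := fun s =>
    ((h.differentiable (by norm_num)) s).hasDerivAt
  have hcu := h.continuous
  have := mono_Ici (f := fun r => a * r ^ 2 / 2 - u r) (by fun_prop)
    (fun s hs' => (((hasDerivAt_pow 2 s).const_mul a).div_const 2).sub (hdu s)) (fun s hs' => by
      have e := deriv_le hs hs'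
      push_cast
      norm_num
      linarith) hr
  simp only [h0] at this
  norm_num at this
  linarith

lemma m_le (ha : 0 ≤ a) (hs : IsRadialSolution a u) {r : ℝ} (hr : 0 ≤ r) :
    m u r ≤ r ^ 4 / 4 * Real.exp (2 * a * r ^ 2) := by
  have e1 : m u r ≤ ∫ s in (0:ℝ)..r, s ^ 3 * Real.exp (2 * a * r ^ 2) := by
    apply intervalIntegral.integral_mono_on hr ((cont_int hs.1).intervalIntegrable _ _)
    · exact (by fun_prop : Continuous fun s : ℝ => s ^ 3 * Real.exp (2 * a * r ^ 2)).intervalIntegrable _ _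
    · intro s hs'
      have h3 : 0 ≤ s ^ 3 := pow_nonneg hs'.1 3
      apply mul_le_mul_of_nonneg_left _ h3
      apply Real.exp_le_exp.2
      have := u_le hs hs'.1
      have h4 : s ^ 2 ≤ r ^ 2 := pow_le_pow_left₀ hs'.1 hs'.2 2
      nlinarith
  have e2 : ∫ s in (0:ℝ)..r, s ^ 3 * Real.exp (2 * a * r ^ 2) = r ^ 4 / 4 * Real.exp (2 * a * r ^ 2) := by
    rw [intervalIntegral.integral_mul_const, integral_pow]
    norm_num
  linarith

lemma lap_ge1 (ha : 0 < a) (hs : IsRadialSolution a u) {r : ℝ} (hr : 0 < r) :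
    4 * a + 3 / (8 * a) - 3 / (8 * a) * Real.exp (2 * a * r ^ 2) ≤ lap u r := by
  have hdg : ∀ s, 0 < s → HasDerivAt (fun r => lap u r + 3 / (8 * a) * Real.exp (2 * a * r ^ 2))
      (-6 * m u s / s ^ 3 + 3 / (8 * a) * (Real.exp (2 * a * s ^ 2) * (2 * a * (2 * s)))) s := by
    intro s hs'
    have e1 : HasDerivAt (fun r : ℝ => 2 * a * r ^ 2) (2 * a * (2 * s)) s := by
      simpa using (hasDerivAt_pow 2 s).const_mul (2 * a)
    exact (hasDerivAt_lap' hs hs').add (e1.exp.const_mul _)
  have hm : MonotoneOn (fun r => lap u r + 3 / (8 * a) * Real.exp (2 * a * r ^ 2)) (Ioi 0) := by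
    apply mono_Ioi hdg
    intro s hs'
    have e := m_le ha.le hs hs'.le
    have e3 : 0 < s ^ 3 := pow_pos hs' 3
    have e4 : 6 * m u s / s ^ 3 ≤ 3 / 2 * s * Real.exp (2 * a * s ^ 2) := by
      rw [div_le_iff₀ e3]
      nlinarith
    have e5 : 3 / (8 * a) * (Real.exp (2 * a * s ^ 2) * (2 * a * (2 * s))) =
        3 / 2 * s * Real.exp (2 * a * s ^ 2) := by
      field_simp
      ring
    rw [e5]
    have e6 : -6 * m u s / s ^ 3 = -(6 * m u s / s ^ 3) := by ring
    rw [e6]
    linarith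
  have hlim : Tendsto (fun r => lap u r + 3 / (8 * a) * Real.exp (2 * a * r ^ 2)) (𝓝[>] 0)
      (𝓝 (4 * a + 3 / (8 * a))) := by
    have c : Continuous fun r : ℝ => 3 / (8 * a) * Real.exp (2 * a * r ^ 2) := by fun_prop
    have := (tendsto_lap hs).add ((c.tendsto 0).mono_left nhdsWithin_le_nhds)
    simpa using this
  have : 4 * a + 3 / (8 * a) ≤ lap u r + 3 / (8 * a) * Real.exp (2 * a * r ^ 2) := by
    refine le_of_tendsto hlim ?_
    filter_upwards [Ioo_mem_nhdsGT hr] with s hs'
    exact hm hs'.1 hr hs'.2.le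
  linarith

lemma lap_ge2 (hs : IsRadialSolution a u) {C : ℝ} (hC : ∀ r, 0 < r → m u r ≤ C)
    {r s : ℝ} (hr : 0 < r) (hrs : r ≤ s) : lap u r - 3 * C / r ^ 2 ≤ lap u s - 3 * C / s ^ 2 := by
  have hdg : ∀ s, 0 < s → HasDerivAt (fun r => lap u r - 3 * C / r ^ 2)
      (-6 * m u s / s ^ 3 - -(6 * C / s ^ 3)) s := by
    intro s hs'
    have hs'' : s ≠ 0 := hs'.ne'
    have e1 : HasDerivAt (fun r : ℝ => 3 * C / r ^ 2) (-(6 * C / s ^ 3)) s := by
      have := (hasDerivAt_const s (3 * C)).div (hasDerivAt_pow 2 s) (pow_ne_zero 2 hs'')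
      refine this.congr_deriv ?_
      push_cast
      field_simp
      ring
    exact (hasDerivAt_lap' hs hs').sub e1
  have hm : MonotoneOn (fun r => lap u r - 3 * C / r ^ 2) (Ioi 0) := by
    apply mono_Ioi hdg
    intro s hs'
    have e3 : 0 < s ^ 3 := pow_pos hs' 3
    have e4 : 6 * m u s / s ^ 3 ≤ 6 * C / s ^ 3 := by
      apply div_le_div_of_nonneg_right _ e3.le
      linarith [hC s hs']
    have e6 : -6 * m u s / s ^ 3 = -(6 * m u s / s ^ 3) := by ring
    rw [e6]
    linarith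
  exact hm hr (lt_of_lt_of_le hr hrs) hrs

lemma exists_m_gt (ha : 1 < a) (hs : IsRadialSolution a u) :
    ∃ r, 0 < r ∧ 1 / 3 * Real.log a < m u r := by
  by_contra hcon
  push Not at hcon
  set C := 1 / 3 * Real.log a with hCdef
  have ha0 : 0 < a := by linarith
  have hC0 : 0 < C := by have := Real.log_pos ha; positivity
  have h := hs.1
  -- the splitting radius
  set r₀ := Real.sqrt (3 * C / a) with hr₀
  have hr0sq : r₀ ^ 2 = 3 * C / a := Real.sq_sqrt (by positivity)
  have hr0 : 0 < r₀ := Real.sqrt_pos.2 (by positivity)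
  have hw0 : a < lap u r₀ := by
    have e1 := lap_ge1 ha0 hs hr0
    have e2 : 2 * a * r₀ ^ 2 = 2 * Real.log a := by
      rw [hr0sq, hCdef]
      field_simp
    have e3 : Real.exp (2 * Real.log a) = a ^ 2 := by
      rw [two_mul, Real.exp_add, Real.exp_log ha0]; ring
    rw [e2, e3] at e1
    have e4 : 3 / (8 * a) * a ^ 2 = 3 / 8 * a := by field_simp
    rw [e4] at e1
    have e5 : 0 < 3 / (8 * a) := by positivity
    linarith
  have hw : ∀ r, 0 < r → 0 < lap u r := by
    intro r hr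
    rcases le_total r r₀ with hle | hle
    · have := anti_lap hs hr hr0 hle
      linarith
    · have e1 := lap_ge2 hs hcon hr0 hle
      have e2 : 3 * C / r₀ ^ 2 = a := by
        rw [hr0sq]; field_simp
      rw [e2] at e1
      have e3 : 0 < 3 * C / r ^ 2 := by positivity
      linarith
  have hdu : ∀ s, HasDerivAt u (deriv u s) s := fun s =>
    ((h.differentiable (by norm_num)) s).hasDerivAt
  have hc1 := cont_deriv h
  have hpos : ∀ r, 0 < r → 0 ≤ deriv u r := by
    intro r hr
    have := mono_Ici (f := fun r => r ^ 3 * deriv u r) (by fun_prop)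
      (fun s hs' => hasDerivAt_A h hs') (fun s hs' => (mul_pos (pow_pos hs' 3) (hw s hs')).le) hr.le
    norm_num at this
    exact nonneg_of_mul_nonneg_right this (pow_pos hr 3)
  have hu0 : ∀ r, 0 ≤ r → 0 ≤ u r := by
    intro r hr
    have := mono_Ici (f := u) h.continuous (fun s _ => hdu s) hpos hr
    rw [hs.2.1] at this
    exact this
  have hm4 : ∀ r, 0 < r → r ^ 4 / 4 ≤ m u r := by
    intro r hr
    have e2 : ∫ s in (0:ℝ)..r, s ^ 3 = r ^ 4 / 4 := by
      rw [integral_pow]; norm_num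
    rw [← e2]
    apply intervalIntegral.integral_mono_on hr.le
      ((by fun_prop : Continuous fun s : ℝ => s ^ 3).intervalIntegrable _ _)
      ((cont_int hs.1).intervalIntegrable _ _)
    intro s hs'
    have h3 : 0 ≤ s ^ 3 := pow_nonneg hs'.1 3
    have := Real.one_le_exp (by linarith [hu0 s hs'.1] : 0 ≤ 4 * u s)
    nlinarith
  have h1 := hm4 (2 * (1 + C)) (by positivity)
  have h2 := hcon (2 * (1 + C)) (by positivity)
  have h3 : (2 * (1 + C)) ^ 4 / 4 = 4 * (1 + C) ^ 4 := by ring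
  have h4 : 1 + C ≤ (1 + C) ^ 4 := by
    have : (1:ℝ) ≤ 1 + C := by linarith
    exact le_self_pow₀ this (by norm_num)
  linarith

/-- The volume of the metric. -/
noncomputable def V (u : ℝ → ℝ) : ENNReal :=
  ∫⁻ x : EuclideanSpace ℝ (Fin 4), ENNReal.ofReal (Real.exp (4 * u ‖x‖))

lemma V_ge (h : ContDiff ℝ 4 u) {r : ℝ} (hr : 0 < r) :
    ENNReal.ofReal (2 * Real.pi ^ 2 * m u r) ≤ V u := by
  unfold V
  set f : ℝ → ℝ := fun t => Real.exp (4 * u t) with hf
  have hfc : Continuous f := by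
    have := h.continuous
    fun_prop
  have hfn : Continuous fun x : EuclideanSpace ℝ (Fin 4) => f ‖x‖ := hfc.comp continuous_norm
  have hint : IntegrableOn (fun x : EuclideanSpace ℝ (Fin 4) => f ‖x‖) (Metric.ball 0 r) :=
    (hfn.continuousOn.integrableOn_compact (isCompact_closedBall 0 r)).mono_set
      Metric.ball_subset_closedBall
  have e1 : ∫⁻ x in Metric.ball (0 : EuclideanSpace ℝ (Fin 4)) r, ENNReal.ofReal (f ‖x‖) =
      ENNReal.ofReal (∫ x in Metric.ball (0 : EuclideanSpace ℝ (Fin 4)) r, f ‖x‖) := by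
    rw [ofReal_integral_eq_lintegral_ofReal hint]
    exact Eventually.of_forall fun x => (Real.exp_pos _).le
  have e2 : ∫ x in Metric.ball (0 : EuclideanSpace ℝ (Fin 4)) r, f ‖x‖ =
      ∫ x : EuclideanSpace ℝ (Fin 4), (Iio r).indicator f ‖x‖ := by
    rw [← integral_indicator Metric.isOpen_ball.measurableSet]
    congr 1
    ext x
    simp [indicator]
  have e3 := integral_fun_norm_addHaar (volume : Measure (EuclideanSpace ℝ (Fin 4)))
    ((Iio r).indicator f)
  have e4 : ∫ y in Ioi (0:ℝ), y ^ (Module.finrank ℝ (EuclideanSpace ℝ (Fin 4)) - 1) •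
      (Iio r).indicator f y = m u r := by
    rw [m, intervalIntegral.integral_of_le hr.le, ← integral_indicator measurableSet_Ioi,
      integral_Ioc_eq_integral_Ioo, ← integral_indicator measurableSet_Ioo]
    congr 1
    ext x
    simp only [indicator, finrank_euclideanSpace, Fintype.card_fin, mem_Ioi, mem_Iio, mem_Ioo,
      smul_eq_mul, mul_ite, mul_zero, hf]
    by_cases h1 : 0 < x <;> by_cases h2 : x < r <;> simp [h1, h2]
  have e5 : (volume : Measure (EuclideanSpace ℝ (Fin 4))).real (Metric.ball 0 1) =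
      Real.pi ^ 2 / 2 := by
    rw [Measure.real, InnerProductSpace.volume_ball_of_dim_even (k := 2) (by simp)]
    simp [Nat.factorial]
    positivity
  calc ENNReal.ofReal (2 * Real.pi ^ 2 * m u r)
      = ENNReal.ofReal (∫ x in Metric.ball (0 : EuclideanSpace ℝ (Fin 4)) r, f ‖x‖) := by
        rw [e2, e3, e4, e5]
        congr 1
        simp only [finrank_euclideanSpace, Fintype.card_fin, smul_eq_mul, nsmul_eq_mul]
        push_cast
        ring
    _ = ∫⁻ x in Metric.ball (0 : EuclideanSpace ℝ (Fin 4)) r, ENNReal.ofReal (f ‖x‖) := e1.symm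
    _ ≤ _ := setLIntegral_le_lintegral _ _

theorem V_log (ha : 1 < a) (hs : IsRadialSolution a u) :
    ENNReal.ofReal (2 * Real.pi ^ 2 / 3 * Real.log a) ≤ V u := by
  obtain ⟨r, hr, hm⟩ := exists_m_gt ha hs
  refine le_trans (ENNReal.ofReal_le_ofReal ?_) (V_ge hs.1 hr)
  have : 0 < 2 * Real.pi ^ 2 := by positivity
  nlinarith

theorem tendsto_V (U : ℝ → ℝ → ℝ) (hU : ∀ᶠ a in atTop, IsRadialSolution a (U a)) :
    Tendsto (fun a => V (U a)) atTop (𝓝 ⊤) := by
  have h1 : Tendsto (fun a : ℝ => ENNReal.ofReal (2 * Real.pi ^ 2 / 3 * Real.log a)) atTop (𝓝 ⊤) := by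
    apply ENNReal.tendsto_ofReal_nhds_top.2
    exact Real.tendsto_log_atTop.const_mul_atTop (by positivity)
  refine tendsto_nhds_top_mono h1 ?_
  filter_upwards [hU, eventually_gt_atTop 1] with a ha ha1
  exact V_log ha1 ha

end

end Pool.Agent.Q174.RadVol
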