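import Mathlib

/-!
# Linear independence of translates of a nonzero `L²` function
-/

set_option autoImplicit false

open MeasureTheory Complex Filter Topology Set
open scoped Real ComplexConjugate ENNReal

namespace Pool.Agent.Q174.STFT

/-- Translation on `L²(ℝ)`. -/
noncomputable def Tr (p : ℝ) : Lp ℂ 2 (volume : Measure ℝ) →ₗ[ℂ] Lp ℂ 2 (volume : Measure ℝ) :=
  Lp.compMeasurePreservingₗ ℂ (fun t => t - p) (measurePreserving_sub_right volume p)

lemma Tr_coe (p : ℝ) (η : Lp ℂ 2 (volume : Measure ℝ)) :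
    (Tr p η : ℝ → ℂ) =ᵐ[volume] fun t => η (t - p) :=
  Lp.coeFn_compMeasurePreserving η (measurePreserving_sub_right volume p)

lemma norm_Tr (p : ℝ) (η : Lp ℂ 2 (volume : Measure ℝ)) : ‖Tr p η‖ = ‖η‖ :=
  Lp.norm_compMeasurePreserving η (measurePreserving_sub_right volume p)

lemma ae_shift {P : ℝ → Prop} (h : ∀ᵐ t : ℝ, P t) (a : ℝ) : ∀ᵐ t : ℝ, P (t + a) :=
  (measurePreserving_add_right volume a).quasiMeasurePreserving.ae h

/-- A translation-periodic function with finite integral vanishes. -/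
lemma periodic_zero {p : ℝ} (hp : 0 < p) {F : ℝ → ℝ≥0∞} (hF : ∀ᵐ t : ℝ, F (t + p) = F t)
    (hfin : ∫⁻ t, F t ≠ ⊤) : ∫⁻ t, F t = 0 := by
  have hn : ∀ n : ℕ, ∀ᵐ t : ℝ, F (t + n * p) = F t := by
    intro n
    induction n with
    | zero => simp
    | succ n ih =>
      filter_upwards [ih, ae_shift hF (n * p)] with t h1 h2
      rw [← h1, ← h2]
      congr 1
      push_cast
      ring
  have hz : ∀ n : ℤ, ∀ᵐ t : ℝ, F (t + n * p) = F t := by
    intro n
    rcases n.eq_nat_or_neg with ⟨m, rfl | rfl⟩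
    · simpa using hn m
    · have h1 := ae_shift (hn m) (-(m * p))
      filter_upwards [h1] with t ht
      rw [show t + -(m * p) + m * p = t by ring] at ht
      rw [ht]
      congr 1
      push_cast
      ring
  have hd := isAddFundamentalDomain_Ioc hp 0 (μ := (volume : Measure ℝ))
  have h1 := hd.lintegral_eq_tsum'' F
  have h2 : ∀ g : AddSubgroup.zmultiples p, ∫⁻ x in Ioc 0 (0 + p), F (g +ᵥ x) =
      ∫⁻ x in Ioc 0 (0 + p), F x := by
    intro g
    obtain ⟨n, hn⟩ := AddSubgroup.mem_zmultiples_iff.1 g.2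
    refine lintegral_congr_ae (ae_restrict_of_ae ?_)
    filter_upwards [hz n] with t ht
    rw [← ht]
    congr 1
    rw [AddSubgroup.vadd_def, vadd_eq_add, ← hn, zsmul_eq_mul]
    ring
  rw [h1, tsum_congr h2] at hfin ⊢
  have h3 : ∫⁻ x in Ioc 0 (0 + p), F x = 0 := by
    by_contra hne
    have : Infinite (AddSubgroup.zmultiples p) := by
      have : Function.Injective (fun n : ℤ => (⟨n • p, AddSubgroup.zsmul_mem_zmultiples p n⟩ :
          AddSubgroup.zmultiples p)) := by
        intro a b hab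
        have hab' : a • p = b • p := congrArg Subtype.val hab
        rw [zsmul_eq_mul, zsmul_eq_mul] at hab'
        exact_mod_cast mul_right_cancel₀ hp.ne' hab'
      exact Infinite.of_injective _ this
    exact hfin (ENNReal.tsum_const_eq_top_of_ne_zero hne)
  rw [h3]
  simp

lemma eigen_zero {p : ℝ} (hp : 0 < p) (η : Lp ℂ 2 (volume : Measure ℝ)) (lam : ℂ)
    (h : Tr p η = lam • η) : η = 0 := by
  by_contra hne
  have hη : 0 < ‖η‖ := norm_pos_iff.2 hne
  have h1 : ‖lam‖ = 1 := by
    have := norm_Tr p η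
    rw [h, norm_smul] at this
    exact mul_right_cancel₀ hη.ne' (by rw [this, one_mul])
  have h2 : ∀ᵐ t : ℝ, ‖η (t - p)‖ₑ ^ 2 = ‖η t‖ₑ ^ 2 := by
    have h3 := Tr_coe p η
    rw [h] at h3
    have h4 := Lp.coeFn_smul lam η
    filter_upwards [h3, h4] with t h3 h4
    rw [← h3, h4, Pi.smul_apply, smul_eq_mul]
    have : ‖lam * η t‖ₑ = ‖η t‖ₑ := by
      rw [enorm_mul]
      have : ‖lam‖ₑ = 1 := by
        rw [← ofReal_norm, h1, ENNReal.ofReal_one]
      rw [this, one_mul]
    rw [this]
  have h5 : ∀ᵐ t : ℝ, ‖η (t + p)‖ₑ ^ 2 = ‖η t‖ₑ ^ 2 := by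
    filter_upwards [ae_shift h2 p] with t ht
    rw [← ht]
    congr 3
    ring
  have hmem : MemLp η 2 volume := Lp.memLp η
  have hfin : ∫⁻ t, ‖η t‖ₑ ^ 2 ≠ ⊤ := by
    have := hmem.eLpNorm_lt_top
    rw [eLpNorm_lt_top_iff_lintegral_rpow_enorm_lt_top (by norm_num) (by norm_num)] at this
    simp only [ENNReal.toReal_ofNat, ENNReal.rpow_ofNat] at this
    exact this.ne
  have h6 := periodic_zero hp h5 hfin
  rw [lintegral_eq_zero_iff' (by
    have := (Lp.aestronglyMeasurable η).enorm
    exact this.pow_const 2)] at h6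
  apply hne
  rw [Lp.eq_zero_iff_ae_eq_zero]
  filter_upwards [h6] with t ht
  simpa using ht

lemma poly_zero {V : Type*} [AddCommGroup V] [Module ℂ V] (T : Module.End ℂ V)
    (hT : ∀ (lam : ℂ) (w : V), T w = lam • w → w = 0) (n : ℕ) :
    ∀ (P : Polynomial ℂ) (v : V), P.natDegree = n → P ≠ 0 → Polynomial.aeval T P v = 0 → v = 0 := by
  induction n with
  | zero =>
    intro P v hP h0 h
    rw [Polynomial.natDegree_eq_zero] at hP
    obtain ⟨c, rfl⟩ := hP
    have hc : c ≠ 0 := by rintro rfl; simp at h0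
    rw [Polynomial.aeval_C, Module.algebraMap_end_apply] at h
    exact (smul_eq_zero.1 h).resolve_left hc
  | succ n ih =>
    intro P v hP h0 h
    obtain ⟨lam, hlam⟩ := IsAlgClosed.exists_root P (by
      rw [Polynomial.degree_eq_natDegree h0, hP]
      exact_mod_cast (Nat.succ_ne_zero n))
    obtain ⟨Q, rfl⟩ := Polynomial.dvd_iff_isRoot.2 hlam
    have hQ : Q ≠ 0 := right_ne_zero_of_mul h0
    have hdeg : Q.natDegree = n := by
      rw [Polynomial.natDegree_mul (Polynomial.X_sub_C_ne_zero lam) hQ,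
        Polynomial.natDegree_X_sub_C] at hP
      omega
    rw [map_mul, Module.End.mul_apply] at h
    refine ih Q v hdeg hQ (hT lam _ ?_)
    simp only [map_sub, Polynomial.aeval_X, Polynomial.aeval_C, LinearMap.sub_apply,
      Module.algebraMap_end_apply] at h
    exact sub_eq_zero.1 h

/-- The translates of a nonzero `L²` function are linearly independent. -/
lemma indep {ψ : ℝ → ℂ} (hψ : MemLp ψ 2 volume) (hne : ¬ ψ =ᵐ[volume] 0) {p : ℝ} (hp : 0 < p)
    (K : ℕ) (c : ℕ → ℂ)
    (h : (fun t => ∑ k ∈ Finset.range K, c k * ψ (t - k * p)) =ᵐ[volume] 0) :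
    ∀ k, k < K → c k = 0 := by
  set v : Lp ℂ 2 (volume : Measure ℝ) := hψ.toLp ψ with hv
  have hv0 : v ≠ 0 := by
    intro h0
    apply hne
    have h1 := hψ.coeFn_toLp
    rw [← hv, h0] at h1
    exact h1.symm.trans (Lp.coeFn_zero _ _ _)
  have hpow : ∀ k : ℕ, (((Tr p) ^ k) v : ℝ → ℂ) =ᵐ[volume] fun t => ψ (t - k * p) := by
    intro k
    induction k with
    | zero =>
      have := hψ.coeFn_toLp
      simpa using this
    | succ k ih =>
      rw [pow_succ', Module.End.mul_apply]
      have h1 := Tr_coe p (((Tr p) ^ k) v)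
      have h2 := (measurePreserving_sub_right volume p).quasiMeasurePreserving.ae ih
      filter_upwards [h1, h2] with t h1 h2
      rw [h1, h2]
      congr 1
      push_cast
      ring
  set P : Polynomial ℂ := ∑ k ∈ Finset.range K, Polynomial.C (c k) * Polynomial.X ^ k with hP
  have hPv : Polynomial.aeval (Tr p) P v = 0 := by
    have h1 : Polynomial.aeval (Tr p) P v = ∑ k ∈ Finset.range K, c k • ((Tr p) ^ k) v := by
      rw [hP, map_sum, LinearMap.sum_apply]
      refine Finset.sum_congr rfl fun k _ => ?_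
      rw [map_mul, Polynomial.aeval_C, map_pow, Polynomial.aeval_X, Module.End.mul_apply,
        Module.algebraMap_end_apply]
    rw [h1, Lp.eq_zero_iff_ae_eq_zero]
    have h2 : ((∑ k ∈ Finset.range K, c k • ((Tr p) ^ k) v : Lp ℂ 2 (volume : Measure ℝ)) : ℝ → ℂ)
        =ᵐ[volume] fun t => ∑ k ∈ Finset.range K, c k * ψ (t - k * p) := by
      have h3 : ∀ S : Finset ℕ, ((∑ k ∈ S, c k • ((Tr p) ^ k) v :
          Lp ℂ 2 (volume : Measure ℝ)) : ℝ → ℂ)
          =ᵐ[volume] fun t => ∑ k ∈ S, c k * ψ (t - k * p) := by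
        intro S
        induction S using Finset.induction_on with
        | empty =>
          simp only [Finset.sum_empty]
          exact Lp.coeFn_zero ℂ 2 (volume : Measure ℝ)
        | insert a S ha ih =>
          rw [Finset.sum_insert ha]
          filter_upwards [Lp.coeFn_add (c a • ((Tr p) ^ a) v) (∑ k ∈ S, c k • ((Tr p) ^ k) v), ih,
            Lp.coeFn_smul (c a) (((Tr p) ^ a) v), hpow a] with t h1 h2 h3 h4
          rw [h1, Pi.add_apply, h2, h3, Pi.smul_apply, h4, Finset.sum_insert ha, smul_eq_mul]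
      exact h3 _
    exact h2.trans h
  by_contra hcon
  push Not at hcon
  obtain ⟨k, hk, hck⟩ := hcon
  have hPne : P ≠ 0 := by
    intro h0
    apply hck
    have : P.coeff k = c k := by
      rw [hP, Polynomial.finsetSum_coeff]
      simp [Polynomial.coeff_C_mul, Polynomial.coeff_X_pow, hk]
    rw [← this, h0, Polynomial.coeff_zero]
  exact hv0 (poly_zero (Tr p) (fun lam w hw => eigen_zero hp w lam hw) _ P v rfl hPne hPv)

end Pool.Agent.Q174.STFT
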