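import Mathlib
import Pool.Agent.Q174.Lap
import Pool.Agent.Q174.LogC
import Pool.Agent.Q174.GFun

set_option autoImplicit false

open MeasureTheory Laplacian InnerProductSpace Filter Topology Set
open scoped ContDiff

namespace Pool.Agent.Q174.Sol

open Pool.Agent.Q174 Pool.Agent.H314.CS

/-- The developing map. -/
noncomputable def h (κ : ℕ) (μ : ℝ) (z : ℂ) : ℂ := ((μ : ℂ) * z) ^ κ - 1

/-- The denominator. -/
noncomputable def D (κ : ℕ) (μ : ℝ) (z : ℂ) : ℝ := 1 + ‖h κ μ z‖ ^ 2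

/-- The solution. -/
noncomputable def u (N : ℝ) (κ : ℕ) (μ : ℝ) (z : ℂ) : ℝ :=
  Real.log (8 * κ ^ 2 * μ ^ (2 * κ)) + 2 * N * Real.log ‖z‖ - 2 * Real.log (D κ μ z)

lemma D_pos (κ : ℕ) (μ : ℝ) (z : ℂ) : 0 < D κ μ z := by unfold D; positivity

lemma one_le_D (κ : ℕ) (μ : ℝ) (z : ℂ) : 1 ≤ D κ μ z := by
  unfold D; have := sq_nonneg ‖h κ μ z‖; linarith

lemma hasDerivAt_h (κ : ℕ) (μ : ℝ) (z : ℂ) :
    HasDerivAt (h κ μ) ((κ : ℂ) * ((μ : ℂ) * z) ^ (κ - 1) * μ) z := by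
  have h1 : HasDerivAt (fun z : ℂ => (μ : ℂ) * z) (μ : ℂ) z := by
    simpa using (hasDerivAt_id z).const_mul (μ : ℂ)
  exact (h1.pow κ).sub_const 1

lemma differentiable_h' (κ : ℕ) (μ : ℝ) :
    Differentiable ℂ (fun z : ℂ => (κ : ℂ) * ((μ : ℂ) * z) ^ (κ - 1) * μ) := by
  fun_prop

lemma contDiff_normSq_h (κ : ℕ) (μ : ℝ) {n : WithTop ℕ∞} : ContDiff ℝ n (D κ μ) := by
  unfold D h
  have h1 : ContDiff ℝ n (fun z : ℂ => ((μ : ℂ) * z) ^ κ - 1) := by fun_prop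
  exact contDiff_const.add (h1.norm_sq ℝ)

lemma contDiff_logD (κ : ℕ) (μ : ℝ) {n : WithTop ℕ∞} :
    ContDiff ℝ n (fun z => Real.log (D κ μ z)) :=
  (contDiff_normSq_h κ μ).log fun z => (D_pos κ μ z).ne'

lemma laplacian_logOne (w : ℂ) :
    Δ (fun w : ℂ => Real.log (1 + ‖w‖ ^ 2)) w = 4 / (1 + ‖w‖ ^ 2) ^ 2 := by
  have := LL.laplacian_comp_normSq (E := ℂ) (x := w) (U := fun s => Real.log (1 + s))
    (U' := fun s => (1 + s)⁻¹) (U'' := fun s => -((1 + s) ^ 2)⁻¹) ?_ ?_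
  · rw [this, Complex.finrank_real_complex]
    have h0 : (1 + ‖w‖ ^ 2) ≠ 0 := by positivity
    field_simp
    push_cast
    ring
  · have h1 : ∀ᶠ s in 𝓝 (‖w‖ ^ 2), 0 < 1 + s := by
      have h1 : Continuous fun s : ℝ => 1 + s := by fun_prop
      exact h1.continuousAt.eventually (lt_mem_nhds (by positivity))
    filter_upwards [h1] with s hs
    have := ((hasDerivAt_id s).const_add 1).log (by simpa using hs.ne')
    simpa [one_div] using this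
  · have h2 : 1 + ‖w‖ ^ 2 ≠ 0 := by positivity
    have h3 : HasDerivAt (fun s : ℝ => 1 + s) 1 (‖w‖ ^ 2) := (hasDerivAt_id (‖w‖ ^ 2)).const_add _
    refine (h3.inv h2).congr_deriv ?_
    field_simp

lemma laplacian_logD (κ : ℕ) (μ : ℝ) (z : ℂ) :
    Δ (fun z => Real.log (D κ μ z)) z =
      4 * ‖(κ : ℂ) * ((μ : ℂ) * z) ^ (κ - 1) * μ‖ ^ 2 / (D κ μ z) ^ 2 := by
  have hΦ : ContDiff ℝ 2 (fun w : ℂ => Real.log (1 + ‖w‖ ^ 2)) := by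
    refine ContDiff.log (contDiff_const.add (contDiff_norm_sq ℝ)) fun w => ?_
    positivity
  have := laplacian_comp_hol (Φ := fun w : ℂ => Real.log (1 + ‖w‖ ^ 2)) (F := h κ μ)
    (F' := fun z : ℂ => (κ : ℂ) * ((μ : ℂ) * z) ^ (κ - 1) * μ) (z := z) hΦ.contDiffAt
    (Eventually.of_forall fun y => hasDerivAt_h κ μ y) (differentiable_h' κ μ z).hasDerivAt
  have e : (fun z => Real.log (D κ μ z)) = fun y => (fun w : ℂ => Real.log (1 + ‖w‖ ^ 2)) (h κ μ y) := rfl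
  rw [e, this, laplacian_logOne]
  unfold D
  ring

lemma exp_u {N : ℝ} {κ : ℕ} {μ : ℝ} (hκ : κ ≠ 0) (hμ : 0 < μ) {z : ℂ} (hz : z ≠ 0) :
    Real.exp (u N κ μ z) = 8 * κ ^ 2 * μ ^ (2 * κ) * ‖z‖ ^ (2 * N) / (D κ μ z) ^ 2 := by
  have hzp : 0 < ‖z‖ := norm_pos_iff.2 hz
  have hκp : 0 < (κ : ℝ) := by positivity
  unfold u
  rw [Real.exp_sub, Real.exp_add, Real.exp_log (by positivity), Real.rpow_def_of_pos hzp]
  have : Real.exp (2 * Real.log (D κ μ z)) = (D κ μ z) ^ 2 := by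
    rw [two_mul, Real.exp_add, Real.exp_log (D_pos κ μ z)]; ring
  rw [this, mul_comm (Real.log ‖z‖) (2 * N)]

lemma three_D (κ : ℕ) {μ : ℝ} (hμ : 0 < μ) (z : ℂ) :
    1 + (μ * ‖z‖) ^ (2 * κ) ≤ 3 * D κ μ z := by
  have h1 : |‖((μ : ℂ) * z) ^ κ‖ - ‖(1 : ℂ)‖| ≤ ‖h κ μ z‖ := abs_norm_sub_norm_le _ _
  have h2 : ‖((μ : ℂ) * z) ^ κ‖ = (μ * ‖z‖) ^ κ := by
    rw [norm_pow, norm_mul, Complex.norm_real, Real.norm_eq_abs, abs_of_pos hμ]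
  rw [h2, norm_one] at h1
  have h3 : ((μ * ‖z‖) ^ κ - 1) ^ 2 ≤ ‖h κ μ z‖ ^ 2 := by
    rw [← sq_abs ((μ * ‖z‖) ^ κ - 1)]
    exact pow_le_pow_left₀ (abs_nonneg _) h1 2
  have h4 : (μ * ‖z‖) ^ (2 * κ) = ((μ * ‖z‖) ^ κ) ^ 2 := by rw [← pow_mul, mul_comm 2 κ]
  unfold D
  rw [h4]
  nlinarith [sq_nonneg ((μ * ‖z‖) ^ κ - 3 / 2)]

lemma u_le {N : ℝ} {κ : ℕ} {μ : ℝ} (hN : 0 ≤ N) (hκ : N < κ) (hμ : 0 < μ)
    (hμ2 : 24 * κ ^ 2 * μ ^ (2 * ((κ : ℝ) - N)) ≤ Real.exp (-1)) {z : ℂ} (hz : z ≠ 0) :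
    u N κ μ z ≤ -1 := by
  have hκp : 0 < (κ : ℝ) := lt_of_le_of_lt hN hκ
  have hκ0 : κ ≠ 0 := by exact_mod_cast hκp.ne'
  rw [← Real.exp_le_exp, exp_u hκ0 hμ hz]
  have hzp : 0 < ‖z‖ := norm_pos_iff.2 hz
  have hx : 0 < μ * ‖z‖ := by positivity
  have hD := D_pos κ μ z
  have hD1 := one_le_D κ μ z
  rw [div_le_iff₀ (by positivity)]
  have e1 : μ ^ (2 * κ) * ‖z‖ ^ (2 * N) = μ ^ (2 * ((κ : ℝ) - N)) * (μ * ‖z‖) ^ (2 * N) := by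
    rw [Real.mul_rpow hμ.le hzp.le, ← mul_assoc, ← Real.rpow_add hμ, ← Real.rpow_natCast]
    congr 2
    push_cast
    ring
  have e2 : (μ * ‖z‖) ^ (2 * N) ≤ 1 + (μ * ‖z‖) ^ (2 * κ) := by
    rcases le_total (μ * ‖z‖) 1 with h1 | h1
    · have : (μ * ‖z‖) ^ (2 * N) ≤ 1 := Real.rpow_le_one hx.le h1 (by linarith)
      have : 0 < (μ * ‖z‖) ^ (2 * κ) := by positivity
      linarith
    · have : (μ * ‖z‖) ^ (2 * N) ≤ (μ * ‖z‖) ^ ((2 * κ : ℕ) : ℝ) := by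
        refine Real.rpow_le_rpow_of_exponent_le h1 ?_
        push_cast
        linarith
      rw [Real.rpow_natCast] at this
      linarith
  have e3 := three_D κ hμ z
  have e4 : 0 < μ ^ (2 * ((κ : ℝ) - N)) := by positivity
  calc 8 * (κ : ℝ) ^ 2 * μ ^ (2 * κ) * ‖z‖ ^ (2 * N)
      = 8 * κ ^ 2 * (μ ^ (2 * ((κ : ℝ) - N)) * (μ * ‖z‖) ^ (2 * N)) := by rw [← e1]; ring
    _ ≤ 8 * κ ^ 2 * (μ ^ (2 * ((κ : ℝ) - N)) * (3 * D κ μ z)) := by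
        gcongr
        linarith
    _ = 24 * κ ^ 2 * μ ^ (2 * ((κ : ℝ) - N)) * D κ μ z := by ring
    _ ≤ Real.exp (-1) * D κ μ z := by gcongr
    _ ≤ Real.exp (-1) * (D κ μ z) ^ 2 := by
        refine mul_le_mul_of_nonneg_left ?_ (Real.exp_pos _).le
        nlinarith

/-- The source term. -/
lemma source {N : ℝ} {κ : ℕ} {μ : ℝ} (hN : 0 ≤ N) (hκ : N < κ) (hμ : 0 < μ)
    (hμ2 : 24 * κ ^ 2 * μ ^ (2 * ((κ : ℝ) - N)) ≤ Real.exp (-1)) {z : ℂ} (hz : z ≠ 0) :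
    ‖z‖ ^ (2 * ((κ : ℝ) - 1 - N)) * GF.g (Real.log (Real.exp (u N κ μ z))) =
      8 * ‖(κ : ℂ) * ((μ : ℂ) * z) ^ (κ - 1) * μ‖ ^ 2 / (D κ μ z) ^ 2 := by
  have hκp : 0 < (κ : ℝ) := lt_of_le_of_lt hN hκ
  have hκ0 : κ ≠ 0 := by exact_mod_cast hκp.ne'
  have hzp : 0 < ‖z‖ := norm_pos_iff.2 hz
  obtain ⟨k, rfl⟩ : ∃ k, κ = k + 1 := ⟨κ - 1, by omega⟩
  rw [Real.log_exp, GF.g_of_le (u_le hN hκ hμ hμ2 hz), exp_u hκ0 hμ hz]
  have e1 : ‖z‖ ^ (2 * (((k + 1 : ℕ) : ℝ) - 1 - N)) * ‖z‖ ^ (2 * N) = ‖z‖ ^ (2 * k) := by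
    rw [← Real.rpow_add hzp, ← Real.rpow_natCast]
    congr 1
    push_cast
    ring
  have e2 : ‖((k + 1 : ℕ) : ℂ) * ((μ : ℂ) * z) ^ (k + 1 - 1) * μ‖ =
      ((k + 1 : ℕ) : ℝ) * (μ * ‖z‖) ^ k * μ := by
    rw [norm_mul, norm_mul, norm_pow, norm_mul, Complex.norm_real, Real.norm_eq_abs,
      abs_of_pos hμ, Complex.norm_natCast]
    simp
  rw [e2, ← mul_div_assoc]
  congr 1
  calc ‖z‖ ^ (2 * (((k + 1 : ℕ) : ℝ) - 1 - N)) *
        (8 * ((k + 1 : ℕ) : ℝ) ^ 2 * μ ^ (2 * (k + 1)) * ‖z‖ ^ (2 * N))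
      = 8 * ((k + 1 : ℕ) : ℝ) ^ 2 * μ ^ (2 * (k + 1)) *
        (‖z‖ ^ (2 * (((k + 1 : ℕ) : ℝ) - 1 - N)) * ‖z‖ ^ (2 * N)) := by ring
    _ = 8 * ((k + 1 : ℕ) : ℝ) ^ 2 * μ ^ (2 * (k + 1)) * ‖z‖ ^ (2 * k) := by rw [e1]
    _ = 8 * (((k + 1 : ℕ) : ℝ) * (μ * ‖z‖) ^ k * μ) ^ 2 := by ring

lemma continuous_src (κ : ℕ) (μ : ℝ) :
    Continuous fun z : ℂ => 8 * ‖(κ : ℂ) * ((μ : ℂ) * z) ^ (κ - 1) * μ‖ ^ 2 / (D κ μ z) ^ 2 := by
  have h1 : Continuous (D κ μ) := (contDiff_normSq_h κ μ (n := 0)).continuous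
  refine Continuous.div (by fun_prop) (h1.pow 2) fun z => ?_
  have := D_pos κ μ z
  positivity

lemma ae_ne_zero : ∀ᵐ z : ℂ, z ≠ 0 := by rw [ae_iff]; simp

lemma locInt_u (N : ℝ) (κ : ℕ) (μ : ℝ) : LocallyIntegrable (u N κ μ) := by
  have h1 : LocallyIntegrable (fun z : ℂ => 2 * N * Real.log ‖z‖) := by
    have := (LogC.locInt_log0).smul (2 * N)
    exact this
  have h2 : LocallyIntegrable (fun z : ℂ => Real.log (8 * κ ^ 2 * μ ^ (2 * κ)) -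
      2 * Real.log (D κ μ z)) := by
    refine Continuous.locallyIntegrable ?_
    exact continuous_const.sub (continuous_const.mul (contDiff_logD κ μ (n := 0)).continuous)
  have e : u N κ μ = (fun z : ℂ => Real.log (8 * κ ^ 2 * μ ^ (2 * κ)) -
      2 * Real.log (D κ μ z)) + fun z : ℂ => 2 * N * Real.log ‖z‖ := by
    funext z
    simp only [u, Pi.add_apply]
    ring
  rw [e]
  exact h2.add h1

lemma contDiffOn_u (N : ℝ) (κ : ℕ) (μ : ℝ) {n : WithTop ℕ∞} :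
    ContDiffOn ℝ n (u N κ μ) {0}ᶜ := by
  have h1 : ContDiffOn ℝ n (fun z : ℂ => Real.log ‖z‖) {0}ᶜ := by
    have h2 : ContDiffOn ℝ n (fun z : ℂ => ‖z‖) {0}ᶜ := fun z hz =>
      (contDiffAt_norm ℝ (by simpa using hz)).contDiffWithinAt
    exact h2.log fun z hz => by simpa using hz
  unfold u
  exact (contDiffOn_const.add (contDiffOn_const.mul h1)).sub
    (contDiffOn_const.mul (contDiff_logD κ μ).contDiffOn)

/-- The distributional identity. -/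
lemma weak {N : ℝ} {κ : ℕ} {μ : ℝ} (hN : 0 ≤ N) (hκ : N < κ) (hμ : 0 < μ)
    (hμ2 : 24 * κ ^ 2 * μ ^ (2 * ((κ : ℝ) - N)) ≤ Real.exp (-1)) {φ : ℂ → ℝ}
    (hφ : ContDiff ℝ 2 φ) (hc : HasCompactSupport φ) :
    (∫ z, u N κ μ z * Δ φ z) + ∫ z : ℂ, ‖z‖ ^ (2 * ((κ : ℝ) - 1 - N)) *
        GF.g (Real.log (Real.exp (u N κ μ z))) * φ z = 4 * Real.pi * N * φ 0 := by
  have hΔc := LogC.continuous_laplacian hφ
  have hΔs := LogC.hasCompactSupport_laplacian hφ hc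
  set v : ℂ → ℝ := fun z => Real.log (8 * κ ^ 2 * μ ^ (2 * κ)) - 2 * Real.log (D κ μ z) with hv
  have hvc : ContDiff ℝ 2 v := contDiff_const.sub (contDiff_const.mul (contDiff_logD κ μ))
  have hΔv : ∀ z, Δ v z = -(8 * ‖(κ : ℂ) * ((μ : ℂ) * z) ^ (κ - 1) * μ‖ ^ 2 / (D κ μ z) ^ 2) := by
    intro z
    have e1 : v = (fun _ : ℂ => Real.log (8 * κ ^ 2 * μ ^ (2 * κ))) +
        (-2 : ℝ) • fun z => Real.log (D κ μ z) := by
      funext z; simp only [hv, Pi.add_apply, Pi.smul_apply, smul_eq_mul]; ring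
    have e3 : ContDiffAt ℝ 2 ((-2 : ℝ) • fun z => Real.log (D κ μ z)) z :=
      (contDiff_logD κ μ (n := 2)).contDiffAt.const_smul (-2 : ℝ)
    rw [e1, ContDiffAt.laplacian_add contDiffAt_const e3,
      laplacian_smul (-2 : ℝ) (contDiff_logD κ μ (n := 2)).contDiffAt, laplacian_logD]
    have e2 : Δ (fun _ : ℂ => Real.log (8 * (κ : ℝ) ^ 2 * μ ^ (2 * κ))) z = 0 := by
      rw [laplacian_const]; rfl
    rw [e2]
    simp only [smul_eq_mul]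
    ring
  have h1 : ∫ z, v z * Δ φ z = ∫ z, Δ v z * φ z := LL.green hvc hφ hc
  have h2 : ∫ z : ℂ, Real.log ‖z‖ * Δ φ z = 2 * Real.pi * φ 0 := LogC.integral_log_laplacian hφ hc
  have h3 : ∫ z, u N κ μ z * Δ φ z = (∫ z, v z * Δ φ z) + 2 * N * ∫ z : ℂ, Real.log ‖z‖ * Δ φ z := by
    rw [← integral_const_mul, ← integral_add]
    · refine integral_congr_ae (Eventually.of_forall fun z => ?_)
      simp only [u, hv]
      ring
    · exact (hvc.continuous.mul hΔc).integrable_of_hasCompactSupport hΔs.mul_left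
    · refine Integrable.const_mul ?_ _
      have := LogC.locInt_log0.integrable_smul_right_of_hasCompactSupport hΔc hΔs
      simpa [mul_comm] using this
  have h4 : ∫ z : ℂ, ‖z‖ ^ (2 * ((κ : ℝ) - 1 - N)) *
        GF.g (Real.log (Real.exp (u N κ μ z))) * φ z = -∫ z, Δ v z * φ z := by
    rw [← integral_neg]
    refine integral_congr_ae ?_
    filter_upwards [ae_ne_zero] with z hz
    rw [source hN hκ hμ hμ2 hz, hΔv]
    ring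
  rw [h3, h4, h1, h2]
  ring

lemma not_radial {N : ℝ} {κ : ℕ} {μ : ℝ} (hκ : κ ≠ 0) (hμ : 0 < μ) :
    ¬ ∃ ψ : ℝ → ℝ, ∀ z : ℂ, z ≠ 0 → u N κ μ z = ψ ‖z‖ := by
  rintro ⟨ψ, hψ⟩
  have hμc : (μ : ℂ) ≠ 0 := by exact_mod_cast hμ.ne'
  have hκc : (κ : ℂ) ≠ 0 := by exact_mod_cast hκ
  set z1 : ℂ := (μ : ℂ)⁻¹ with hz1
  set z2 : ℂ := Complex.exp (Real.pi * Complex.I / κ) * (μ : ℂ)⁻¹ with hz2
  have n0 : ‖Complex.exp (Real.pi * Complex.I / κ)‖ = 1 := by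
    have : (Real.pi * Complex.I / κ : ℂ) = ((Real.pi / κ : ℝ) : ℂ) * Complex.I := by
      push_cast; ring
    rw [this, Complex.norm_exp_ofReal_mul_I]
  have n1 : ‖z1‖ = ‖z2‖ := by rw [hz1, hz2, norm_mul, n0, one_mul]
  have n2 : z1 ≠ 0 := inv_ne_zero hμc
  have n3 : z2 ≠ 0 := mul_ne_zero (Complex.exp_ne_zero _) n2
  have e1 := hψ z1 n2
  have e2 := hψ z2 n3
  rw [n1, ← e2] at e1
  have d1 : D κ μ z1 = 1 := by
    simp [D, h, hz1, hμc]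
  have d2 : D κ μ z2 = 5 := by
    have : (μ : ℂ) * z2 = Complex.exp (Real.pi * Complex.I / κ) := by
      rw [hz2]; field_simp
    have h3 : ((μ : ℂ) * z2) ^ κ = -1 := by
      rw [this, ← Complex.exp_nat_mul]
      have : (κ : ℂ) * (Real.pi * Complex.I / κ) = Real.pi * Complex.I := by field_simp
      rw [this, Complex.exp_pi_mul_I]
    unfold D h
    rw [h3]
    norm_num
  unfold u at e1
  rw [d1, d2, n1, Real.log_one] at e1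
  have : Real.log 5 = 0 := by linarith
  have h5 : 0 < Real.log 5 := Real.log_pos (by norm_num)
  linarith

lemma exists_mu {N : ℝ} {κ : ℕ} (hN : 0 ≤ N) (hκ : N < κ) :
    ∃ μ : ℝ, 0 < μ ∧ 24 * κ ^ 2 * μ ^ (2 * ((κ : ℝ) - N)) ≤ Real.exp (-1) := by
  have hκp : 0 < (κ : ℝ) := lt_of_le_of_lt hN hκ
  have ha : 0 < 2 * ((κ : ℝ) - N) := by linarith
  have hb : 0 < Real.exp (-1) / (24 * (κ : ℝ) ^ 2) := by positivity
  refine ⟨(Real.exp (-1) / (24 * (κ : ℝ) ^ 2)) ^ (2 * ((κ : ℝ) - N))⁻¹, by positivity, ?_⟩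
  rw [← Real.rpow_mul hb.le, inv_mul_cancel₀ ha.ne', Real.rpow_one]
  field_simp
  exact le_rfl

end Pool.Agent.Q174.Sol
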