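import Mathlib
import Pool.Agent.Q174.CurveLen
import Pool.Agent.Q174.Lap
import Pool.Agent.H314.CS.Dist

set_option autoImplicit false

open MeasureTheory Laplacian InnerProductSpace Filter Topology Set

namespace Pool.Agent.Q174.Spindle

/-- the smoothing parameter `δ²` -/
noncomputable def d : ℝ := Real.exp (-160)

lemma d_pos : 0 < d := Real.exp_pos _

/-- the argument of the profile -/
noncomputable def yy (x : ℝ) : ℝ := 1 / 20 * Real.log (x + d) + 4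

/-- the profile -/
noncomputable def h (x : ℝ) : ℝ := -(1 / 2) * Real.log (x + d) - Real.log (Real.cosh (yy x))

noncomputable def h1 (x : ℝ) : ℝ :=
  -(1 / 2) * (x + d)⁻¹ * (1 + 1 / 10 * (Real.sinh (yy x) / Real.cosh (yy x)))

noncomputable def h2 (x : ℝ) : ℝ :=
  1 / 2 * ((x + d) ^ 2)⁻¹ * (1 + 1 / 10 * (Real.sinh (yy x) / Real.cosh (yy x)) -
    1 / 200 * (1 / Real.cosh (yy x) ^ 2))

lemma hasDerivAt_yy {x : ℝ} (hx : 0 < x + d) : HasDerivAt yy (1 / 20 * (x + d)⁻¹) x := by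
  have := (((hasDerivAt_id x).add_const d).log (by simpa using hx.ne')).const_mul (1 / 20 : ℝ)
  have := this.add_const (4 : ℝ)
  refine this.congr_deriv ?_
  simp [one_div]

lemma hasDerivAt_h {x : ℝ} (hx : 0 < x + d) : HasDerivAt h (h1 x) x := by
  have e1 := (((hasDerivAt_id x).add_const d).log (by simpa using hx.ne')).const_mul (-(1 / 2) : ℝ)
  have e2 := ((hasDerivAt_yy hx).cosh).log (Real.cosh_pos _).ne'
  refine (e1.sub e2).congr_deriv ?_
  have := (Real.cosh_pos (yy x)).ne'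
  have hx' := hx.ne'
  simp only [id, h1]
  field_simp
  ring

lemma hasDerivAt_tanh' (y : ℝ) :
    HasDerivAt (fun y => Real.sinh y / Real.cosh y) (1 / Real.cosh y ^ 2) y := by
  refine ((Real.hasDerivAt_sinh y).div (Real.hasDerivAt_cosh y) (Real.cosh_pos y).ne').congr_deriv ?_
  have := Real.cosh_sq y
  congr 1
  nlinarith

lemma hasDerivAt_h1 {x : ℝ} (hx : 0 < x + d) : HasDerivAt h1 (h2 x) x := by
  have e0 : HasDerivAt (fun x : ℝ => (x + d)⁻¹) (-((x + d) ^ 2)⁻¹) x := by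
    have := (hasDerivAt_inv hx.ne').comp_add_const x d
    exact this
  have e1 : HasDerivAt (fun x : ℝ => -(1 / 2) * (x + d)⁻¹) (-(1 / 2) * -((x + d) ^ 2)⁻¹) x :=
    e0.const_mul _
  have e2 : HasDerivAt (fun x : ℝ => Real.sinh (yy x) / Real.cosh (yy x))
      (1 / Real.cosh (yy x) ^ 2 * (1 / 20 * (x + d)⁻¹)) x :=
    (hasDerivAt_tanh' (yy x)).comp x (hasDerivAt_yy hx)
  have e3 : HasDerivAt (fun x : ℝ => 1 + 1 / 10 * (Real.sinh (yy x) / Real.cosh (yy x)))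
      (1 / 10 * (1 / Real.cosh (yy x) ^ 2 * (1 / 20 * (x + d)⁻¹))) x :=
    (e2.const_mul (1 / 10 : ℝ)).const_add 1
  refine (e1.mul e3).congr_deriv ?_
  have := (Real.cosh_pos (yy x)).ne'
  have hx' := hx.ne'
  simp only [h2]
  field_simp
  ring

/-- the value of the Laplacian of `h (|z|²)` -/
lemma laplacian_h (z : ℂ) : Δ (fun z : ℂ => h (‖z‖ ^ 2)) z =
    4 * ‖z‖ ^ 2 * h2 (‖z‖ ^ 2) + 4 * h1 (‖z‖ ^ 2) := by
  have hd := d_pos
  have hp : ∀ x : ℝ, 0 ≤ x → 0 < x + d := fun x hx => by linarith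
  have hz : 0 < ‖z‖ ^ 2 + d := hp _ (sq_nonneg _)
  have := H314.CS.LL.laplacian_comp_normSq (E := ℂ) (U := h) (U' := h1) (U'' := h2) (x := z)
    (by
      have hc : Continuous fun s : ℝ => s + d := by fun_prop
      filter_upwards [hc.continuousAt.eventually (lt_mem_nhds hz)] with s hs
      exact hasDerivAt_h hs) (hasDerivAt_h1 hz)
  rw [this, Complex.finrank_real_complex]
  push_cast
  ring

lemma lap_ineq {x : ℝ} (hx : 0 ≤ x) :
    4 * x * h2 x + 4 * h1 x ≤ -(1 / 100) * (x + d)⁻¹ * (1 / Real.cosh (yy x) ^ 2) := by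
  have hd := d_pos
  have hS : 0 < x + d := by linarith
  set T := Real.sinh (yy x) / Real.cosh (yy x) with hT
  set σ := 1 / Real.cosh (yy x) ^ 2 with hσ
  have hc := Real.cosh_pos (yy x)
  have hσ0 : 0 ≤ σ := by positivity
  have hσ1 : σ ≤ 1 := by
    rw [hσ, div_le_one (by positivity)]
    have := Real.one_le_cosh (yy x)
    nlinarith
  have hT1 : -1 ≤ T := by
    rw [hT, le_div_iff₀ hc]
    have := Real.cosh_add_sinh (yy x)
    have := Real.exp_pos (yy x)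
    linarith
  have e : 4 * x * h2 x + 4 * h1 x = ((x + d) ^ 2)⁻¹ *
      (-(2 * d * (1 + 1 / 10 * T)) - x * (1 / 100) * σ) := by
    rw [h2, h1, ← hT, ← hσ]
    field_simp
    ring
  rw [e]
  have e2 : -(1 / 100) * (x + d)⁻¹ * σ = ((x + d) ^ 2)⁻¹ * (-(1 / 100) * (x + d) * σ) := by
    field_simp
  rw [e2]
  apply mul_le_mul_of_nonneg_left _ (by positivity)
  nlinarith

/-- The constant. -/
noncomputable def c : ℝ := Real.exp 4 / (10 * Real.sqrt 2)

lemma c_pos : 0 < c := by unfold c; positivity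

lemma c_sq : c ^ 2 = Real.exp 8 / 200 := by
  rw [c, div_pow, mul_pow, Real.sq_sqrt (by norm_num), ← Real.exp_nat_mul]
  norm_num

/-- The supersolution. -/
noncomputable def u (z : ℂ) : ℝ := Real.log c + (h (‖z - 1‖ ^ 2) + h (‖z + 1‖ ^ 2))

lemma exp_h {x : ℝ} (hx : 0 < x + d) :
    Real.exp (h x) = 1 / (Real.sqrt (x + d) * Real.cosh (yy x)) := by
  have hc := Real.cosh_pos (yy x)
  rw [h, Real.exp_sub, Real.exp_log hc, Real.sqrt_eq_rpow, Real.rpow_def_of_pos hx,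
    show -(1 / 2) * Real.log (x + d) = -(Real.log (x + d) * (1 / 2)) by ring, Real.exp_neg]
  field_simp

lemma exp_2h {x : ℝ} (hx : 0 < x + d) :
    Real.exp (2 * h x) = (x + d)⁻¹ * (1 / Real.cosh (yy x) ^ 2) := by
  have hc := Real.cosh_pos (yy x)
  rw [two_mul, Real.exp_add, exp_h hx]
  rw [show 1 / (√(x + d) * Real.cosh (yy x)) * (1 / (√(x + d) * Real.cosh (yy x))) =
    (√(x + d) ^ 2)⁻¹ * (1 / Real.cosh (yy x) ^ 2) by field_simp]
  rw [Real.sq_sqrt hx.le]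

lemma cosh_lower {x : ℝ} (hx : 0 < x + d) :
    Real.exp 8 / 4 * (x + d) ^ (1 + 1 / 10 : ℝ) ≤ (x + d) * Real.cosh (yy x) ^ 2 := by
  have h1 : Real.exp (yy x) / 2 ≤ Real.cosh (yy x) := by
    rw [Real.cosh_eq]
    have := Real.exp_pos (-yy x)
    linarith
  have h2 : (Real.exp (yy x) / 2) ^ 2 ≤ Real.cosh (yy x) ^ 2 :=
    pow_le_pow_left₀ (by positivity) h1 2
  have h3 : (Real.exp (yy x) / 2) ^ 2 = Real.exp 8 / 4 * (x + d) ^ (1 / 10 : ℝ) := by
    rw [div_pow, ← Real.exp_nat_mul, Real.rpow_def_of_pos hx, yy]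
    rw [show ((2:ℕ):ℝ) * (1 / 20 * Real.log (x + d) + 4) = 8 + Real.log (x + d) * (1 / 10) by
      push_cast; ring, Real.exp_add]
    ring
  rw [Real.rpow_add hx, Real.rpow_one]
  rw [h3] at h2
  calc Real.exp 8 / 4 * ((x + d) * (x + d) ^ (1 / 10 : ℝ))
      = (x + d) * (Real.exp 8 / 4 * (x + d) ^ (1 / 10 : ℝ)) := by ring
    _ ≤ _ := mul_le_mul_of_nonneg_left h2 hx.le

lemma key_ineq {x y : ℝ} (hx : 0 ≤ x) (hy : 0 ≤ y) (hxy : 2 ≤ x + y) :
    c ^ 2 * (Real.exp (2 * h x) * Real.exp (2 * h y)) ≤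
      1 / 100 * Real.exp (2 * h x) + 1 / 100 * Real.exp (2 * h y) := by
  have hd := d_pos
  have hx' : 0 < x + d := by linarith
  have hy' : 0 < y + d := by linarith
  have hcx := Real.cosh_pos (yy x)
  have hcy := Real.cosh_pos (yy y)
  have b1 : 1 + (1 + 1 / 10 : ℝ) * (x + d - 1) ≤ (x + d) ^ (1 + 1 / 10 : ℝ) := by
    have := one_add_mul_self_le_rpow_one_add (s := x + d - 1) (by linarith)
      (p := (1 + 1 / 10 : ℝ)) (by norm_num)
    simpa using this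
  have b2 : 1 + (1 + 1 / 10 : ℝ) * (y + d - 1) ≤ (y + d) ^ (1 + 1 / 10 : ℝ) := by
    have := one_add_mul_self_le_rpow_one_add (s := y + d - 1) (by linarith)
      (p := (1 + 1 / 10 : ℝ)) (by norm_num)
    simpa using this
  have a1 := cosh_lower hx'
  have a2 := cosh_lower hy'
  have e8 : 0 < Real.exp 8 := Real.exp_pos 8
  have hsum : Real.exp 8 / 2 ≤ (x + d) * Real.cosh (yy x) ^ 2 + (y + d) * Real.cosh (yy y) ^ 2 := by
    have : 2 ≤ (x + d) ^ (1 + 1 / 10 : ℝ) + (y + d) ^ (1 + 1 / 10 : ℝ) := by linarith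
    nlinarith
  rw [exp_2h hx', exp_2h hy', c_sq]
  have p1 : 0 < (x + d) * Real.cosh (yy x) ^ 2 := by positivity
  have p2 : 0 < (y + d) * Real.cosh (yy y) ^ 2 := by positivity
  have r1 : (x + d)⁻¹ * (1 / Real.cosh (yy x) ^ 2) = 1 / ((x + d) * Real.cosh (yy x) ^ 2) := by
    field_simp
  have r2 : (y + d)⁻¹ * (1 / Real.cosh (yy y) ^ 2) = 1 / ((y + d) * Real.cosh (yy y) ^ 2) := by
    field_simp
  rw [r1, r2]
  set P := (x + d) * Real.cosh (yy x) ^ 2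
  set Q := (y + d) * Real.cosh (yy y) ^ 2
  have : 1 / 100 * (1 / P) + 1 / 100 * (1 / Q) - Real.exp 8 / 200 * (1 / P * (1 / Q)) =
      (P + Q - Real.exp 8 / 2) / (100 * P * Q) := by
    field_simp
    ring
  have : 0 ≤ (P + Q - Real.exp 8 / 2) / (100 * P * Q) := by
    apply div_nonneg (by linarith) (by positivity)
  linarith

lemma contDiffAt_h {x : ℝ} (hx : 0 < x + d) : ContDiffAt ℝ 2 h x := by
  have e1 : ContDiffAt ℝ 2 (fun x : ℝ => Real.log (x + d)) x :=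
    (contDiffAt_id.add contDiffAt_const).log (by simpa using hx.ne')
  have e2 : ContDiffAt ℝ 2 yy x := (contDiffAt_const.mul e1).add contDiffAt_const
  have e3 : ContDiffAt ℝ 2 (fun x : ℝ => Real.log (Real.cosh (yy x))) x :=
    (e2.cosh).log (Real.cosh_pos _).ne'
  exact (contDiffAt_const.mul e1).sub e3

lemma contDiff_hn (p : ℂ) : ContDiff ℝ 2 (fun z : ℂ => h (‖z - p‖ ^ 2)) := by
  have hd := d_pos
  rw [contDiff_iff_contDiffAt]
  intro z
  have e1 : ContDiff ℝ 2 (fun z : ℂ => ‖z - p‖ ^ 2) :=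
    (contDiff_id.sub contDiff_const).norm_sq ℝ
  have : 0 < ‖z - p‖ ^ 2 + d := by positivity
  exact ContDiffAt.comp z (contDiffAt_h this) e1.contDiffAt

lemma contDiff_u : ContDiff ℝ 2 u := by
  have h1 := contDiff_hn 1
  have h2 := contDiff_hn (-1)
  have h3 : ContDiff ℝ 2 (fun z : ℂ => h (‖z + 1‖ ^ 2)) := by
    simpa [sub_neg_eq_add] using h2
  exact contDiff_const.add (h1.add h3)

lemma laplacian_shift (p z : ℂ) : Δ (fun z : ℂ => h (‖z - p‖ ^ 2)) z =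
    4 * ‖z - p‖ ^ 2 * h2 (‖z - p‖ ^ 2) + 4 * h1 (‖z - p‖ ^ 2) := by
  have hΦ : ContDiff ℝ 2 (fun z : ℂ => h (‖z‖ ^ 2)) := by simpa using contDiff_hn 0
  have e := laplacian_comp_hol (Φ := fun z : ℂ => h (‖z‖ ^ 2)) (F := fun z => z - p)
    (F' := fun _ => 1) (c := 0) (z := z) hΦ.contDiffAt
    (Eventually.of_forall fun y => (hasDerivAt_id y).sub_const p) (hasDerivAt_const z 1)
  rw [e, laplacian_h]
  simp

lemma super (z : ℂ) : Δ u z + Real.exp (2 * u z) ≤ 0 := by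
  have hd := d_pos
  have h1 := contDiff_hn 1
  have h2 := contDiff_hn (-1)
  have h3 : ContDiff ℝ 2 (fun z : ℂ => h (‖z + 1‖ ^ 2)) := by
    simpa [sub_neg_eq_add] using h2
  have e1 := laplacian_shift 1 z
  have e2 := laplacian_shift (-1) z
  simp only [sub_neg_eq_add] at e2
  have e3 : Δ u z = Δ (fun z : ℂ => h (‖z - 1‖ ^ 2)) z + Δ (fun z : ℂ => h (‖z + 1‖ ^ 2)) z := by
    have : u = (fun _ => Real.log c) + ((fun z : ℂ => h (‖z - 1‖ ^ 2)) +
      (fun z : ℂ => h (‖z + 1‖ ^ 2))) := rfl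
    rw [this]
    have c1 : ContDiffAt ℝ 2 ((fun z : ℂ => h (‖z - 1‖ ^ 2)) +
      (fun z : ℂ => h (‖z + 1‖ ^ 2))) z := (h1.add h3).contDiffAt
    have c2 : ContDiffAt ℝ 2 (fun _ : ℂ => Real.log c) z := contDiffAt_const
    rw [ContDiffAt.laplacian_add c2 c1, h1.contDiffAt.laplacian_add h3.contDiffAt]
    simp
  have n1 : 0 ≤ ‖z - 1‖ ^ 2 := sq_nonneg _
  have n2 : 0 ≤ ‖z + 1‖ ^ 2 := sq_nonneg _
  have n3 : 2 ≤ ‖z - 1‖ ^ 2 + ‖z + 1‖ ^ 2 := by
    rw [← Complex.normSq_eq_norm_sq, ← Complex.normSq_eq_norm_sq, Complex.normSq_apply,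
      Complex.normSq_apply]
    simp
    nlinarith [sq_nonneg z.re, sq_nonneg z.im]
  have e4 : Real.exp (2 * u z) = c ^ 2 * (Real.exp (2 * h (‖z - 1‖ ^ 2)) *
      Real.exp (2 * h (‖z + 1‖ ^ 2))) := by
    rw [u, mul_add, mul_add, Real.exp_add, Real.exp_add, two_mul (Real.log c), Real.exp_add,
      Real.exp_log c_pos]
    ring
  have k := key_ineq n1 n2 n3
  have l1 := lap_ineq n1
  have l2 := lap_ineq n2
  rw [e3, e1, e2, e4]
  rw [exp_2h (by linarith), exp_2h (by linarith)] at *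
  linarith

lemma area : ∫⁻ z : ℂ, ENNReal.ofReal (Real.exp (2 * u z)) < ⊤ := by
  have hd := d_pos
  have hd1 : d ≤ 1 := by
    unfold d
    exact Real.exp_le_one_iff.2 (by norm_num)
  have hint : Integrable (fun z : ℂ => (9 * c ^ 2 / d ^ 2) * (1 + ‖z‖ ^ 2) ^ (-(4:ℝ) / 2)) := by
    apply Integrable.const_mul
    exact integrable_rpow_neg_one_add_norm_sq (by rw [Complex.finrank_real_complex]; norm_num)
  have hle : ∀ z : ℂ, Real.exp (2 * u z) ≤ (9 * c ^ 2 / d ^ 2) * (1 + ‖z‖ ^ 2) ^ (-(4:ℝ) / 2) := by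
    intro z
    have e4 : Real.exp (2 * u z) = c ^ 2 * (Real.exp (2 * h (‖z - 1‖ ^ 2)) *
        Real.exp (2 * h (‖z + 1‖ ^ 2))) := by
      rw [u, mul_add, mul_add, Real.exp_add, Real.exp_add, two_mul (Real.log c), Real.exp_add,
        Real.exp_log c_pos]
      ring
    have gen : ∀ w : ℂ, ‖z‖ ^ 2 ≤ 2 * ‖w‖ ^ 2 + 2 → Real.exp (2 * h (‖w‖ ^ 2)) ≤ 3 / d * (1 + ‖z‖ ^ 2)⁻¹ := by
      intro w hw
      have hS : 0 < ‖w‖ ^ 2 + d := by positivity
      rw [exp_2h hS]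
      have hc1 : 1 / Real.cosh (yy (‖w‖ ^ 2)) ^ 2 ≤ 1 := by
        rw [div_le_one (pow_pos (Real.cosh_pos _) 2)]
        have := Real.one_le_cosh (yy (‖w‖ ^ 2))
        nlinarith
      have h3 : (‖w‖ ^ 2 + d)⁻¹ ≤ 3 / d * (1 + ‖z‖ ^ 2)⁻¹ := by
        rw [← div_eq_mul_inv, inv_le_comm₀ hS (by positivity), inv_div, div_div_eq_mul_div,
          div_le_iff₀ (by norm_num)]
        nlinarith [sq_nonneg ‖w‖]
      calc (‖w‖ ^ 2 + d)⁻¹ * (1 / Real.cosh (yy (‖w‖ ^ 2)) ^ 2)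
          ≤ (‖w‖ ^ 2 + d)⁻¹ * 1 := mul_le_mul_of_nonneg_left hc1 (by positivity)
        _ ≤ _ := by rw [mul_one]; exact h3
    have g1 := gen (z - 1) (by
      have : ‖z‖ ≤ ‖z - 1‖ + 1 := by
        have := norm_add_le (z - 1) 1
        simpa using this
      nlinarith [norm_nonneg z, norm_nonneg (z - 1), sq_nonneg (‖z - 1‖ - 1)])
    have g2 := gen (z + 1) (by
      have : ‖z‖ ≤ ‖z + 1‖ + 1 := by
        have := norm_sub_le (z + 1) 1
        simpa using this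
      nlinarith [norm_nonneg z, norm_nonneg (z + 1), sq_nonneg (‖z + 1‖ - 1)])
    rw [e4]
    have e5 : (1 + ‖z‖ ^ 2) ^ (-(4:ℝ) / 2) = (1 + ‖z‖ ^ 2)⁻¹ * (1 + ‖z‖ ^ 2)⁻¹ := by
      rw [show (-(4:ℝ) / 2) = -((2:ℕ):ℝ) by norm_num, Real.rpow_neg (by positivity),
        Real.rpow_natCast, pow_two, mul_inv]
    rw [e5]
    calc c ^ 2 * (Real.exp (2 * h (‖z - 1‖ ^ 2)) * Real.exp (2 * h (‖z + 1‖ ^ 2)))
        ≤ c ^ 2 * ((3 / d * (1 + ‖z‖ ^ 2)⁻¹) * (3 / d * (1 + ‖z‖ ^ 2)⁻¹)) := by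
          apply mul_le_mul_of_nonneg_left _ (sq_nonneg c)
          exact mul_le_mul g1 g2 (Real.exp_pos _).le (by positivity)
      _ = _ := by field_simp; ring
  have hm : ∫⁻ z : ℂ, ENNReal.ofReal (Real.exp (2 * u z)) ≤
      ∫⁻ z : ℂ, ENNReal.ofReal ((9 * c ^ 2 / d ^ 2) * (1 + ‖z‖ ^ 2) ^ (-(4:ℝ) / 2)) :=
    lintegral_mono fun z => ENNReal.ofReal_le_ofReal (hle z)
  exact lt_of_le_of_lt hm hint.lintegral_lt_top


/-- the comparison function -/
noncomputable def G (p z : ℂ) : ℝ := 565 / 1000 * Real.arctan (Real.sinh (yy (‖z - p‖ ^ 2)))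

lemma continuous_G (p : ℂ) : Continuous (G p) := by
  have hd := d_pos
  have h1 : Continuous fun z : ℂ => Real.log (‖z - p‖ ^ 2 + d) := by
    apply Continuous.log (by fun_prop)
    intro z
    positivity
  unfold G yy
  exact continuous_const.mul (Real.continuous_arctan.comp (Real.continuous_sinh.comp
    ((continuous_const.mul h1).add continuous_const)))

lemma rpow5 : (5:ℝ) ^ (11 / 20 : ℝ) ≤ 245 / 100 := by
  have h1 : ((5:ℝ) ^ (11 / 20 : ℝ)) ^ 20 ≤ (245 / 100) ^ 20 := by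
    rw [← Real.rpow_natCast, ← Real.rpow_mul (by norm_num)]
    norm_num
  exact le_of_pow_le_pow_left₀ (by norm_num) (by norm_num) h1

lemma exp4_gt : 50 < Real.exp 4 := by
  have h := Real.exp_one_gt_d9
  have : Real.exp 4 = Real.exp 1 ^ 4 := by
    rw [← Real.exp_nat_mul]; norm_num
  rw [this]
  have : (2.7182818283 : ℝ) ^ 4 < Real.exp 1 ^ 4 := pow_lt_pow_left₀ h (by norm_num) (by norm_num)
  norm_num at this
  linarith

/-- Lower bound for the far factor. -/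
lemma far {x : ℝ} (hx : 1 ≤ x + d) (hx5 : x + d ≤ 5) : 565 / 10000 ≤ c * Real.exp (h x) := by
  have hS : 0 < x + d := by linarith
  have hyy : 0 ≤ yy x := by
    have := Real.log_nonneg hx
    unfold yy; linarith
  have h1 : Real.cosh (yy x) ≤ (Real.exp 4 * (x + d) ^ (1 / 20 : ℝ) + 1) / 2 := by
    rw [Real.cosh_eq]
    have e1 : Real.exp (yy x) = Real.exp 4 * (x + d) ^ (1 / 20 : ℝ) := by
      rw [yy, Real.exp_add, Real.rpow_def_of_pos hS, mul_comm (1 / 20 : ℝ)]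
      ring
    have e2 : Real.exp (-yy x) ≤ 1 := Real.exp_le_one_iff.2 (by linarith)
    rw [e1]
    linarith
  have h2 : Real.sqrt (x + d) * Real.cosh (yy x) ≤ (Real.exp 4 * (245 / 100) + 224 / 100) / 2 := by
    have e3 : Real.sqrt (x + d) * (x + d) ^ (1 / 20 : ℝ) ≤ 245 / 100 := by
      rw [Real.sqrt_eq_rpow, ← Real.rpow_add hS, show (1 / 2 + 1 / 20 : ℝ) = 11 / 20 by norm_num]
      exact (Real.rpow_le_rpow hS.le hx5 (by norm_num)).trans rpow5
    have e4 : Real.sqrt (x + d) ≤ 224 / 100 := by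
      rw [Real.sqrt_le_left (by norm_num)]
      norm_num
      linarith
    have e5 := Real.sqrt_nonneg (x + d)
    have e6 := Real.exp_pos 4
    calc Real.sqrt (x + d) * Real.cosh (yy x)
        ≤ Real.sqrt (x + d) * ((Real.exp 4 * (x + d) ^ (1 / 20 : ℝ) + 1) / 2) :=
          mul_le_mul_of_nonneg_left h1 e5
      _ = (Real.exp 4 * (Real.sqrt (x + d) * (x + d) ^ (1 / 20 : ℝ)) + Real.sqrt (x + d)) / 2 := by ring
      _ ≤ _ := by
        have := mul_le_mul_of_nonneg_left e3 e6.le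
        linarith
  rw [exp_h hS, c]
  have e6 := exp4_gt
  have hs2 : 0 < Real.sqrt 2 := by positivity
  have hs2' : Real.sqrt 2 ^ 2 = 2 := Real.sq_sqrt (by norm_num)
  have hs2'' : 1414 / 1000 ≤ Real.sqrt 2 := by
    apply Real.le_sqrt_of_sq_le; norm_num
  have hs2t : Real.sqrt 2 ≤ 1415 / 1000 := by
    rw [Real.sqrt_le_left (by norm_num)]; norm_num
  have hp : 0 < Real.sqrt (x + d) * Real.cosh (yy x) := by
    have := Real.cosh_pos (yy x)
    positivity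
  have : Real.exp 4 / (10 * Real.sqrt 2) * (1 / (Real.sqrt (x + d) * Real.cosh (yy x))) =
      Real.exp 4 / (10 * Real.sqrt 2 * (Real.sqrt (x + d) * Real.cosh (yy x))) := by
    field_simp
  rw [this, le_div_iff₀ (by positivity)]
  calc 565 / 10000 * (10 * Real.sqrt 2 * (Real.sqrt (x + d) * Real.cosh (yy x)))
      ≤ 565 / 10000 * (10 * Real.sqrt 2 * ((Real.exp 4 * (245 / 100) + 224 / 100) / 2)) := by
        gcongr
    _ ≤ 565 / 10000 * (10 * (1415 / 1000) * ((Real.exp 4 * (245 / 100) + 224 / 100) / 2)) := by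
        gcongr
    _ ≤ Real.exp 4 := by linarith

lemma exp_u (z : ℂ) : Real.exp (u z) = c * (Real.exp (h (‖z - 1‖ ^ 2)) * Real.exp (h (‖z + 1‖ ^ 2))) := by
  rw [u, Real.exp_add, Real.exp_add, Real.exp_log c_pos]

/-- Derivative bound near the puncture `p`. -/
lemma G_deriv {p q : ℂ} (hpq : (p = 1 ∧ q = -1) ∨ (p = -1 ∧ q = 1)) {γ : ℝ → ℂ} {v : ℂ} {t : ℝ}
    (hγ : HasDerivAt γ v t) (hin : ‖γ t - p‖ ≤ 1 / 5) :
    ∃ g : ℝ, HasDerivAt (fun t => G p (γ t)) g t ∧ |g| ≤ Real.exp (u (γ t)) * ‖v‖ := by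
  have hd := d_pos
  have hd1 : d ≤ 1 / 10 := by
    unfold d
    have h1 : Real.exp (-160) ≤ Real.exp (-4) := Real.exp_le_exp.2 (by norm_num)
    have h2 : Real.exp (-4) ≤ 1 / 10 := by
      rw [Real.exp_neg, inv_le_comm₀ (Real.exp_pos _) (by norm_num)]
      have := exp4_gt
      norm_num
      linarith
    linarith
  set x := ‖γ t - p‖ ^ 2 with hx
  have hS : 0 < x + d := by positivity
  have h1 : HasDerivAt (fun t => ‖γ t - p‖ ^ 2) (2 * inner ℝ (γ t - p) v) t :=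
    (hγ.sub_const p).norm_sq
  have h2 : HasDerivAt (fun t => yy (‖γ t - p‖ ^ 2))
      (1 / 20 * (x + d)⁻¹ * (2 * inner ℝ (γ t - p) v)) t :=
    HasDerivAt.comp (h₂ := yy) t (hasDerivAt_yy hS) h1
  have h3 := (h2.sinh.arctan).const_mul (565 / 1000 : ℝ)
  refine ⟨_, h3, ?_⟩
  have hc := Real.cosh_pos (yy x)
  have e1 : 1 + Real.sinh (yy x) ^ 2 = Real.cosh (yy x) ^ 2 := by
    rw [Real.cosh_sq]; ring
  have hsq : Real.sqrt (x + d) ^ 2 = x + d := Real.sq_sqrt hS.le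
  have hsp : 0 < Real.sqrt (x + d) := Real.sqrt_pos.2 hS
  have e2 : 565 / 1000 * (1 / (1 + Real.sinh (yy x) ^ 2) * (Real.cosh (yy x) *
      (1 / 20 * (x + d)⁻¹ * (2 * inner ℝ (γ t - p) v)))) =
      565 / 10000 * (1 / (Real.cosh (yy x))) * (inner ℝ (γ t - p) v / (x + d)) := by
    rw [e1]
    field_simp
    ring
  rw [e2]
  have e3 : |inner ℝ (γ t - p) v| ≤ Real.sqrt (x + d) * ‖v‖ := by
    refine (abs_real_inner_le_norm _ _).trans ?_
    apply mul_le_mul_of_nonneg_right _ (norm_nonneg v)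
    apply Real.le_sqrt_of_sq_le
    linarith
  have e4 : |inner ℝ (γ t - p) v / (x + d)| ≤ 1 / Real.sqrt (x + d) * ‖v‖ := by
    rw [abs_div, abs_of_pos hS, div_le_iff₀ hS]
    calc |inner ℝ (γ t - p) v| ≤ Real.sqrt (x + d) * ‖v‖ := e3
      _ = 1 / Real.sqrt (x + d) * ‖v‖ * (Real.sqrt (x + d) ^ 2) := by field_simp
      _ = _ := by rw [hsq]
  have e5 : |565 / 10000 * (1 / (Real.cosh (yy x))) * (inner ℝ (γ t - p) v / (x + d))| ≤
      565 / 10000 * (Real.exp (h x) * ‖v‖) := by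
    rw [abs_mul, abs_of_nonneg (by positivity), exp_h hS]
    calc 565 / 10000 * (1 / (Real.cosh (yy x))) * |inner ℝ (γ t - p) v / (x + d)|
        ≤ 565 / 10000 * (1 / (Real.cosh (yy x))) * (1 / Real.sqrt (x + d) * ‖v‖) :=
          mul_le_mul_of_nonneg_left e4 (by positivity)
      _ = _ := by field_simp
  refine e5.trans ?_
  -- the far factor
  set y := ‖γ t - q‖ ^ 2 with hy
  have hpq2 : ‖p - q‖ = 2 := by
    rcases hpq with ⟨rfl, rfl⟩ | ⟨rfl, rfl⟩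
    · rw [show (1 : ℂ) - -1 = 2 by ring]; simp
    · rw [show (-1 : ℂ) - 1 = -2 by ring]; simp
  have f1 : ‖γ t - q‖ ≤ 2 + 1 / 5 := by
    calc ‖γ t - q‖ = ‖(γ t - p) + (p - q)‖ := by congr 1; ring
      _ ≤ ‖γ t - p‖ + ‖p - q‖ := norm_add_le _ _
      _ ≤ _ := by rw [hpq2]; linarith
  have f2 : 2 - 1 / 5 ≤ ‖γ t - q‖ := by
    have : ‖p - q‖ ≤ ‖γ t - q‖ + ‖γ t - p‖ := by
      calc ‖p - q‖ = ‖(γ t - q) - (γ t - p)‖ := by congr 1; ring
        _ ≤ _ := norm_sub_le _ _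
    linarith
  have f3 := far (x := y) (by rw [hy]; nlinarith) (by rw [hy]; nlinarith [norm_nonneg (γ t - q)])
  have f4 : Real.exp (u (γ t)) = c * (Real.exp (h x) * Real.exp (h y)) := by
    rw [exp_u, hx, hy]
    rcases hpq with ⟨rfl, rfl⟩ | ⟨rfl, rfl⟩
    · rw [sub_neg_eq_add]
    · rw [sub_neg_eq_add, mul_comm (Real.exp (h (‖γ t - 1‖ ^ 2)))]
  rw [f4]
  have := mul_le_mul_of_nonneg_right f3 (mul_nonneg (Real.exp_pos (h x)).le (norm_nonneg v))
  calc 565 / 10000 * (Real.exp (h x) * ‖v‖) ≤ c * Real.exp (h y) * (Real.exp (h x) * ‖v‖) := this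
    _ = _ := by ring

lemma arctan_le {y : ℝ} (hy : 0 ≤ y) : Real.arctan y ≤ y := by
  have h1 := Real.le_tan (Real.arctan_nonneg.2 hy) (Real.arctan_lt_pi_div_two y)
  rwa [Real.tan_arctan] at h1

lemma gd_lower {y : ℝ} (hy : 36 / 10 ≤ y) : Real.pi / 2 - 1 / 9 ≤ Real.arctan (Real.sinh y) := by
  have hs : 9 ≤ Real.sinh y := by
    have h1 : Real.sinh (36 / 10) ≤ Real.sinh y := Real.sinh_le_sinh.2 hy
    have h2 : 9 ≤ Real.sinh (36 / 10) := by
      rw [Real.sinh_eq]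
      have h3 : Real.exp (-(36 / 10)) ≤ 1 := Real.exp_le_one_iff.2 (by norm_num)
      have h4 : 19 ≤ Real.exp (36 / 10) := by
        have h := Real.exp_one_gt_d9
        have e3 : Real.exp 3 = Real.exp 1 ^ 3 := by
          rw [← Real.exp_nat_mul]; norm_num
        have : (2.7182818283 : ℝ) ^ 3 < Real.exp 1 ^ 3 := pow_lt_pow_left₀ h (by norm_num) (by norm_num)
        have h5 : Real.exp 3 ≤ Real.exp (36 / 10) := Real.exp_le_exp.2 (by norm_num)
        rw [e3] at h5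
        norm_num at this
        linarith
      linarith
    linarith
  have h0 : 0 < Real.sinh y := by linarith
  have h1 := Real.arctan_inv_of_pos h0
  have h2 : Real.arctan (Real.sinh y)⁻¹ ≤ (Real.sinh y)⁻¹ := arctan_le (by positivity)
  have h3 : (Real.sinh y)⁻¹ ≤ 1 / 9 := by
    rw [inv_le_comm₀ h0 (by norm_num)]
    norm_num
    exact hs
  linarith

lemma log5 : Real.log 5 ≤ 4 := by
  have := Real.log_le_sub_one_of_pos (show (0:ℝ) < 5 by norm_num)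
  linarith

lemma G_center (p : ℂ) : G p p ≤ -(565 / 1000 * (Real.pi / 2 - 1 / 9)) := by
  have hyy : yy (‖p - p‖ ^ 2) = -4 := by
    simp [yy, d]
    norm_num
  have := gd_lower (y := 4) (by norm_num)
  rw [G, hyy, Real.sinh_neg, Real.arctan_neg]
  linarith

lemma G_far {p z : ℂ} (hz : 1 / 5 ≤ ‖z - p‖) : 565 / 1000 * (Real.pi / 2 - 1 / 9) ≤ G p z := by
  have hd := d_pos
  have hyy : 36 / 10 ≤ yy (‖z - p‖ ^ 2) := by
    have h1 : (1 / 5 : ℝ) ^ 2 ≤ ‖z - p‖ ^ 2 + d := by nlinarith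
    have h2 := Real.log_le_log (by norm_num) h1
    rw [Real.log_pow, one_div, Real.log_inv] at h2
    have h3 := log5
    push_cast at h2
    unfold yy
    linarith
  have := gd_lower hyy
  rw [G]
  linarith

/-- The cost of leaving the disc around a puncture, or of entering it up to the centre. -/
lemma part {p q : ℂ} (hpq : (p = 1 ∧ q = -1) ∨ (p = -1 ∧ q = 1)) {γ : ℝ → ℂ}
    {S : Set ℝ} (hS : S.Countable) {s t : ℝ} (hst : s ≤ t) (hcs : ContinuousOn γ (Icc s t))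
    (hd : ∀ x ∈ Ioo s t \ S, DifferentiableAt ℝ γ x)
    (hin : ∀ x ∈ Ioo s t, ‖γ x - p‖ ≤ 1 / 5)
    (hends : (γ s = p ∧ 1 / 5 ≤ ‖γ t - p‖) ∨ (γ t = p ∧ 1 / 5 ≤ ‖γ s - p‖)) :
    ENNReal.ofReal (565 / 1000 * (Real.pi - 2 / 9)) ≤
      ∫⁻ τ in Ioc s t, ENNReal.ofReal (Real.exp (u (γ τ)) * ‖deriv γ τ‖) := by
  refine le_trans ?_ (curve_variation contDiff_u.continuous (continuous_G p) hS hst hcs
    (fun x hx => G_deriv hpq (hd x hx).hasDerivAt (hin x hx.1)))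
  apply ENNReal.ofReal_le_ofReal
  rcases hends with ⟨h1, h2⟩ | ⟨h1, h2⟩
  · have a := G_center p
    have b := G_far h2
    rw [h1]
    refine le_trans ?_ (le_abs_self _)
    linarith
  · have a := G_center p
    have b := G_far h2
    rw [h1, abs_sub_comm]
    refine le_trans ?_ (le_abs_self _)
    linarith

/-- Every curve from `1` to `-1` is longer than `π`. -/
theorem length_lower {γ : ℝ → ℂ} (hc : ContinuousOn γ (Icc 0 1)) {S : Set ℝ} (hS : S.Countable)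
    (hd : ∀ x ∈ Ioo (0:ℝ) 1 \ S, DifferentiableAt ℝ γ x) (h0 : γ 0 = 1) (h1 : γ 1 = -1) :
    ENNReal.ofReal (1130 / 1000 * (Real.pi - 2 / 9)) ≤
      ∫⁻ τ in Icc (0:ℝ) 1, ENNReal.ofReal (Real.exp (u (γ τ)) * ‖deriv γ τ‖) := by
  set K1 : Set ℝ := {t ∈ Icc (0:ℝ) 1 | 1 / 5 ≤ ‖γ t - 1‖} with hK1
  set K2 : Set ℝ := {t ∈ Icc (0:ℝ) 1 | 1 / 5 ≤ ‖γ t + 1‖} with hK2
  have hK1c : IsCompact K1 := by
    refine isCompact_Icc.of_isClosed_subset ?_ (fun t ht => ht.1)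
    exact (ContinuousOn.preimage_isClosed_of_isClosed (f := fun t => ‖γ t - 1‖)
      ((hc.sub continuousOn_const).norm) isClosed_Icc isClosed_Ici)
  have hK2c : IsCompact K2 := by
    refine isCompact_Icc.of_isClosed_subset ?_ (fun t ht => ht.1)
    exact (ContinuousOn.preimage_isClosed_of_isClosed (f := fun t => ‖γ t + 1‖)
      ((hc.add continuousOn_const).norm) isClosed_Icc isClosed_Ici)
  have hK1n : K1.Nonempty := ⟨1, by simp, by rw [h1, show (-1 : ℂ) - 1 = -2 by ring]; norm_num⟩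
  have hK2n : K2.Nonempty := ⟨0, by simp, by rw [h0, show (1 : ℂ) + 1 = 2 by ring]; norm_num⟩
  obtain ⟨T1, hT1, hT1'⟩ := hK1c.exists_isLeast hK1n
  obtain ⟨T2, hT2, hT2'⟩ := hK2c.exists_isGreatest hK2n
  have hT12 : T1 ≤ T2 := by
    by_contra hcon
    have hlt := not_le.1 hcon
    have hm1 : (T1 + T2) / 2 < T1 := by linarith
    have hm2 : T2 < (T1 + T2) / 2 := by linarith
    have hmem : (T1 + T2) / 2 ∈ Icc (0:ℝ) 1 := ⟨by linarith [hT1.1.1, hT2.1.1], by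
      linarith [hT1.1.2, hT2.1.2]⟩
    have e1 : ‖γ ((T1 + T2) / 2) - 1‖ < 1 / 5 := by
      by_contra hh
      have := hT1' ⟨hmem, not_lt.1 hh⟩
      linarith
    have e2 : ‖γ ((T1 + T2) / 2) + 1‖ < 1 / 5 := by
      by_contra hh
      have := hT2' ⟨hmem, not_lt.1 hh⟩
      linarith
    have e3 : (2 : ℝ) ≤ ‖γ ((T1 + T2) / 2) + 1‖ + ‖γ ((T1 + T2) / 2) - 1‖ := by
      calc (2 : ℝ) = ‖(γ ((T1 + T2) / 2) + 1) - (γ ((T1 + T2) / 2) - 1)‖ := by
            rw [show (γ ((T1 + T2) / 2) + 1) - (γ ((T1 + T2) / 2) - 1) = 2 by ring]; simp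
        _ ≤ _ := norm_sub_le _ _
    linarith
  have p1 := part (p := 1) (q := -1) (Or.inl ⟨rfl, rfl⟩) hS hT1.1.1
    (hc.mono (Icc_subset_Icc_right hT1.1.2))
    (fun x hx => hd x ⟨⟨hx.1.1, lt_of_lt_of_le hx.1.2 hT1.1.2⟩, hx.2⟩)
    (fun x hx => by
      by_contra hh
      have := hT1' ⟨⟨hx.1.le, hx.2.le.trans hT1.1.2⟩, (not_le.1 hh).le⟩
      linarith [hx.2])
    (Or.inl ⟨h0, hT1.2⟩)
  have p2 := part (p := -1) (q := 1) (Or.inr ⟨rfl, rfl⟩) hS hT2.1.2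
    (hc.mono (Icc_subset_Icc_left hT2.1.1))
    (fun x hx => hd x ⟨⟨lt_of_le_of_lt hT2.1.1 hx.1.1, hx.1.2⟩, hx.2⟩)
    (fun x hx => by
      by_contra hh
      have hh' := (not_le.1 hh).le
      rw [sub_neg_eq_add] at hh'
      have := hT2' ⟨⟨hT2.1.1.trans hx.1.le, hx.2.le⟩, hh'⟩
      linarith [hx.1])
    (Or.inr ⟨h1, by have := hT2.2; rwa [sub_neg_eq_add]⟩)
  have hsub : Ioc 0 T1 ∪ Ioc T2 1 ⊆ Icc (0:ℝ) 1 := by
    rintro x (hx | hx)
    · exact ⟨hx.1.le, hx.2.trans hT1.1.2⟩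
    · exact ⟨hT2.1.1.trans hx.1.le, hx.2⟩
  have hdisj : Disjoint (Ioc 0 T1) (Ioc T2 1) := by
    rw [Set.disjoint_left]
    intro x hx hx'
    linarith [hx.2, hx'.1]
  calc ENNReal.ofReal (1130 / 1000 * (Real.pi - 2 / 9))
      = ENNReal.ofReal (565 / 1000 * (Real.pi - 2 / 9)) +
        ENNReal.ofReal (565 / 1000 * (Real.pi - 2 / 9)) := by
        have := Real.pi_gt_three
        rw [← ENNReal.ofReal_add (by nlinarith) (by nlinarith)]
        congr 1; ring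
    _ ≤ (∫⁻ τ in Ioc 0 T1, ENNReal.ofReal (Real.exp (u (γ τ)) * ‖deriv γ τ‖)) +
        ∫⁻ τ in Ioc T2 1, ENNReal.ofReal (Real.exp (u (γ τ)) * ‖deriv γ τ‖) := add_le_add p1 p2
    _ = ∫⁻ τ in Ioc 0 T1 ∪ Ioc T2 1, ENNReal.ofReal (Real.exp (u (γ τ)) * ‖deriv γ τ‖) :=
        (lintegral_union measurableSet_Ioc hdisj).symm
    _ ≤ _ := lintegral_mono_set hsub


end Pool.Agent.Q174.Spindle
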