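import Mathlib
import Pool.Agent.Q174.ShiftIndep

/-!
# STFT phase retrieval: functions with real sampled STFT on a shifted lattice
-/

set_option autoImplicit false

open MeasureTheory Complex Filter Topology Set
open scoped Real ComplexConjugate ENNReal

namespace Pool.Agent.Q174.STFT

/-- The short-time Fourier transform `V_g f (x, ω)`. -/
noncomputable def stft (g f : ℝ → ℂ) (x ω : ℝ) : ℂ :=
  ∫ t : ℝ, f t * conj (g (t - x)) * cexp (-(2 * π * I * ω * t))

/-- Uniqueness property of `(g, Λ)`. -/
def Uniqueness (g : ℝ → ℂ) (Λ : Set (ℝ × ℝ)) : Prop :=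
  ∀ f h : ℝ → ℂ, MemLp f 2 volume → MemLp h 2 volume →
    (∀ z ∈ Λ, ‖stft g f z.1 z.2‖ = ‖stft g h z.1 z.2‖) →
    ∃ α : ℝ, f =ᵐ[volume] fun t => cexp (I * α) * h t

/-- The shifted lattice `A ℤ² + z`. -/
def shiftedLattice (A : Matrix (Fin 2) (Fin 2) ℝ) (z : ℝ × ℝ) : Set (ℝ × ℝ) :=
  {w | ∃ m n : ℤ, w = (A 0 0 * m + A 0 1 * n + z.1, A 1 0 * m + A 1 1 * n + z.2)}

/-- The building blocks: time-frequency shifts of the reflected window. -/
noncomputable def ph (g : ℝ → ℂ) (p q s : ℝ) (k : ℕ) (t : ℝ) : ℂ :=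
  cexp (I * π * (2 * k * q * t - k ^ 2 * p * q - k * s)) * g (k * p - t)

lemma norm_exp_real (θ : ℝ) : ‖cexp (I * π * θ)‖ = 1 := by
  have : I * π * (θ : ℂ) = ((π * θ : ℝ) : ℂ) * I := by push_cast; ring
  rw [this, norm_exp_ofReal_mul_I]

lemma norm_ph (g : ℝ → ℂ) (p q s : ℝ) (k : ℕ) (t : ℝ) : ‖ph g p q s k t‖ = ‖g (k * p - t)‖ := by
  rw [ph, norm_mul]
  have := norm_exp_real (2 * k * q * t - k ^ 2 * p * q - k * s)
  push_cast at this
  rw [this, one_mul]

lemma memLp_ph {g : ℝ → ℂ} (hg : MemLp g 2 volume) (p q s : ℝ) (k : ℕ) :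
    MemLp (ph g p q s k) 2 volume := by
  have h1 : MemLp (fun t => g (k * p - t)) 2 volume :=
    hg.comp_measurePreserving (Measure.measurePreserving_sub_left volume (k * p))
  refine h1.of_le ?_ (Eventually.of_forall fun t => (norm_ph g p q s k t).le)
  exact (by fun_prop : Continuous fun t : ℝ =>
    cexp (I * π * (2 * k * q * t - k ^ 2 * p * q - k * s))).aestronglyMeasurable.mul h1.1

lemma integrable_stft {g f : ℝ → ℂ} (hg : MemLp g 2 volume) (hf : MemLp f 2 volume) (x ω : ℝ) :
    Integrable (fun t : ℝ => f t * conj (g (t - x)) * cexp (-(2 * π * I * ω * t))) volume := by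
  have h1 : MemLp (fun t => g (t - x)) 2 volume :=
    hg.comp_measurePreserving (measurePreserving_sub_right volume x)
  have h2 : MemLp (fun t => conj (g (t - x))) 2 volume := h1.star
  have h3 : Integrable (fun t => f t * conj (g (t - x))) volume := hf.integrable_mul h2
  refine h3.mul_bdd (c := 1) ?_ (Eventually.of_forall fun t => ?_)
  · exact (by fun_prop : Continuous fun t : ℝ =>
      cexp (-(2 * π * I * ω * t))).aestronglyMeasurable
  · have := norm_exp_real (-(2 * ω * t))
    rw [show -(2 * (π:ℂ) * I * ω * t) = I * π * ((-(2 * ω * t) : ℝ) : ℂ) by push_cast; ring, this]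

/-- The symmetry of the STFT of a building block at points `(x, ω)` with
`q x - p ω - s ∈ ℤ`. -/
lemma stft_ph (g : ℝ → ℂ) (p q s x ω : ℝ) (k : ℕ) (n : ℤ) (h : q * x - p * ω - s = n) :
    stft g (ph g p q s k) x ω = cexp (-(2 * π * I * ω * x)) * conj (stft g (ph g p q s k) x ω) := by
  have h1 : stft g (ph g p q s k) x ω = ∫ t : ℝ, (fun t : ℝ => ph g p q s k t * conj (g (t - x)) *
      cexp (-(2 * π * I * ω * t))) ((x + k * p) - t) := by
    exact (integral_sub_left_eq_self (fun t : ℝ => ph g p q s k t * conj (g (t - x)) *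
      cexp (-(2 * π * I * ω * t))) volume (x + k * p)).symm
  have h2 : conj (stft g (ph g p q s k) x ω) = ∫ t : ℝ, conj (ph g p q s k t * conj (g (t - x)) *
      cexp (-(2 * π * I * ω * t))) := by
    rw [integral_conj]; rfl
  rw [h2, h1, ← integral_const_mul]
  refine integral_congr_ae (Eventually.of_forall fun t => ?_)
  simp only [ph, map_mul, conj_conj, ← exp_conj, map_neg, map_sub, conj_I, conj_ofReal, map_pow,
    map_natCast, map_ofNat]
  rw [show (k:ℝ) * p - (x + k * p - t) = t - x by ring,
    show x + (k:ℝ) * p - t - x = k * p - t by ring]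
  have hexp : cexp (I * π * (2 * k * q * ((x + k * p - t : ℝ) : ℂ) - k ^ 2 * p * q - k * s)) *
      cexp (-(2 * π * I * ω * ((x + k * p - t : ℝ) : ℂ))) =
      cexp (-(2 * π * I * ω * x)) * (cexp (-I * π * (2 * k * q * t - k ^ 2 * p * q - k * s)) *
        cexp (-(2 * π * -I * ω * t))) := by
    rw [← exp_add, ← exp_add, ← exp_add]
    rw [exp_eq_exp_iff_exists_int]
    refine ⟨k * n, ?_⟩
    have h' : (q : ℂ) * x - p * ω - s = n := by exact_mod_cast h
    push_cast
    rw [← h']
    ring
  calc _ = (cexp (I * π * (2 * k * q * ((x + k * p - t : ℝ) : ℂ) - k ^ 2 * p * q - k * s)) *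
      cexp (-(2 * π * I * ω * ((x + k * p - t : ℝ) : ℂ)))) * (g (t - x) * conj (g (k * p - t))) := by
        ring
    _ = _ := by rw [hexp]; ring

/-- Linear independence of the building blocks. -/
lemma indep_ph {g : ℝ → ℂ} (hg : MemLp g 2 volume) (hne : ¬ g =ᵐ[volume] 0) {p : ℝ} (hp : 0 < p)
    (q s : ℝ) (K : ℕ) (c : ℕ → ℂ)
    (h : (fun t => ∑ k ∈ Finset.range K, c k * ph g p q s k t) =ᵐ[volume] 0) :
    ∀ k, k < K → c k = 0 := by
  set ψ : ℝ → ℂ := fun t => cexp (-(I * π * (q / p * t ^ 2))) * g (-t) with hψ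
  have hg' : MemLp (fun t => g (-t)) 2 volume :=
    hg.comp_measurePreserving (Measure.measurePreserving_neg volume)
  have hnorm : ∀ t, ‖ψ t‖ = ‖g (-t)‖ := by
    intro t
    rw [hψ]
    simp only [norm_mul]
    have := norm_exp_real (-(q / p * t ^ 2))
    rw [show -(I * π * ((q:ℂ) / p * t ^ 2)) = I * π * ((-(q / p * t ^ 2) : ℝ) : ℂ) by
      push_cast; ring, this, one_mul]
  have hψm : MemLp ψ 2 volume := by
    refine hg'.of_le ?_ (Eventually.of_forall fun t => (hnorm t).le)
    exact (by fun_prop : Continuous fun t : ℝ =>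
      cexp (-(I * π * (q / p * t ^ 2)))).aestronglyMeasurable.mul hg'.1
  have hψ0 : ¬ ψ =ᵐ[volume] 0 := by
    intro h0
    apply hne
    have h1 : (fun t => g (-t)) =ᵐ[volume] 0 := by
      filter_upwards [h0] with t ht
      have := hnorm t
      rw [ht, Pi.zero_apply, norm_zero] at this
      exact norm_eq_zero.1 this.symm
    have h2 := (Measure.measurePreserving_neg (volume : Measure ℝ)).quasiMeasurePreserving.ae h1
    filter_upwards [h2] with t ht
    simpa using ht
  have hrel : ∀ (k : ℕ) (t : ℝ), ph g p q s k t = cexp (I * π * (q / p * t ^ 2)) *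
      (cexp (-(I * π * (k * s))) * ψ (t - k * p)) := by
    intro k t
    have hpc : (p : ℂ) ≠ 0 := by exact_mod_cast hp.ne'
    have : cexp (I * π * (2 * k * q * t - k ^ 2 * p * q - k * s)) =
        cexp (I * π * (q / p * t ^ 2)) * (cexp (-(I * π * (k * s))) *
          cexp (-(I * π * (q / p * ((t - k * p : ℝ) : ℂ) ^ 2)))) := by
      rw [← exp_add, ← exp_add]
      congr 1
      push_cast
      field_simp
      ring
    rw [ph, this, hψ]
    simp only
    rw [show -(t - (k:ℝ) * p) = k * p - t by ring]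
    ring
  have h2 : (fun t => ∑ k ∈ Finset.range K, (c k * cexp (-(I * π * (k * s)))) * ψ (t - k * p))
      =ᵐ[volume] 0 := by
    filter_upwards [h] with t ht
    have h3 : ∑ k ∈ Finset.range K, c k * ph g p q s k t = cexp (I * π * (q / p * t ^ 2)) *
        ∑ k ∈ Finset.range K, (c k * cexp (-(I * π * (k * s)))) * ψ (t - k * p) := by
      rw [Finset.mul_sum]
      refine Finset.sum_congr rfl fun k _ => ?_
      rw [hrel]
      ring
    rw [h3, Pi.zero_apply] at ht
    exact (mul_eq_zero.1 ht).resolve_left (exp_ne_zero _)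
  have h4 := indep hψm hψ0 hp K _ h2
  intro k hk
  exact (mul_eq_zero.1 (h4 k hk)).resolve_right (exp_ne_zero _)

/-- A point of the adjoint lattice with positive first coordinate. -/
lemma exists_adjoint (A : Matrix (Fin 2) (Fin 2) ℝ) (hA : A.det ≠ 0) :
    ∃ p q : ℝ, 0 < p ∧ (∃ j : ℤ, q * A 0 0 - p * A 1 0 = j) ∧ ∃ l : ℤ, q * A 0 1 - p * A 1 1 = l := by
  have hD : A 0 0 * A 1 1 - A 0 1 * A 1 0 ≠ 0 := by rwa [Matrix.det_fin_two] at hA
  set D := A 0 0 * A 1 1 - A 0 1 * A 1 0 with hDdef
  -- a point with nonzero first coordinate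
  obtain ⟨p, q, hp, ⟨j, hj⟩, l, hl⟩ : ∃ p q : ℝ, p ≠ 0 ∧ (∃ j : ℤ, q * A 0 0 - p * A 1 0 = j) ∧
      ∃ l : ℤ, q * A 0 1 - p * A 1 1 = l := by
    by_cases h1 : A 0 1 = 0
    · have h0 : A 0 0 ≠ 0 := by
        intro h0
        apply hD
        rw [hDdef, h0, h1]; ring
      refine ⟨A 0 0 / D, A 1 0 / D, div_ne_zero h0 hD, ⟨0, ?_⟩, -1, ?_⟩
      · push_cast; ring
      · have : A 1 0 / D * A 0 1 - A 0 0 / D * A 1 1 = -(D / D) := by rw [hDdef]; ring
        rw [this, div_self hD]; norm_num
    · refine ⟨A 0 1 / D, A 1 1 / D, div_ne_zero h1 hD, ⟨1, ?_⟩, 0, ?_⟩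
      · have : A 1 1 / D * A 0 0 - A 0 1 / D * A 1 0 = D / D := by rw [hDdef]; ring
        rw [this, div_self hD]; norm_num
      · push_cast; ring
  rcases lt_or_gt_of_ne hp with h | h
  · refine ⟨-p, -q, by linarith, ⟨-j, ?_⟩, -l, ?_⟩
    · push_cast; linarith
    · push_cast; linarith
  · exact ⟨p, q, h, ⟨j, hj⟩, l, hl⟩

/-- No shifted lattice together with a finite set has the uniqueness property. -/
theorem not_uniqueness (g : ℝ → ℂ) (hg : MemLp g 2 volume) (A : Matrix (Fin 2) (Fin 2) ℝ)
    (hA : A.det ≠ 0) (z₀ : ℝ × ℝ) (P : Set (ℝ × ℝ)) (hP : P.Finite) :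
    ¬ Uniqueness g (shiftedLattice A z₀ ∪ P) := by
  intro hU
  by_cases hne : g =ᵐ[volume] 0
  · -- the zero window
    have hst : ∀ f : ℝ → ℂ, ∀ x ω, stft g f x ω = 0 := by
      intro f x ω
      rw [stft]
      have h1 := (measurePreserving_sub_right (volume : Measure ℝ) x).quasiMeasurePreserving.ae hne
      rw [integral_eq_zero_of_ae]
      filter_upwards [h1] with t ht
      rw [ht]
      simp
    have hind : MemLp (indicator (Icc (0:ℝ) 1) (fun _ => (1:ℂ))) 2 volume :=
      memLp_indicator_const 2 measurableSet_Icc 1 (Or.inr (by simp))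
    obtain ⟨α, hα⟩ := hU (indicator (Icc (0:ℝ) 1) (fun _ => (1:ℂ))) (fun _ => 0) hind
      MemLp.zero' (fun z _ => by rw [hst, hst])
    have h2 : volume (Icc (0:ℝ) 1) = 0 := by
      rw [← le_zero_iff, ← (ae_iff.1 hα)]
      refine measure_mono fun t ht => ?_
      simp [ht.1, ht.2]
    simp at h2
  · obtain ⟨p, q, hp, ⟨j, hj⟩, l, hl⟩ := exists_adjoint A hA
    set s : ℝ := q * z₀.1 - p * z₀.2 with hs
    obtain ⟨S, rfl⟩ : ∃ S : Finset (ℝ × ℝ), P = S := ⟨hP.toFinset, by simp⟩
    set K : ℕ := 2 * S.card + 2 with hK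
    -- the evaluation map
    let L : (Fin K → ℝ) →ₗ[ℝ] (S → ℂ) :=
      { toFun := fun x w => ∑ k : Fin K, (x k : ℂ) * stft g (ph g p q s k) w.1.1 w.1.2
        map_add' := fun x y => by
          funext w
          simp only [Pi.add_apply, ofReal_add, add_mul, Finset.sum_add_distrib]
        map_smul' := fun c x => by
          funext w
          simp only [Pi.smul_apply, smul_eq_mul, ofReal_mul, RingHom.id_apply, real_smul,
            Finset.mul_sum, mul_assoc] }
    have hker : LinearMap.ker L ≠ ⊥ := by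
      apply LinearMap.ker_ne_bot_of_finrank_lt
      rw [Module.finrank_pi_fintype]
      simp only [Complex.finrank_real_complex, Finset.sum_const, Finset.card_univ,
        Fintype.card_coe, smul_eq_mul, Module.finrank_fintype_fun_eq_card, Fintype.card_fin]
      omega
    obtain ⟨x, hxL, hx0⟩ := Submodule.exists_mem_ne_zero_of_ne_bot hker
    rw [LinearMap.mem_ker] at hxL
    obtain ⟨i, hi⟩ : ∃ i, x i ≠ 0 := by
      by_contra hcon
      push Not at hcon
      exact hx0 (funext hcon)
    obtain ⟨m, hmi⟩ : ∃ m : Fin K, m ≠ i := by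
      have : Nontrivial (Fin K) := Fin.nontrivial_iff_two_le.2 (by omega)
      exact exists_ne i
    set X : ℝ → ℂ := fun t => ∑ k : Fin K, (x k : ℂ) * ph g p q s k t with hX
    set Y : ℝ → ℂ := ph g p q s m with hY
    have hXm : MemLp X 2 volume := by
      rw [hX]
      exact memLp_finsetSum _ fun k _ => (memLp_ph hg p q s k).const_mul _
    have hYm : MemLp Y 2 volume := memLp_ph hg p q s m
    have hstX : ∀ u v : ℝ, stft g X u v = ∑ k : Fin K, (x k : ℂ) * stft g (ph g p q s k) u v := by
      intro u v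
      have h1 : stft g X u v = ∫ t : ℝ, ∑ k : Fin K, (x k : ℂ) * (ph g p q s k t *
          conj (g (t - u)) * cexp (-(2 * π * I * v * t))) := by
        rw [stft]
        refine integral_congr_ae (Eventually.of_forall fun t => ?_)
        simp only [hX, Finset.sum_mul]
        refine Finset.sum_congr rfl fun k _ => ?_
        ring
      rw [h1, integral_finsetSum]
      · refine Finset.sum_congr rfl fun k _ => ?_
        rw [integral_const_mul]
        rfl
      · exact fun k _ => (integrable_stft hg (memLp_ph hg p q s k) u v).const_mul _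
    have hadd : ∀ (ε : ℂ) (u v : ℝ), stft g (fun t => X t + ε * Y t) u v =
        stft g X u v + ε * stft g Y u v := by
      intro ε u v
      have h1 : stft g (fun t => X t + ε * Y t) u v = ∫ t : ℝ, ((X t * conj (g (t - u)) *
          cexp (-(2 * π * I * v * t))) + ε * (Y t * conj (g (t - u)) *
          cexp (-(2 * π * I * v * t)))) := by
        rw [stft]
        refine integral_congr_ae (Eventually.of_forall fun t => ?_)
        simp only
        ring
      rw [h1, integral_add (integrable_stft hg hXm u v) ((integrable_stft hg hYm u v).const_mul _),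
        integral_const_mul]
      rfl
    have hfm : ∀ ε : ℂ, MemLp (fun t => X t + ε * Y t) 2 volume := fun ε => hXm.add (hYm.const_mul ε)
    obtain ⟨α, hα⟩ := hU (fun t => X t + I * Y t) (fun t => X t + -I * Y t) (hfm I) (hfm (-I)) (by
      rintro ⟨u, v⟩ hz
      simp only
      rw [hadd, hadd]
      rcases hz with ⟨a, b, hab⟩ | hz
      · -- lattice points
        have hu : u = A 0 0 * a + A 0 1 * b + z₀.1 := congrArg Prod.fst hab
        have hv : v = A 1 0 * a + A 1 1 * b + z₀.2 := congrArg Prod.snd hab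
        have hint : q * u - p * v - s = ((j * a + l * b : ℤ) : ℝ) := by
          rw [hu, hv, hs]
          push_cast
          rw [← hj, ← hl]
          ring
        have hsym : ∀ k : ℕ, stft g (ph g p q s k) u v =
            cexp (-(2 * π * I * v * u)) * conj (stft g (ph g p q s k) u v) := fun k =>
          stft_ph g p q s u v k _ hint
        have hXs : stft g X u v = cexp (-(2 * π * I * v * u)) * conj (stft g X u v) := by
          rw [hstX, map_sum, Finset.mul_sum]
          refine Finset.sum_congr rfl fun k _ => ?_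
          rw [map_mul, conj_ofReal]
          conv_lhs => rw [hsym k]
          ring
        have hYs := hsym m
        rw [← hY] at hYs
        have h1 : stft g X u v + I * stft g Y u v = cexp (-(2 * π * I * v * u)) *
            conj (stft g X u v + -I * stft g Y u v) := by
          rw [map_add, map_mul, map_neg, conj_I]
          conv_lhs => rw [hXs, hYs]
          ring
        rw [h1, norm_mul, RCLike.norm_conj]
        have h2 := norm_exp_real (-(2 * v * u))
        rw [show -(2 * (π:ℂ) * I * v * u) = I * π * ((-(2 * v * u) : ℝ) : ℂ) by push_cast; ring,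
          h2, one_mul]
      · have h0 : stft g X u v = 0 := by
          rw [hstX]
          exact congrFun hxL ⟨(u, v), hz⟩
        rw [h0, zero_add, zero_add, norm_mul, norm_mul, norm_neg])
    -- the relation
    set c : ℕ → ℂ := fun k => if h : k < K then
      (1 - cexp (I * α)) * x ⟨k, h⟩ + (if k = m then I * (1 + cexp (I * α)) else 0) else 0 with hc
    have hrel : (fun t => ∑ k ∈ Finset.range K, c k * ph g p q s k t) =ᵐ[volume] 0 := by
      filter_upwards [hα] with t ht
      rw [← Fin.sum_univ_eq_sum_range (fun k => c k * ph g p q s k t) K]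
      have h1 : ∀ k : Fin K, c k * ph g p q s k t = (1 - cexp (I * α)) * ((x k : ℂ) * ph g p q s k t) +
          (if k = m then I * (1 + cexp (I * α)) * ph g p q s k t else 0) := by
        intro k
        simp only [hc, k.2, dif_pos, Fin.eta]
        by_cases hkm : k = m
        · subst hkm
          simp only [if_true]
          ring
        · have : (k : ℕ) ≠ m := fun h => hkm (Fin.ext h)
          simp only [hkm, this, if_false]
          ring
      rw [Finset.sum_congr rfl fun k _ => h1 k, Finset.sum_add_distrib, ← Finset.mul_sum,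
        Finset.sum_ite_eq' Finset.univ m]
      simp only [Finset.mem_univ, if_true, Pi.zero_apply]
      have h2 : ∑ k : Fin K, (x k : ℂ) * ph g p q s k t = X t := rfl
      have h3 : ph g p q s m t = Y t := rfl
      rw [h2, h3]
      linear_combination ht
    have hall := indep_ph hg hne hp q s K c hrel
    have hci := hall i i.2
    have hcm := hall m m.2
    have him : (i : ℕ) ≠ m := fun h => hmi (Fin.ext h.symm)
    simp only [hc, i.2, dif_pos, Fin.eta, him, if_false, add_zero] at hci
    simp only [hc, m.2, dif_pos, Fin.eta, if_true] at hcm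
    have h1 : 1 - cexp (I * α) = 0 := by
      rcases mul_eq_zero.1 hci with h | h
      · exact h
      · exact absurd (by exact_mod_cast h) hi
    have h2 : cexp (I * α) = 1 := by linear_combination -h1
    rw [h2] at hcm
    norm_num at hcm

end Pool.Agent.Q174.STFT
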