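import Mathlib

/-!
# Auxiliary analysis for the two-bump solution
-/

set_option autoImplicit false

open Filter Topology Set MeasureTheory

namespace Pool.Agent.Q174.TwoBump

/-- `(max x 0)^p` is differentiable for `p > 1`. -/
lemma hasDerivAt_pospow {p : ℝ} (hp : 1 < p) (x : ℝ) :
    HasDerivAt (fun x : ℝ => (max x 0) ^ p) (p * (max x 0) ^ (p - 1)) x := by
  have hne : ∀ y : ℝ, y ≠ 0 → HasDerivAt (fun x : ℝ => (max x 0) ^ p) (p * (max y 0) ^ (p - 1)) y := by
    intro y hy
    rcases lt_or_gt_of_ne hy with h | h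
    · have e : (fun x : ℝ => (max x 0) ^ p) =ᶠ[𝓝 y] fun _ => 0 := by
        filter_upwards [gt_mem_nhds h] with z hz
        rw [max_eq_right hz.le, Real.zero_rpow (by linarith)]
      rw [max_eq_right h.le, Real.zero_rpow (by linarith), mul_zero]
      exact (hasDerivAt_const y (0:ℝ)).congr_of_eventuallyEq e
    · have e : (fun x : ℝ => (max x 0) ^ p) =ᶠ[𝓝 y] fun x => x ^ p := by
        filter_upwards [lt_mem_nhds h] with z hz
        rw [max_eq_left hz.le]
      rw [max_eq_left h.le]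
      exact (Real.hasDerivAt_rpow_const (Or.inl hy)).congr_of_eventuallyEq e
  have c1 : Continuous (fun x : ℝ => (max x 0) ^ p) := by
    apply Continuous.rpow_const (by fun_prop)
    intro x; right; linarith
  have c2 : Continuous (fun x : ℝ => p * (max x 0) ^ (p - 1)) := by
    apply continuous_const.mul
    apply Continuous.rpow_const (by fun_prop)
    intro x; right; linarith
  by_cases hx : x = 0
  · subst hx
    exact hasDerivAt_of_hasDerivAt_of_ne (fun y hy => hne y hy) c1.continuousAt c2.continuousAt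
  · exact hne x hx

variable {m p : ℝ}

/-- `Q(x) = (m^p + x_+^p)^{1/p}` -/
noncomputable def Q (m p x : ℝ) : ℝ := (m ^ p + (max x 0) ^ p) ^ (1 / p)

/-- its derivative -/
noncomputable def Qd (m p x : ℝ) : ℝ := (max x 0 / Q m p x) ^ (p - 1)

lemma base_pos (hm : 0 < m) (x : ℝ) : 0 < m ^ p + (max x 0) ^ p := by
  have h1 : 0 < m ^ p := Real.rpow_pos_of_pos hm p
  have h2 : 0 ≤ (max x 0) ^ p := Real.rpow_nonneg (le_max_right _ _) p
  linarith

lemma Q_pos (hm : 0 < m) (x : ℝ) : 0 < Q m p x := Real.rpow_pos_of_pos (base_pos hm x) _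

lemma Q_rpow (hp : 1 < p) (hm : 0 < m) (x : ℝ) : Q m p x ^ p = m ^ p + (max x 0) ^ p := by
  rw [Q, ← Real.rpow_mul (base_pos hm x).le, one_div_mul_cancel (by linarith), Real.rpow_one]

lemma lt_Q (hp : 1 < p) (hm : 0 < m) (x : ℝ) : max x 0 < Q m p x := by
  have h1 := Q_rpow hp hm x
  have h2 : 0 < m ^ p := Real.rpow_pos_of_pos hm p
  have h3 : (max x 0) ^ p < Q m p x ^ p := by rw [h1]; linarith
  exact (Real.rpow_lt_rpow_iff (le_max_right _ _) (Q_pos hm x).le (by linarith)).1 h3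

lemma hasDerivAt_Q (hp : 1 < p) (hm : 0 < m) (x : ℝ) : HasDerivAt (Q m p) (Qd m p x) x := by
  have h1 := ((hasDerivAt_pospow hp x).const_add (m ^ p)).rpow_const (p := 1 / p)
    (Or.inl (base_pos hm x).ne')
  refine h1.congr_deriv ?_
  have hb := base_pos (p := p) hm x
  have hQ := Q_pos (p := p) hm x
  have e1 : (m ^ p + (max x 0) ^ p) ^ (1 / p - 1) = Q m p x ^ (1 - p) := by
    rw [Q, ← Real.rpow_mul hb.le]
    congr 1
    field_simp
  rw [e1, Qd, Real.div_rpow (le_max_right _ _) hQ.le, show (1 - p) = -(p - 1) by ring,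
    Real.rpow_neg hQ.le]
  field_simp

lemma Qd_nonneg (hm : 0 < m) (x : ℝ) : 0 ≤ Qd m p x := by
  have := Q_pos (p := p) hm x
  have h2 : 0 ≤ max x 0 := le_max_right _ _
  unfold Qd; positivity

lemma Qd_lt_one (hp : 1 < p) (hm : 0 < m) (x : ℝ) : Qd m p x < 1 := by
  have h1 := lt_Q hp hm x
  have h2 := Q_pos (p := p) hm x
  have h3 : 0 ≤ max x 0 := le_max_right _ _
  apply Real.rpow_lt_one (by positivity) _ (by linarith)
  rw [div_lt_one h2]; exact h1

lemma Qd_pos (hm : 0 < m) {x : ℝ} (hx : 0 < x) : 0 < Qd m p x := by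
  have := Q_pos (p := p) hm x
  have h2 : 0 < max x 0 := lt_max_of_lt_left hx
  unfold Qd; positivity

lemma Qd_of_nonpos (hp : 1 < p) {x : ℝ} (hx : x ≤ 0) : Qd m p x = 0 := by
  rw [Qd, max_eq_right hx, zero_div, Real.zero_rpow (by linarith)]

lemma Q_of_nonpos (hp : 1 < p) (hm : 0 < m) {x : ℝ} (hx : x ≤ 0) : Q m p x = m := by
  rw [Q, max_eq_right hx, Real.zero_rpow (by linarith), add_zero, ← Real.rpow_mul hm.le,
    mul_one_div_cancel (by linarith), Real.rpow_one]

lemma continuous_Q (hp : 1 < p) (hm : 0 < m) : Continuous (Q m p) :=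
  continuous_iff_continuousAt.2 fun x => (hasDerivAt_Q hp hm x).continuousAt

lemma continuous_Qd (hp : 1 < p) (hm : 0 < m) : Continuous (Qd m p) := by
  unfold Qd
  apply Continuous.rpow_const
  · exact (by fun_prop : Continuous fun x : ℝ => max x 0).div (continuous_Q hp hm)
      fun x => (Q_pos hm x).ne'
  · intro x; right; linarith

/-- Conjugate exponents. -/
structure Conj (α p : ℝ) : Prop where
  hα : 1 < α
  hp : p = α / (α - 1)

lemma Conj.p1 {α p : ℝ} (h : Conj α p) : 1 < p := by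
  have := h.hα
  rw [h.hp, lt_div_iff₀ (by linarith)]; linarith

lemma Conj.mul {α p : ℝ} (h : Conj α p) : (p - 1) * (α - 1) = 1 := by
  have := h.hα
  have h1 : α - 1 ≠ 0 := by linarith
  rw [h.hp]; field_simp; ring

lemma Conj.addmul {α p : ℝ} (h : Conj α p) : α + p = α * p := by
  have := h.mul; linarith

/-- `Q'(x)^{α-1} Q(x) = x_+`. -/
lemma Qd_rpow {α : ℝ} (h : Conj α p) (hm : 0 < m) (x : ℝ) :
    Qd m p x ^ (α - 1) * Q m p x = max x 0 := by
  have h1 := Q_pos (p := p) hm x
  have h2 : 0 ≤ max x 0 := le_max_right _ _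
  rw [Qd, ← Real.rpow_mul (by positivity), h.mul, Real.rpow_one]
  field_simp

lemma Qd_rpow' {α : ℝ} (h : Conj α p) (hm : 0 < m) (x : ℝ) :
    Qd m p x ^ α * Q m p x = Qd m p x * max x 0 := by
  have h1 := Qd_nonneg (p := p) hm x
  rw [← Qd_rpow h hm x, show α = (α - 1) + 1 by ring]
  rw [Real.rpow_add' h1 (by have := h.hα; linarith), Real.rpow_one]
  ring_nf

/-- The fan density in terms of `Q'`. -/
lemma fan_eq {α : ℝ} (h : Conj α p) (hm : 0 < m) {t y : ℝ} (ht : 0 < t) (hy : 0 < y) :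
    ((y / (α * m * t)) ^ (-p) + α * t) ^ (-(1 / α)) =
      Qd m p (y / (α * t) ^ (1 / α)) / (α * t) ^ (1 / α) := by
  have hα := h.hα
  have hα0 : 0 < α := by linarith
  have hp1 := h.p1
  set w := (α * t) ^ (1 / α) with hw
  have hw0 : 0 < w := Real.rpow_pos_of_pos (by positivity) _
  have hwα : w ^ α = α * t := by
    rw [hw, ← Real.rpow_mul (by positivity), one_div_mul_cancel hα0.ne', Real.rpow_one]
  set x := y / w with hx
  have hx0 : 0 < x := by positivity
  have hQ := Q_pos (p := p) hm x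
  have hQp := Q_rpow hp1 hm x
  have hmax : max x 0 = x := max_eq_left hx0.le
  rw [hmax] at hQp
  have key : (y / (α * m * t)) ^ (-p) + α * t = w ^ α * (Q m p x / x) ^ p := by
    rw [Real.div_rpow hQ.le hx0.le, hQp]
    have e1 : (y / (α * m * t)) = x / m * w ^ (1 - α) := by
      rw [Real.rpow_sub hw0, Real.rpow_one, hwα, hx]
      field_simp
    rw [e1, Real.mul_rpow (by positivity) (by positivity), Real.div_rpow hx0.le hm.le,
      ← Real.rpow_mul hw0.le, Real.rpow_neg hx0.le, Real.rpow_neg hm.le,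
      show (1 - α) * -p = α by have := h.addmul; linarith]
    have a1 : 0 < x ^ p := Real.rpow_pos_of_pos hx0 p
    have a2 : 0 < m ^ p := Real.rpow_pos_of_pos hm p
    rw [← hwα]
    field_simp
  have b1 : (w ^ α) ^ (-(1 / α)) = w⁻¹ := by
    rw [← Real.rpow_mul hw0.le, show α * -(1 / α) = -1 by field_simp, Real.rpow_neg_one]
  have b2 : ((Q m p x / x) ^ p) ^ (-(1 / α)) = (x / Q m p x) ^ (p - 1) := by
    have hq : 0 < Q m p x / x := by positivity
    rw [← Real.rpow_mul hq.le, show p * -(1 / α) = -(p - 1) by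
      have := h.addmul
      field_simp; linarith, Real.rpow_neg hq.le, ← Real.inv_rpow hq.le, inv_div]
  rw [key, Real.mul_rpow (by positivity) (by positivity), b1, b2, Qd, hmax]
  ring

/-- `Γ(x) = Q(x) - x` -/
noncomputable def Γ (m p x : ℝ) : ℝ := Q m p x - x

lemma hasDerivAt_Γ (hp : 1 < p) (hm : 0 < m) (x : ℝ) : HasDerivAt (Γ m p) (Qd m p x - 1) x :=
  (hasDerivAt_Q hp hm x).sub (hasDerivAt_id x)

lemma strictAnti_Γ (hp : 1 < p) (hm : 0 < m) : StrictAnti (Γ m p) := by
  apply strictAnti_of_hasDerivAt_neg (f' := fun x => Qd m p x - 1)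
  · exact fun x => hasDerivAt_Γ hp hm x
  · intro x
    have := Qd_lt_one hp hm x
    linarith

lemma Γ_pos (hp : 1 < p) (hm : 0 < m) (x : ℝ) : 0 < Γ m p x := by
  have h1 := lt_Q hp hm x
  have h2 := le_max_left x 0
  unfold Γ; linarith

lemma continuous_Γ (hp : 1 < p) (hm : 0 < m) : Continuous (Γ m p) :=
  (continuous_Q hp hm).sub continuous_id

end Pool.Agent.Q174.TwoBump
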